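import Mathlib
import Pool.Agent.Helper84.MT.Cay

/-!
# Similitudes in a Zariski closed group

If a closed set of matrices contains (up to sign) all isometries of a form, over all fields, and
contains similitudes with infinitely many multipliers, then it contains all similitudes.
-/

set_option autoImplicit false

open Matrix

namespace MT

variable {K₀ : Type} [Field K₀] {n : ℕ}

/-- `g` is a zero of all polynomials in `I` -/
def ZZ (I : Set (MvPolynomial (Fin n × Fin n) K₀)) {R : Type} [CommRing R] [Algebra K₀ R]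
    (g : Matrix (Fin n) (Fin n) R) : Prop :=
  ∀ f ∈ I, ev g f = 0

/-- the scalar matrices: infinitely many implies all -/
theorem sim_scalar (I : Set (MvPolynomial (Fin n × Fin n) K₀)) {L : Type} [Field L] [Algebra K₀ L]
    (h : {c : L | ZZ I (c • (1 : Matrix (Fin n) (Fin n) L))}.Infinite) (c : L) :
    ZZ I (c • (1 : Matrix (Fin n) (Fin n) L)) := by
  intro f hf
  set P : Polynomial L := ev ((Polynomial.X : Polynomial L) •
    (1 : Matrix (Fin n) (Fin n) (Polynomial L))) f with hP
  have heval : ∀ c : L, P.eval c = ev (c • (1 : Matrix (Fin n) (Fin n) L)) f := by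
    intro c
    rw [hP]
    have h1 := ev_map (K₀ := K₀) (Polynomial.evalRingHom c)
      (fun a => by
        rw [IsScalarTower.algebraMap_apply K₀ L (Polynomial L)]
        simp) ((Polynomial.X : Polynomial L) • (1 : Matrix (Fin n) (Fin n) (Polynomial L))) f
    rw [Polynomial.coe_evalRingHom] at h1
    rw [h1]
    congr 2
    ext i j
    simp only [Matrix.map_apply, Matrix.smul_apply, smul_eq_mul, Polynomial.eval_mul,
      Polynomial.eval_X, Matrix.one_apply]
    split_ifs <;> simp
  have hz : P = 0 := by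
    refine Polynomial.eq_zero_of_infinite_isRoot P (h.mono ?_)
    intro c hc
    rw [Set.mem_ofPred_eq, Polynomial.IsRoot.def, heval]
    exact hc f hf
  rw [← heval, hz, Polynomial.eval_zero]

/-- SIM -/
theorem sim_all (psi : Matrix (Fin n) (Fin n) K₀) (I : Set (MvPolynomial (Fin n × Fin n) K₀))
    (hmul : ∀ (L : Type) [Field L] [Algebra K₀ L] (g h : Matrix (Fin n) (Fin n) L),
      IsUnit g.det → IsUnit h.det → ZZ I g → ZZ I h → ZZ I (g * h))
    (hiso : ∀ (L : Type) [Field L] [Algebra K₀ L] (s : Matrix (Fin n) (Fin n) L),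
      s.transpose * psi.map (algebraMap K₀ L) * s = psi.map (algebraMap K₀ L) →
      ZZ I s ∨ ZZ I (-s))
    (T : Set (Matrix (Fin n) (Fin n) K₀)) (μ : Matrix (Fin n) (Fin n) K₀ → K₀)
    (hpsi : IsUnit psi)
    (hT : ∀ g ∈ T, ZZ I g ∧ μ g ≠ 0 ∧ g.transpose * psi * g = μ g • psi)
    (hinf : (μ '' T).Infinite)
    (K : Type) [Field K] [Algebra K₀ K] (g : Matrix (Fin n) (Fin n) K) (m : K) (hm : m ≠ 0)
    (hg : g.transpose * psi.map (algebraMap K₀ K) * g = m • psi.map (algebraMap K₀ K)) :
    ZZ I g := by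
  set L := AlgebraicClosure K with hL
  -- similitudes over `L` are scalars times isometries
  have hdec : ∀ (t : Matrix (Fin n) (Fin n) L) (c ν : L), c ≠ 0 → ν * ν = c →
      t.transpose * psi.map (algebraMap K₀ L) * t = c • psi.map (algebraMap K₀ L) →
      (ν⁻¹ • t).transpose * psi.map (algebraMap K₀ L) * (ν⁻¹ • t) =
        psi.map (algebraMap K₀ L) := by
    intro t c ν hc hν ht
    have hν0 : ν ≠ 0 := by
      rintro rfl
      exact hc (by rw [← hν, mul_zero])
    rw [Matrix.transpose_smul, Matrix.smul_mul, Matrix.smul_mul, Matrix.mul_smul, ht, smul_smul,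
      smul_smul, ← hν]
    have h1 : ν⁻¹ * ν⁻¹ * (ν * ν) = 1 := by
      rw [mul_mul_mul_comm, inv_mul_cancel₀ hν0, one_mul]
    rw [h1, one_smul]
  have hneg : ∀ s : Matrix (Fin n) (Fin n) L,
      s.transpose * psi.map (algebraMap K₀ L) * s = psi.map (algebraMap K₀ L) →
      (-s).transpose * psi.map (algebraMap K₀ L) * (-s) = psi.map (algebraMap K₀ L) := by
    intro s hs
    rw [Matrix.transpose_neg, Matrix.neg_mul, Matrix.neg_mul, Matrix.mul_neg, neg_neg, hs]
  have hdetL : IsUnit (psi.map (algebraMap K₀ L)) := hpsi.map ((algebraMap K₀ L).mapMatrix)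
  have hdetL' : IsUnit (psi.map (algebraMap K₀ L)).det :=
    (Matrix.isUnit_iff_isUnit_det _).mp hdetL
  have hsunit : ∀ s : Matrix (Fin n) (Fin n) L,
      s.transpose * psi.map (algebraMap K₀ L) * s = psi.map (algebraMap K₀ L) →
      IsUnit s.det := by
    intro s hs
    have h1 := congrArg Matrix.det hs
    rw [Matrix.det_mul, Matrix.det_mul, Matrix.det_transpose] at h1
    rw [isUnit_iff_ne_zero]
    intro h0
    rw [h0, mul_zero] at h1
    exact hdetL'.ne_zero h1.symm
  have hinv : ∀ s : Matrix (Fin n) (Fin n) L,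
      s.transpose * psi.map (algebraMap K₀ L) * s = psi.map (algebraMap K₀ L) →
      (s⁻¹).transpose * psi.map (algebraMap K₀ L) * s⁻¹ = psi.map (algebraMap K₀ L) := by
    intro s hs
    have hu := hsunit s hs
    have hu' : IsUnit s.transpose.det := by rw [Matrix.det_transpose]; exact hu
    conv_lhs => rw [← hs]
    rw [Matrix.transpose_nonsing_inv, Matrix.mul_assoc, Matrix.mul_assoc, Matrix.mul_assoc,
      Matrix.mul_nonsing_inv s hu, Matrix.mul_one, ← Matrix.mul_assoc,
      Matrix.nonsing_inv_mul _ hu', Matrix.one_mul]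
  -- scalars
  have hscal : {c : L | ZZ I (c • (1 : Matrix (Fin n) (Fin n) L))}.Infinite := by
    have hsub : (algebraMap K₀ L) '' (μ '' T) ⊆
        (fun c : L => c * c) '' {c : L | ZZ I (c • (1 : Matrix (Fin n) (Fin n) L))} := by
      rintro _ ⟨_, ⟨t, ht, rfl⟩, rfl⟩
      obtain ⟨hz, h0, hs⟩ := hT t ht
      set c : L := algebraMap K₀ L (μ t) with hc
      have hc0 : c ≠ 0 := by
        rw [hc]
        exact (map_ne_zero (algebraMap K₀ L)).mpr h0
      obtain ⟨ν, hν⟩ := IsAlgClosed.exists_pow_nat_eq c (n := 2) (by norm_num)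
      rw [pow_two] at hν
      have hν0 : ν ≠ 0 := by
        rintro rfl
        exact hc0 (by rw [← hν, mul_zero])
      set t' : Matrix (Fin n) (Fin n) L := t.map (algebraMap K₀ L) with ht'
      have hst : t'.transpose * psi.map (algebraMap K₀ L) * t' =
          c • psi.map (algebraMap K₀ L) := by
        have h1 := congrArg (fun M : Matrix (Fin n) (Fin n) K₀ => M.map (algebraMap K₀ L)) hs
        simp only [Matrix.map_mul] at h1
        rw [ht', ← Matrix.transpose_map, h1]
        ext i j
        simp [hc]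
      have hzt : ZZ I t' := by
        intro f hf
        have h1 := ev_map (K₀ := K₀) (algebraMap K₀ L) (fun a => rfl) t f
        rw [hz f hf, map_zero] at h1
        exact h1.symm
      have hiso1 := hdec t' c ν hc0 hν hst
      have hiso2 := hinv _ hiso1
      have hprod : t' * (ν⁻¹ • t')⁻¹ = ν • (1 : Matrix (Fin n) (Fin n) L) := by
        have h2 : t' = ν • (ν⁻¹ • t') := by
          rw [smul_smul, mul_inv_cancel₀ hν0, one_smul]
        conv_lhs => rw [h2]
        rw [smul_smul, mul_inv_cancel₀ hν0, one_smul]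
        have h3 : t' = ν • (ν⁻¹ • t') := h2
        calc t' * (ν⁻¹ • t')⁻¹ = (ν • (ν⁻¹ • t')) * (ν⁻¹ • t')⁻¹ := by rw [← h3]
          _ = ν • ((ν⁻¹ • t') * (ν⁻¹ • t')⁻¹) := by rw [Matrix.smul_mul]
          _ = ν • (1 : Matrix (Fin n) (Fin n) L) := by
            rw [Matrix.mul_nonsing_inv _ (hsunit _ hiso1)]
      have hut : IsUnit t'.det := by
        have h3 : t' = ν • (ν⁻¹ • t') := by
          rw [smul_smul, mul_inv_cancel₀ hν0, one_smul]
        rw [h3, Matrix.det_smul]
        exact ((IsUnit.mk0 ν hν0).pow _).mul (hsunit _ hiso1)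
      rcases hiso L _ hiso2 with h | h
      · refine ⟨ν, ?_, hν⟩
        rw [Set.mem_ofPred_eq, ← hprod]
        exact hmul L _ _ hut (hsunit _ hiso2) hzt h
      · refine ⟨-ν, ?_, by rw [← hν]; ring⟩
        rw [Set.mem_ofPred_eq, neg_smul, ← hprod, ← Matrix.mul_neg]
        exact hmul L _ _ hut (hsunit _ (hneg _ hiso2)) hzt h
    have h1 : ((algebraMap K₀ L) '' (μ '' T)).Infinite :=
      hinf.image (FaithfulSMul.algebraMap_injective K₀ L).injOn
    exact (h1.mono hsub).of_image _
  have hall := sim_scalar I hscal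
  -- the given similitude
  set g' : Matrix (Fin n) (Fin n) L := g.map (algebraMap K L) with hg'
  have hmap : ∀ M : Matrix (Fin n) (Fin n) K₀,
      (M.map (algebraMap K₀ K)).map (algebraMap K L) = M.map (algebraMap K₀ L) := by
    intro M
    ext i j
    simp only [Matrix.map_apply]
    rw [← IsScalarTower.algebraMap_apply K₀ K L]
  set c : L := algebraMap K L m with hc
  have hc0 : c ≠ 0 := (map_ne_zero (algebraMap K L)).mpr hm
  obtain ⟨ν, hν⟩ := IsAlgClosed.exists_pow_nat_eq c (n := 2) (by norm_num)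
  rw [pow_two] at hν
  have hν0 : ν ≠ 0 := by
    rintro rfl
    exact hc0 (by rw [← hν, mul_zero])
  have hst : g'.transpose * psi.map (algebraMap K₀ L) * g' = c • psi.map (algebraMap K₀ L) := by
    have h1 := congrArg (fun M : Matrix (Fin n) (Fin n) K => M.map (algebraMap K L)) hg
    simp only [Matrix.map_mul, hmap] at h1
    rw [hg', ← Matrix.transpose_map, h1]
    ext i j
    simp only [Matrix.map_apply, Matrix.smul_apply, smul_eq_mul, map_mul]
    rw [← IsScalarTower.algebraMap_apply K₀ K L]
  have hiso1 := hdec g' c ν hc0 hν hst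
  have hsc : ∀ x : L, x ≠ 0 → IsUnit (x • (1 : Matrix (Fin n) (Fin n) L)).det := by
    intro x hx
    rw [Matrix.det_smul, Matrix.det_one, mul_one]
    exact (IsUnit.mk0 x hx).pow _
  have hz : ZZ I g' := by
    rcases hiso L _ hiso1 with h | h
    · have h2 := hmul L _ _ (hsc ν hν0) (hsunit _ hiso1) (hall ν) h
      rw [Matrix.smul_mul, Matrix.one_mul, smul_smul, mul_inv_cancel₀ hν0, one_smul] at h2
      exact h2
    · have h2 := hmul L _ _ (hsc (-ν) (neg_ne_zero.mpr hν0)) (hsunit _ (hneg _ hiso1))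
        (hall (-ν)) h
      rw [Matrix.smul_mul, Matrix.one_mul, smul_neg, neg_smul, neg_neg, smul_smul,
        mul_inv_cancel₀ hν0, one_smul] at h2
      exact h2
  intro f hf
  have h1 := ev_map (K₀ := K₀) (algebraMap K L)
    (fun a => (IsScalarTower.algebraMap_apply K₀ K L a).symm) g f
  rw [← hg', hz f hf] at h1
  exact (map_eq_zero (algebraMap K L)).mp h1

end MT
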