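import Mathlib
import Pool.Agent.Helper8.MT.SIM

/-!
# Tensors fixed by a group and by its Zariski closure

A tensor `t` with `a` upper and `b` lower indices is a matrix `t : (Fin a → Fin n) × (Fin b → Fin n)`;
`g` acts by `tp a g * t * tp b g⁻¹`.
-/

set_option autoImplicit false

open Matrix MvPolynomial

namespace MT

/-- the tensor power of a matrix -/
def tp {R : Type*} [CommRing R] {n : ℕ} (a : ℕ) (g : Matrix (Fin n) (Fin n) R) :
    Matrix (Fin a → Fin n) (Fin a → Fin n) R :=
  fun i i' => ∏ k, g (i k) (i' k)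

variable {R : Type*} [CommRing R] {n : ℕ}

theorem tp_one (a : ℕ) : tp a (1 : Matrix (Fin n) (Fin n) R) = 1 := by
  ext i i'
  unfold tp
  by_cases h : i = i'
  · subst h
    simp
  · rw [Matrix.one_apply_ne h]
    obtain ⟨k, hk⟩ := Function.ne_iff.mp h
    exact Finset.prod_eq_zero (Finset.mem_univ k) (Matrix.one_apply_ne hk)

theorem tp_mul (a : ℕ) (g h : Matrix (Fin n) (Fin n) R) : tp a (g * h) = tp a g * tp a h := by
  ext i i'
  have h1 : tp a (g * h) i i' = ∏ k, ∑ x, g (i k) x * h x (i' k) := by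
    unfold tp
    simp only [Matrix.mul_apply]
  rw [h1, Finset.prod_univ_sum, Matrix.mul_apply]
  simp only [Fintype.piFinset_univ, Finset.prod_mul_distrib, tp]

theorem tp_inv_mul {K : Type*} [Field K] (a : ℕ) (g : Matrix (Fin n) (Fin n) K)
    (hg : IsUnit g.det) : tp a g⁻¹ * tp a g = 1 := by
  rw [← tp_mul, Matrix.nonsing_inv_mul _ hg, tp_one]

theorem tp_mul_inv {K : Type*} [Field K] (a : ℕ) (g : Matrix (Fin n) (Fin n) K)
    (hg : IsUnit g.det) : tp a g * tp a g⁻¹ = 1 := by
  rw [← tp_mul, Matrix.mul_nonsing_inv _ hg, tp_one]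

/-- `g` fixes `t` iff `g` intertwines -/
theorem fix_iff {K : Type*} [Field K] {a b : ℕ} (g : Matrix (Fin n) (Fin n) K)
    (hg : IsUnit g.det) (t : Matrix (Fin a → Fin n) (Fin b → Fin n) K) :
    tp a g * t * tp b g⁻¹ = t ↔ tp a g * t = t * tp b g := by
  constructor
  · intro h
    have h1 : tp a g * t * tp b g⁻¹ * tp b g = t * tp b g := by rw [h]
    rw [Matrix.mul_assoc, tp_inv_mul b g hg, Matrix.mul_one] at h1
    exact h1
  · intro h
    rw [h, Matrix.mul_assoc, tp_mul_inv b g hg, Matrix.mul_one]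

theorem tp_map {R' : Type*} [CommRing R'] (φ : R →+* R') (a : ℕ)
    (g : Matrix (Fin n) (Fin n) R) : (tp a g).map φ = tp a (g.map φ) := by
  ext i i'
  simp only [tp, Matrix.map_apply, map_prod]

/-- the polynomial equations of the fixer of `t` -/
noncomputable def tenEq {K₀ : Type} [Field K₀] {a b : ℕ}
    (t : Matrix (Fin a → Fin n) (Fin b → Fin n) K₀) (i : Fin a → Fin n) (j : Fin b → Fin n) :
    MvPolynomial (Fin n × Fin n) K₀ :=
  (∑ i' : Fin a → Fin n, (∏ k, X (i k, i' k)) * C (t i' j)) -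
    ∑ j' : Fin b → Fin n, C (t i j') * ∏ k, X (j' k, j k)

theorem ev_tenEq {K₀ : Type} [Field K₀] {R : Type} [CommRing R] [Algebra K₀ R] {a b : ℕ}
    (t : Matrix (Fin a → Fin n) (Fin b → Fin n) K₀) (i : Fin a → Fin n) (j : Fin b → Fin n)
    (g : Matrix (Fin n) (Fin n) R) :
    ev g (tenEq t i j) = (tp a g * t.map (algebraMap K₀ R) - t.map (algebraMap K₀ R) * tp b g) i j := by
  unfold tenEq
  rw [map_sub, map_sum, map_sum, Matrix.sub_apply, Matrix.mul_apply, Matrix.mul_apply]
  congr 1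
  · refine Finset.sum_congr rfl fun i' _ => ?_
    rw [map_mul, map_prod, ev_C]
    simp only [ev_X, tp, Matrix.map_apply]
  · refine Finset.sum_congr rfl fun j' _ => ?_
    rw [map_mul, map_prod, ev_C]
    simp only [ev_X, tp, Matrix.map_apply]

/-- The zeros of all polynomials vanishing on a set `G` of matrices intertwine every tensor which is
intertwined by the elements of `G`. -/
theorem ten_closure {K₀ : Type} [Field K₀] {a b : ℕ} (G : Set (Matrix (Fin n) (Fin n) K₀))
    (t : Matrix (Fin a → Fin n) (Fin b → Fin n) K₀)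
    (ht : ∀ g ∈ G, tp a g * t = t * tp b g) {R : Type} [CommRing R] [Algebra K₀ R]
    (x : Matrix (Fin n) (Fin n) R)
    (hx : ∀ f : MvPolynomial (Fin n × Fin n) K₀, (∀ g ∈ G, ev g f = 0) → ev x f = 0) :
    tp a x * t.map (algebraMap K₀ R) = t.map (algebraMap K₀ R) * tp b x := by
  ext i j
  have h1 := hx (tenEq t i j) (fun g hg => by
    rw [ev_tenEq]
    have h2 : t.map (algebraMap K₀ K₀) = t := by ext i j; simp
    rw [h2, ht g hg, sub_self, Matrix.zero_apply])
  rw [ev_tenEq, Matrix.sub_apply] at h1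
  exact sub_eq_zero.mp h1

/-- the polarisation tensor `psi⁻¹ ⊗ psi` -/
def polT {R : Type*} [CommRing R] (psi' psi : Matrix (Fin n) (Fin n) R) :
    Matrix (Fin 2 → Fin n) (Fin 2 → Fin n) R :=
  fun i j => psi' (i 0) (i 1) * psi (j 0) (j 1)

theorem tp_two_polT (psi' psi g : Matrix (Fin n) (Fin n) R) (i j : Fin 2 → Fin n) :
    (tp 2 g * polT psi' psi) i j = (g * psi' * g.transpose) (i 0) (i 1) * psi (j 0) (j 1) := by
  rw [Matrix.mul_apply, ← Equiv.sum_comp (finTwoArrowEquiv (Fin n)).symm,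
    Fintype.sum_prod_type, Matrix.mul_apply, Finset.sum_mul, Finset.sum_comm]
  refine Finset.sum_congr rfl fun y _ => ?_
  rw [Matrix.mul_apply, Finset.sum_mul, Finset.sum_mul]
  refine Finset.sum_congr rfl fun x _ => ?_
  simp only [tp, polT, Fin.prod_univ_two, finTwoArrowEquiv_symm_apply, Matrix.cons_val_zero,
    Matrix.cons_val_one, Matrix.transpose_apply]
  ring

theorem polT_tp_two (psi' psi g : Matrix (Fin n) (Fin n) R) (i j : Fin 2 → Fin n) :
    (polT psi' psi * tp 2 g) i j = psi' (i 0) (i 1) * (g.transpose * psi * g) (j 0) (j 1) := by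
  rw [Matrix.mul_apply, ← Equiv.sum_comp (finTwoArrowEquiv (Fin n)).symm,
    Fintype.sum_prod_type, Matrix.mul_apply, Finset.mul_sum, Finset.sum_comm]
  refine Finset.sum_congr rfl fun y _ => ?_
  rw [Matrix.mul_apply, Finset.sum_mul, Finset.mul_sum]
  refine Finset.sum_congr rfl fun x _ => ?_
  simp only [tp, polT, Fin.prod_univ_two, finTwoArrowEquiv_symm_apply, Matrix.cons_val_zero,
    Matrix.cons_val_one, Matrix.transpose_apply]
  ring

/-- the fixer of the polarisation tensor is the group of similitudes -/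
theorem polT_iff {K : Type*} [Field K] (psi g : Matrix (Fin n) (Fin n) K) (hpsi : IsUnit psi.det)
    (hg : IsUnit g.det) (hn : 0 < n) :
    tp 2 g * polT psi⁻¹ psi = polT psi⁻¹ psi * tp 2 g ↔
      ∃ c : K, c ≠ 0 ∧ g.transpose * psi * g = c • psi := by
  have hgt : IsUnit g.transpose.det := by rw [Matrix.det_transpose]; exact hg
  constructor
  · intro h
    -- a nonzero entry of psi⁻¹
    have hne : ∃ i j, psi⁻¹ i j ≠ 0 := by
      by_contra hcon
      push Not at hcon
      have h0 : psi⁻¹ = 0 := by ext i j; exact hcon i j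
      have h1 := Matrix.mul_nonsing_inv psi hpsi
      rw [h0, Matrix.mul_zero] at h1
      have h2 := congrFun (congrFun h1 ⟨0, hn⟩) ⟨0, hn⟩
      simp at h2
    obtain ⟨i0, i1, hi⟩ := hne
    have key : ∀ j0 j1, (g * psi⁻¹ * g.transpose) i0 i1 * psi j0 j1 =
        psi⁻¹ i0 i1 * (g.transpose * psi * g) j0 j1 := by
      intro j0 j1
      have h1 := congrFun (congrFun h ![i0, i1]) ![j0, j1]
      rw [tp_two_polT, polT_tp_two] at h1
      simpa using h1
    set c : K := (g * psi⁻¹ * g.transpose) i0 i1 / psi⁻¹ i0 i1 with hc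
    have hgc : g.transpose * psi * g = c • psi := by
      ext j0 j1
      rw [Matrix.smul_apply, smul_eq_mul, hc, div_mul_eq_mul_div, key j0 j1,
        mul_div_cancel_left₀ _ hi]
    refine ⟨c, ?_, hgc⟩
    rintro h0
    rw [h0, zero_smul] at hgc
    have h1 := congrArg Matrix.det hgc
    have : Nonempty (Fin n) := ⟨⟨0, hn⟩⟩
    rw [Matrix.det_mul, Matrix.det_mul, Matrix.det_transpose, Matrix.det_zero] at h1
    exact (hg.mul hpsi |>.mul hg).ne_zero h1
  · rintro ⟨c, hc, h⟩
    have h1 : g * psi⁻¹ * g.transpose = c • psi⁻¹ := by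
      have h2 : psi⁻¹ * (g.transpose * psi * g) = c • 1 := by
        rw [h, Matrix.mul_smul, Matrix.nonsing_inv_mul psi hpsi]
      have h3 : (psi⁻¹ * g.transpose * psi) * g = c • 1 := by
        rw [← h2]; simp only [Matrix.mul_assoc]
      have h4 : psi⁻¹ * g.transpose * psi = c • g⁻¹ := by
        have h5 : (psi⁻¹ * g.transpose * psi) * g * g⁻¹ = (c • (1 : Matrix _ _ K)) * g⁻¹ := by
          rw [h3]
        rwa [Matrix.mul_assoc, Matrix.mul_nonsing_inv _ hg, Matrix.mul_one, Matrix.smul_mul,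
          Matrix.one_mul] at h5
      have h6 : psi⁻¹ * g.transpose = c • (g⁻¹ * psi⁻¹) := by
        have h7 : psi⁻¹ * g.transpose * psi * psi⁻¹ = c • g⁻¹ * psi⁻¹ := by rw [h4]
        rwa [Matrix.mul_assoc, Matrix.mul_nonsing_inv _ hpsi, Matrix.mul_one,
          Matrix.smul_mul] at h7
      rw [Matrix.mul_assoc, h6, Matrix.mul_smul, ← Matrix.mul_assoc, Matrix.mul_nonsing_inv _ hg,
        Matrix.one_mul]
    ext i j
    rw [tp_two_polT, polT_tp_two, h1, h, Matrix.smul_apply, Matrix.smul_apply, smul_eq_mul,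
      smul_eq_mul]
    ring

end MT
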