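import Pool.Agent.Helper40.MT.Stmts
import Pool.Agent.Helper3.MT.ZARS
import Pool.Agent.Helper84.MT.StI
import Pool.Agent.Helper8.MT.TEN
import Pool.Agent.Helper8.MT.SIM

/-!
# The modules TEN and SIM in the form of the statements file
-/

set_option autoImplicit false

open Matrix

namespace MT

lemma act_eq {n a b : ℕ} {R : Type} [CommRing R] (g : Matrix.GeneralLinearGroup (Fin n) R)
    (t : Tensor n a b R) : act g t = (tp a (g : Matrix (Fin n) (Fin n) R) *
      (Matrix.of t : Matrix (Fin a → Fin n) (Fin b → Fin n) R) *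
        tp b ((g⁻¹ : Matrix.GeneralLinearGroup (Fin n) R) : Matrix (Fin n) (Fin n) R) :
        Matrix (Fin a → Fin n) (Fin b → Fin n) R) := by
  funext i j
  unfold act
  rw [Matrix.mul_apply, Finset.sum_comm]
  refine Finset.sum_congr rfl fun j' _ => ?_
  rw [Matrix.mul_apply, Finset.sum_mul]
  refine Finset.sum_congr rfl fun i' _ => ?_
  simp only [tp, of_apply]
  ring

lemma act_fix_iff {n a b : ℕ} {K : Type} [Field K] (g : Matrix.GeneralLinearGroup (Fin n) K)
    (t : Tensor n a b K) : act g t = t ↔ tp a (g : Matrix (Fin n) (Fin n) K) * Matrix.of t =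
      Matrix.of t * tp b (g : Matrix (Fin n) (Fin n) K) := by
  rw [act_eq, ← fix_iff (g : Matrix (Fin n) (Fin n) K)
    ((Matrix.isUnit_iff_isUnit_det _).mp g.isUnit) (Matrix.of t), Matrix.coe_units_inv]
  rfl

theorem st_TEN : ST_TEN := by
  constructor
  · intro K₀ _ _ n a b X t ht K _ _ g hg
    have : CharZero K := charZero_of_injective_algebraMap (algebraMap K₀ K).injective
    rw [act_fix_iff]
    have h1 := ten_closure (a := a) (b := b) {m : Matrix (Fin n) (Fin n) K₀ | ∃ x ∈ X,
      (x : Matrix (Fin n) (Fin n) K₀) = m} (Matrix.of (t.base K₀)) (by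
        rintro _ ⟨x, hx, rfl⟩
        exact (act_fix_iff x (t.base K₀)).mp (ht x hx)) (g : Matrix (Fin n) (Fin n) K) (by
        intro f hf
        exact hg f fun x hx => hf _ ⟨x, hx, rfl⟩)
    have h2 : (Matrix.of (t.base K₀) : Matrix (Fin a → Fin n) (Fin b → Fin n) K₀).map
        (algebraMap K₀ K) = Matrix.of (t.base K) := by
      ext i j
      simp [Tensor.base]
    rwa [h2] at h1
  · intro K _ _ n ψ hψ g
    rcases Nat.eq_zero_or_pos n with h0 | h0
    · subst h0
      constructor
      · intro _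
        funext i
        exact (i 0).elim0
      · intro _
        exact ⟨1, Subsingleton.elim _ _⟩
    have hu : IsUnit ψ.det := isUnit_iff_ne_zero.mpr hψ
    have hb : bas K ψ = ψ.map (algebraMap ℚ K) := by
      ext i j
      simp [bas]
    have hbu : IsUnit (bas K ψ).det := by
      have h1 : (bas K ψ).det = algebraMap ℚ K ψ.det := by
        rw [hb]
        exact (RingHom.map_det (algebraMap ℚ K) ψ).symm
      rw [h1]
      exact hu.map _
    have hbi : (bas K ψ)⁻¹ = ψ⁻¹.map (algebraMap ℚ K) := by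
      apply Matrix.inv_eq_left_inv
      rw [hb, ← Matrix.map_mul, Matrix.nonsing_inv_mul ψ hu]
      ext i j
      simp [Matrix.one_apply, apply_ite]
    have hpol : (Matrix.of ((polTen ψ).base K) : Matrix (Fin 2 → Fin n) (Fin 2 → Fin n) K) =
        polT (bas K ψ)⁻¹ (bas K ψ) := by
      rw [hbi, hb]
      ext i j
      simp [polTen, polT, Tensor.base]
    rw [act_fix_iff, hpol, polT_iff (bas K ψ) (g : Matrix (Fin n) (Fin n) K) hbu
      ((Matrix.isUnit_iff_isUnit_det _).mp g.isUnit) h0]
    constructor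
    · rintro ⟨c, hc⟩
      refine ⟨c, ?_, hc⟩
      rintro rfl
      rw [zero_smul] at hc
      have h1 := congrArg Matrix.det hc
      have hgd : (g : Matrix (Fin n) (Fin n) K).det ≠ 0 :=
        isUnit_iff_ne_zero.mp ((Matrix.isUnit_iff_isUnit_det _).mp g.isUnit)
      have : Nonempty (Fin n) := ⟨⟨0, h0⟩⟩
      rw [Matrix.det_mul, Matrix.det_mul, Matrix.det_transpose, Matrix.det_zero] at h1
      exact mul_ne_zero (mul_ne_zero hgd (isUnit_iff_ne_zero.mp hbu)) hgd h1
    · rintro ⟨c, _, hc⟩
      exact ⟨c, hc⟩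

/-- isometries without the eigenvalue `-1` have determinant one -/
lemma det_of_ne {K : Type} [Field K] {n : ℕ} {ψ s : Matrix (Fin n) (Fin n) K} (hψ : ψ.det ≠ 0)
    (hs : s.transpose * ψ * s = ψ) (h1 : (1 + s).det ≠ 0) : s.det = 1 := by
  have e1 : (1 + s).transpose * ψ * s = ψ * (1 + s) := by
    rw [Matrix.transpose_add, Matrix.transpose_one, add_mul, add_mul, hs, Matrix.one_mul, mul_add,
      Matrix.mul_one, add_comm]
  have h2 := congrArg Matrix.det e1
  rw [Matrix.det_mul, Matrix.det_mul, Matrix.det_transpose, Matrix.det_mul] at h2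
  have h3 : ((1 + s).det * ψ.det) * (s.det - 1) = 0 := by linear_combination h2
  exact sub_eq_zero.mp ((mul_eq_zero.mp h3).resolve_left (mul_ne_zero h1 hψ))

theorem st_SIM : ST_SIM := by
  classical
  intro K₀ _ _ n ψ X hψ hsym hX hinf hiso K _ _ g c hg
  have hu : IsUnit ψ := (Matrix.isUnit_iff_isUnit_det ψ).mpr (isUnit_iff_ne_zero.mpr hψ)
  set I : Set (MvPolynomial (Fin n × Fin n) K₀) :=
    {f | ∀ x ∈ X, ev (x : Matrix (Fin n) (Fin n) K₀) f = 0} with hI
  rcases Nat.eq_zero_or_pos n with h0 | h0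
  · subst h0
    have h1 : g = 1 := Subsingleton.elim _ _
    rw [h1]
    intro f hf
    have h2 := hf 1 X.one_mem
    have h3 := ev_map (K₀ := K₀) (algebraMap K₀ K) (fun a => rfl)
      (1 : Matrix (Fin 0) (Fin 0) K₀) f
    rw [Units.val_one] at h2
    rw [h2, map_zero] at h3
    rw [h3]
    have h4 : ((1 : Matrix.GeneralLinearGroup (Fin 0) K) : Matrix (Fin 0) (Fin 0) K) =
        (1 : Matrix (Fin 0) (Fin 0) K₀).map (algebraMap K₀ K) := Subsingleton.elim _ _
    rw [h4]
  have : Nonempty (Fin n) := ⟨⟨0, h0⟩⟩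
  have hψ0 : ψ ≠ 0 := by
    rintro rfl
    exact hψ (by rw [Matrix.det_zero])
  have hgd : (g : Matrix (Fin n) (Fin n) K).det ≠ 0 :=
    isUnit_iff_ne_zero.mp ((Matrix.isUnit_iff_isUnit_det _).mp g.isUnit)
  have hψK : (ψ.map (algebraMap K₀ K)).det ≠ 0 := by
    have h1 : (ψ.map (algebraMap K₀ K)).det = algebraMap K₀ K ψ.det :=
      (RingHom.map_det (algebraMap K₀ K) ψ).symm
    rw [h1]
    exact fun h => hψ ((map_eq_zero _).mp h)
  have hc0 : c ≠ 0 := by
    rintro rfl
    rw [zero_smul] at hg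
    have h1 := congrArg Matrix.det hg
    rw [Matrix.det_mul, Matrix.det_mul, Matrix.det_transpose, Matrix.det_zero] at h1
    exact mul_ne_zero (mul_ne_zero hgd hψK) hgd h1
  let μ : Matrix (Fin n) (Fin n) K₀ → K₀ := fun x =>
    if h : ∃ c : K₀, x.transpose * ψ * x = c • ψ then h.choose else 0
  have hμ : ∀ (x : Matrix (Fin n) (Fin n) K₀) (c : K₀), x.transpose * ψ * x = c • ψ →
      μ x = c := by
    intro x c hc
    have hex : ∃ c : K₀, x.transpose * ψ * x = c • ψ := ⟨c, hc⟩
    have h1 : μ x = hex.choose := dif_pos hex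
    have h2 := hex.choose_spec
    rw [← h1, hc] at h2
    have h3 : (c - μ x) • ψ = 0 := by rw [sub_smul, h2, sub_self]
    exact (sub_eq_zero.mp ((smul_eq_zero.mp h3).resolve_right hψ0)).symm
  have key := sim_all ψ I (fun L _ _ g h hgu hhu hgz hhz => by
      let g' : Matrix.GeneralLinearGroup (Fin n) L :=
        Matrix.GeneralLinearGroup.mkOfDetNeZero g (isUnit_iff_ne_zero.mp hgu)
      let h' : Matrix.GeneralLinearGroup (Fin n) L :=
        Matrix.GeneralLinearGroup.mkOfDetNeZero h (isUnit_iff_ne_zero.mp hhu)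
      have h1 : g' * h' ∈ ZC (X : Set (Matrix.GeneralLinearGroup (Fin n) K₀)) L :=
        zc_mul X g' h' (fun f hf => hgz f hf) (fun f hf => hhz f hf)
      exact fun f hf => h1 f hf)
    (fun L _ _ s hs => by
      have : CharZero L := charZero_of_injective_algebraMap (algebraMap K₀ L).injective
      have hψL : (ψ.map (algebraMap K₀ L)).det ≠ 0 := by
        have h1 : (ψ.map (algebraMap K₀ L)).det = algebraMap K₀ L ψ.det :=
          (RingHom.map_det (algebraMap K₀ L) ψ).symm
        rw [h1]
        exact fun h => hψ ((map_eq_zero _).mp h)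
      have hone : ∀ s : Matrix (Fin n) (Fin n) L, s.transpose * ψ.map (algebraMap K₀ L) * s =
          ψ.map (algebraMap K₀ L) → s.det = 1 → ZZ I s := by
        intro s hs hd
        have h1 := hiso L (Matrix.GeneralLinearGroup.mkOfDetNeZero s
          (by rw [hd]; exact one_ne_zero)) hs hd
        exact fun f hf => h1 f hf
      rcases hsym with hsym | ⟨hsym, hodd⟩
      · left
        refine hone s hs ?_
        obtain ⟨p, r, hp, hr, hp1, hr1, hpr⟩ := symplectic_factor (ψ.map (algebraMap K₀ L))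
          (isUnit_iff_ne_zero.mpr hψL) (by
            rw [← Matrix.transpose_map, hsym]
            ext i j
            simp) s hs
        rw [← hpr, Matrix.det_mul, det_of_ne hψL hp hp1, det_of_ne hψL hr hr1, one_mul]
      · have h1 := congrArg Matrix.det hs
        rw [Matrix.det_mul, Matrix.det_mul, Matrix.det_transpose] at h1
        have h2 : (s.det ^ 2 - 1) * (ψ.map (algebraMap K₀ L)).det = 0 := by
          linear_combination h1
        have h3 : s.det ^ 2 = 1 :=
          sub_eq_zero.mp ((mul_eq_zero.mp h2).resolve_right hψL)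
        rcases sq_eq_one_iff.mp h3 with h4 | h4
        · exact Or.inl (hone s hs h4)
        · right
          refine hone (-s) ?_ ?_
          · rw [Matrix.transpose_neg, Matrix.neg_mul, Matrix.neg_mul, Matrix.mul_neg, neg_neg, hs]
          · rw [Matrix.det_neg, Fintype.card_fin, hodd.neg_one_pow, h4]
            ring)
    {m | ∃ x ∈ X, (x : Matrix (Fin n) (Fin n) K₀) = m} μ hu
    (by
      rintro _ ⟨x, hx, rfl⟩
      refine ⟨fun f hf => hf x hx, ?_, ?_⟩
      · obtain ⟨c, hc⟩ := hX x hx
        rw [hμ _ c hc]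
        rintro rfl
        rw [zero_smul] at hc
        have h1 := congrArg Matrix.det hc
        have hxd : (x : Matrix (Fin n) (Fin n) K₀).det ≠ 0 :=
          isUnit_iff_ne_zero.mp ((Matrix.isUnit_iff_isUnit_det _).mp x.isUnit)
        rw [Matrix.det_mul, Matrix.det_mul, Matrix.det_transpose, Matrix.det_zero] at h1
        exact mul_ne_zero (mul_ne_zero hxd hψ) hxd h1
      · obtain ⟨c, hc⟩ := hX x hx
        rw [hμ _ c hc, hc])
    (by
      refine hinf.mono ?_
      rintro c ⟨x, hx, hc⟩
      exact ⟨x, ⟨x, hx, rfl⟩, hμ _ c hc⟩)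
    K (g : Matrix (Fin n) (Fin n) K) c hc0 hg
  exact fun f hf => key f hf

end MT
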