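import Mathlib

/-!
# Lie algebras containing a regular nilpotent and generated by pseudo-reflections

Neutral linear algebra for the motivic Mumford-Tate project.
`a` is a subspace of `M_n(K)` closed under brackets, `N ∈ a` is a regular nilpotent matrix.
-/

set_option autoImplicit false

open Matrix

namespace MT.Psr

variable {K : Type*} [Field K] {n : ℕ}

/-- the bilinear form with matrix `psi` -/
def pf (psi : Matrix (Fin n) (Fin n) K) (x y : Fin n → K) : K := x ⬝ᵥ (psi *ᵥ y)

/-- `v ↦ psi(v, u) u` -/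
def XX (psi : Matrix (Fin n) (Fin n) K) (u : Fin n → K) : Matrix (Fin n) (Fin n) K :=
  vecMulVec u (psi *ᵥ u)

/-- `v ↦ psi(v, w) u + psi(v, u) w` -/
def BB (psi : Matrix (Fin n) (Fin n) K) (u w : Fin n → K) : Matrix (Fin n) (Fin n) K :=
  vecMulVec u (psi *ᵥ w) + vecMulVec w (psi *ᵥ u)

/-- `x ↦ psi(x, v) u - psi(x, u) v` -/
def WW (psi : Matrix (Fin n) (Fin n) K) (v u : Fin n → K) : Matrix (Fin n) (Fin n) K :=
  vecMulVec u (psi *ᵥ v) - vecMulVec v (psi *ᵥ u)

lemma pf_add_left (psi : Matrix (Fin n) (Fin n) K) (x y z : Fin n → K) :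
    pf psi (x + y) z = pf psi x z + pf psi y z := by
  simp [pf, add_dotProduct]

lemma pf_add_right (psi : Matrix (Fin n) (Fin n) K) (x y z : Fin n → K) :
    pf psi x (y + z) = pf psi x y + pf psi x z := by
  simp [pf, mulVec_add, dotProduct_add]

lemma pf_smul_left (psi : Matrix (Fin n) (Fin n) K) (c : K) (x y : Fin n → K) :
    pf psi (c • x) y = c * pf psi x y := by
  simp [pf, smul_dotProduct]

lemma pf_smul_right (psi : Matrix (Fin n) (Fin n) K) (c : K) (x y : Fin n → K) :
    pf psi x (c • y) = c * pf psi x y := by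
  simp [pf, mulVec_smul, dotProduct_smul]

lemma pf_transpose (psi : Matrix (Fin n) (Fin n) K) (x y : Fin n → K) :
    pf psi.transpose x y = pf psi y x := by
  unfold pf
  rw [mulVec_transpose, dotProduct_comm, dotProduct_mulVec]

lemma pf_symm {psi : Matrix (Fin n) (Fin n) K} (h : psi.transpose = psi) (x y : Fin n → K) :
    pf psi x y = pf psi y x := by
  conv_lhs => rw [← h]
  exact pf_transpose psi x y

lemma pf_neg {psi : Matrix (Fin n) (Fin n) K} (h : psi.transpose = -psi) (x y : Fin n → K) :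
    pf psi x y = - pf psi y x := by
  have h1 := pf_transpose psi x y
  rw [h] at h1
  have h2 : pf (-psi) x y = - pf psi x y := by simp [pf, neg_mulVec]
  rw [h2] at h1
  rw [← h1, neg_neg]

/-- nondegeneracy on the left -/
lemma pf_nondeg {psi : Matrix (Fin n) (Fin n) K} (h : IsUnit psi) {x : Fin n → K}
    (hx : ∀ y, pf psi x y = 0) : x = 0 := by
  have h1 : x ᵥ* psi = 0 := by
    refine funext fun i => ?_
    have := hx (Pi.single i 1)
    unfold pf at this
    rw [dotProduct_mulVec] at this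
    simpa using this
  have h2 : Function.Injective (fun v : Fin n → K => v ᵥ* psi) :=
    vecMul_injective_of_isUnit h
  exact h2 (by simp [h1])

lemma mul_vecMulVec' (A : Matrix (Fin n) (Fin n) K) (u w : Fin n → K) :
    A * vecMulVec u w = vecMulVec (A *ᵥ u) w := by
  rw [mul_vecMulVec]

lemma vecMulVec_mul' (A : Matrix (Fin n) (Fin n) K) (u w : Fin n → K) :
    vecMulVec u w * A = vecMulVec u (A.transpose *ᵥ w) := by
  rw [vecMulVec_mul, mulVec_transpose]

lemma vmv_mul_vmv (a b c d : Fin n → K) :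
    vecMulVec a b * vecMulVec c d = (b ⬝ᵥ c) • vecMulVec a d := by
  rw [vecMulVec_mul_vecMulVec]
  ext i j
  simp [vecMulVec_apply, mul_comm, mul_left_comm]

lemma pf_eq (psi : Matrix (Fin n) (Fin n) K) (x y : Fin n → K) :
    (psi *ᵥ y) ⬝ᵥ x = pf psi x y := by
  rw [dotProduct_comm]; rfl

/-! ## Regular nilpotent matrices -/

/-- a subspace stable under a matrix -/
def Stab (A : Matrix (Fin n) (Fin n) K) (U : Submodule K (Fin n → K)) : Prop :=
  ∀ x ∈ U, A *ᵥ x ∈ U

lemma ker_pow_finrank {N : Matrix (Fin n) (Fin n) K} (h1 : N ^ n = 0) (h2 : N ^ (n - 1) ≠ 0)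
    (j : ℕ) (hj : j ≤ n) :
    Module.finrank K (LinearMap.ker ((Matrix.toLin' N) ^ j)) = j := by
  have hn : 0 < n := by
    rcases Nat.eq_zero_or_pos n with h | h
    · subst h
      exact absurd (Subsingleton.elim _ _) h2
    · exact h
  set f : Module.End K (Fin n → K) := Matrix.toLin' N with hf
  have hfn : f ^ n = 0 := by
    rw [hf, ← Matrix.toLin'_pow, h1, map_zero]
  have hfn1 : f ^ (n - 1) ≠ 0 := by
    intro h
    apply h2
    rw [hf, ← Matrix.toLin'_pow] at h
    exact (Matrix.toLin' (R := K)).injective (by rw [h, map_zero])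
  have mono : ∀ i k, i ≤ k → LinearMap.ker (f ^ i) ≤ LinearMap.ker (f ^ k) := by
    intro i k hik x hx
    rw [LinearMap.mem_ker] at hx ⊢
    obtain ⟨c, rfl⟩ := Nat.exists_eq_add_of_le hik
    rw [add_comm, pow_add, Module.End.mul_apply, hx, map_zero]
  have strict : ∀ i, i < n → LinearMap.ker (f ^ i) < LinearMap.ker (f ^ (i + 1)) := by
    intro i hi
    refine lt_of_le_of_ne (mono _ _ (Nat.le_succ _)) fun h => ?_
    have h3 := Module.End.ker_pow_constant (f := f) (k := i) h
    have h4 := h3 (n - i)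
    rw [Nat.add_sub_cancel' hi.le, hfn] at h4
    apply hfn1
    rw [← LinearMap.ker_eq_top]
    apply top_le_iff.mp
    calc (⊤ : Submodule K (Fin n → K)) = LinearMap.ker (f ^ i) := by
          rw [h4]; exact LinearMap.ker_zero.symm
      _ ≤ LinearMap.ker (f ^ (n - 1)) := mono _ _ (by omega)
  have lower : ∀ i, i ≤ n → i ≤ Module.finrank K (LinearMap.ker (f ^ i)) := by
    intro i
    induction i with
    | zero => intro _; exact Nat.zero_le _
    | succ i ih =>
      intro hi
      have := Submodule.finrank_lt_finrank_of_lt (strict i (by omega))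
      have := ih (by omega)
      omega
  have upper : ∀ i, i ≤ n → Module.finrank K (LinearMap.ker (f ^ (n - i))) ≤ n - i := by
    intro i
    induction i with
    | zero =>
      intro _
      have := Submodule.finrank_le (LinearMap.ker (f ^ (n - 0)))
      simpa using this
    | succ i ih =>
      intro hi
      have h5 := Submodule.finrank_lt_finrank_of_lt (strict (n - (i + 1)) (by omega))
      have h6 : n - (i + 1) + 1 = n - i := by omega
      rw [h6] at h5
      have := ih (by omega)
      omega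
  have h7 := upper (n - j) (by omega)
  rw [show n - (n - j) = j from by omega] at h7
  exact le_antisymm h7 (lower j hj)

lemma stab_eq_ker {N : Matrix (Fin n) (Fin n) K} (h1 : N ^ n = 0) (h2 : N ^ (n - 1) ≠ 0)
    {U : Submodule K (Fin n → K)} (hU : Stab N U) :
    U = LinearMap.ker ((Matrix.toLin' N) ^ (Module.finrank K U)) := by
  set f : Module.End K (Fin n → K) := Matrix.toLin' N with hf
  have hfn : f ^ n = 0 := by
    rw [hf, ← Matrix.toLin'_pow, h1, map_zero]
  have hstab : ∀ x ∈ U, f x ∈ U := fun x hx => by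
    rw [hf, Matrix.toLin'_apply]; exact hU x hx
  have hm : Module.finrank K U ≤ n := by
    have := Submodule.finrank_le U
    simpa using this
  set g : Module.End K U := f.restrict hstab with hg
  have hgpow : ∀ k (x : U), ((g ^ k) x : Fin n → K) = (f ^ k) x := by
    intro k
    induction k with
    | zero => intro x; simp
    | succ k ih =>
      intro x
      rw [pow_succ, pow_succ, Module.End.mul_apply, Module.End.mul_apply, ih]
      rfl
  have hgn : g ^ n = 0 := by
    ext x
    rw [hgpow, hfn]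
    simp
  have h3 : LinearMap.ker (g ^ n) = LinearMap.ker (g ^ Module.finrank K U) :=
    Module.End.ker_pow_eq_ker_pow_finrank_of_le hm
  have h4 : U ≤ LinearMap.ker (f ^ Module.finrank K U) := by
    intro x hx
    rw [LinearMap.mem_ker]
    have h5 : (⟨x, hx⟩ : U) ∈ LinearMap.ker (g ^ Module.finrank K U) := by
      rw [← h3, hgn]; simp
    rw [LinearMap.mem_ker] at h5
    have h6 := hgpow (Module.finrank K U) ⟨x, hx⟩
    rw [h5] at h6
    exact h6.symm
  exact Submodule.eq_of_le_of_finrank_eq h4 (ker_pow_finrank h1 h2 _ hm).symm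

/-- the stable subspaces of a regular nilpotent matrix form a chain -/
lemma stab_chain {N : Matrix (Fin n) (Fin n) K} (h1 : N ^ n = 0) (h2 : N ^ (n - 1) ≠ 0)
    {U U' : Submodule K (Fin n → K)} (hU : Stab N U) (hU' : Stab N U')
    (h : Module.finrank K U ≤ Module.finrank K U') : U ≤ U' := by
  rw [stab_eq_ker h1 h2 hU, stab_eq_ker h1 h2 hU']
  intro x hx
  rw [LinearMap.mem_ker] at hx ⊢
  obtain ⟨c, hc⟩ := Nat.exists_eq_add_of_le h
  rw [hc, add_comm, pow_add, Module.End.mul_apply, hx, map_zero]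

/-- A space of matrices which contains a regular nilpotent matrix and is normalised by an
irreducible group acts irreducibly. -/
theorem irrl {G : Type*} [Group G] (ρ : G →* Matrix (Fin n) (Fin n) K)
    (a : Submodule K (Matrix (Fin n) (Fin n) K)) {N : Matrix (Fin n) (Fin n) K}
    (h1 : N ^ n = 0) (h2 : N ^ (n - 1) ≠ 0) (hN : N ∈ a)
    (hconj : ∀ g, ∀ A ∈ a, ρ g * A * ρ g⁻¹ ∈ a)
    (hirr : ∀ U : Submodule K (Fin n → K), (∀ g, Stab (ρ g) U) → U = ⊥ ∨ U = ⊤)
    (U : Submodule K (Fin n → K)) (hU : ∀ A ∈ a, Stab A U) : U = ⊥ ∨ U = ⊤ := by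
  classical
  by_cases hbot : U = ⊥
  · exact Or.inl hbot
  right
  let P : ℕ → Prop := fun m => ∃ U : Submodule K (Fin n → K), U ≠ ⊥ ∧ (∀ A ∈ a, Stab A U) ∧
    Module.finrank K U = m
  have hP : ∃ m, P m := ⟨_, U, hbot, hU, rfl⟩
  obtain ⟨U0, h0, h0a, h0f⟩ := Nat.find_spec hP
  have hmin : ∀ U' : Submodule K (Fin n → K), U' ≠ ⊥ → (∀ A ∈ a, Stab A U') →
      Module.finrank K U0 ≤ Module.finrank K U' := by
    intro U' hb ha
    rw [h0f]
    exact Nat.find_min' hP ⟨U', hb, ha, rfl⟩
  have hinv : ∀ g (x : Fin n → K), ρ g⁻¹ *ᵥ (ρ g *ᵥ x) = x := by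
    intro g x
    rw [mulVec_mulVec, ← map_mul, inv_mul_cancel, map_one, one_mulVec]
  have hinv' : ∀ g (x : Fin n → K), ρ g *ᵥ (ρ g⁻¹ *ᵥ x) = x := by
    intro g x
    rw [mulVec_mulVec, ← map_mul, mul_inv_cancel, map_one, one_mulVec]
  have hst : ∀ g, Stab (ρ g) U0 := by
    intro g
    let f : (Fin n → K) →ₗ[K] (Fin n → K) := Matrix.toLin' (ρ g)
    have hfapp : ∀ x, f x = ρ g *ᵥ x := fun x => Matrix.toLin'_apply _ _
    have hfinj : Function.Injective f := by
      intro x y hxy
      have h3 : ρ g⁻¹ *ᵥ (f x) = ρ g⁻¹ *ᵥ (f y) := by rw [hxy]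
      rw [hfapp, hfapp, hinv, hinv] at h3
      exact h3
    have hfr : Module.finrank K (U0.map f) = Module.finrank K U0 :=
      LinearEquiv.finrank_eq (Submodule.equivMapOfInjective f hfinj U0).symm
    have hmapa : ∀ A ∈ a, Stab A (U0.map f) := by
      rintro A hA _ ⟨x, hx, rfl⟩
      refine ⟨(ρ g⁻¹ * A * ρ g) *ᵥ x, ?_, ?_⟩
      · have h4 := hconj g⁻¹ A hA
        rw [inv_inv] at h4
        exact h0a _ h4 x hx
      · rw [hfapp, hfapp, ← mulVec_mulVec, ← mulVec_mulVec, hinv']
    have hle : U0.map f ≤ U0 :=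
      stab_chain h1 h2 (hmapa N hN) (h0a N hN) hfr.le
    intro x hx
    rw [← hfapp]
    exact hle ⟨x, hx, rfl⟩
  rcases hirr U0 hst with h | h
  · exact absurd h h0
  · have h5 := hmin U hbot hU
    rw [h] at h5
    apply top_le_iff.mp
    rw [← h]
    exact stab_chain h1 h2 (h0a N hN) (hU N hN) (by rw [h]; exact h5)

/-! ## Transvections -/

lemma bracket_XX {psi : Matrix (Fin n) (Fin n) K} (h : psi.transpose = -psi) (u w : Fin n → K) :
    XX psi u * XX psi w - XX psi w * XX psi u = pf psi w u • BB psi u w := by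
  unfold XX BB
  rw [vmv_mul_vmv, vmv_mul_vmv, pf_eq, pf_eq, pf_neg h u w]
  ext i j
  simp only [Matrix.sub_apply, Matrix.smul_apply, Matrix.add_apply, vecMulVec_apply, smul_eq_mul]
  ring

lemma XX_add {psi : Matrix (Fin n) (Fin n) K} (c : K) (u w : Fin n → K) :
    XX psi (u + c • w) = XX psi u + c • BB psi u w + c ^ 2 • XX psi w := by
  unfold XX BB
  ext i j
  simp only [Matrix.smul_apply, Matrix.add_apply, vecMulVec_apply, smul_eq_mul, mulVec_add, mulVec_smul,
    Pi.add_apply, Pi.smul_apply]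
  ring

lemma BB_add_left {psi : Matrix (Fin n) (Fin n) K} (u v w : Fin n → K) :
    BB psi (u + v) w = BB psi u w + BB psi v w := by
  unfold BB
  ext i j
  simp only [Matrix.add_apply, vecMulVec_apply, mulVec_add, Pi.add_apply]
  ring

lemma BB_comm {psi : Matrix (Fin n) (Fin n) K} (u w : Fin n → K) :
    BB psi u w = BB psi w u := by
  unfold BB
  rw [add_comm]

lemma BB_smul_left {psi : Matrix (Fin n) (Fin n) K} (c : K) (u w : Fin n → K) :
    BB psi (c • u) w = c • BB psi u w := by
  unfold BB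
  ext i j
  simp only [Matrix.add_apply, Matrix.smul_apply, vecMulVec_apply, mulVec_smul, Pi.smul_apply, smul_eq_mul]
  ring

lemma bracket_XX_of {psi A : Matrix (Fin n) (Fin n) K} (hA : A.transpose * psi + psi * A = 0)
    (u : Fin n → K) : A * XX psi u - XX psi u * A = BB psi u (A *ᵥ u) := by
  unfold XX BB
  rw [mul_vecMulVec', vecMulVec_mul']
  have h1 : A.transpose *ᵥ (psi *ᵥ u) = - (psi *ᵥ (A *ᵥ u)) := by
    rw [mulVec_mulVec, mulVec_mulVec, eq_neg_of_add_eq_zero_left hA, neg_mulVec]
  rw [h1]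
  ext i j
  simp only [Matrix.add_apply, Matrix.sub_apply, vecMulVec_apply, Pi.neg_apply]
  ring

lemma bracket_XX_BB {psi : Matrix (Fin n) (Fin n) K} (h : psi.transpose = -psi)
    (v u w : Fin n → K) (hvu : pf psi v u = 0) :
    XX psi v * BB psi u w - BB psi u w * XX psi v = pf psi w v • BB psi v u := by
  unfold XX BB
  rw [mul_add, add_mul, vmv_mul_vmv, vmv_mul_vmv, vmv_mul_vmv, vmv_mul_vmv, pf_eq, pf_eq, pf_eq,
    pf_eq, pf_neg h v w, hvu, pf_neg h u v, hvu]
  ext i j
  simp only [Matrix.sub_apply, Matrix.smul_apply, Matrix.add_apply, vecMulVec_apply, smul_eq_mul]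
  ring

lemma pf_sp {psi A : Matrix (Fin n) (Fin n) K} (hA : A.transpose * psi + psi * A = 0)
    (x y : Fin n → K) : pf psi (A *ᵥ x) y = - pf psi x (A *ᵥ y) := by
  unfold pf
  have h1 : (A *ᵥ x) ⬝ᵥ (psi *ᵥ y) = x ⬝ᵥ (A.transpose *ᵥ (psi *ᵥ y)) := by
    rw [mulVec_transpose, dotProduct_comm, dotProduct_mulVec, dotProduct_comm]
  rw [h1, mulVec_mulVec, mulVec_mulVec, eq_neg_of_add_eq_zero_left hA, neg_mulVec,
    dotProduct_neg]

lemma span_pf {psi : Matrix (Fin n) (Fin n) K} {R : Set (Fin n → K)}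
    (hspan : Submodule.span K R = ⊤) {x : Fin n → K} (hx : ∀ y ∈ R, pf psi x y = 0) :
    ∀ y, pf psi x y = 0 := by
  intro y
  have hy : y ∈ Submodule.span K R := by rw [hspan]; trivial
  induction hy using Submodule.span_induction with
  | mem y hy => exact hx y hy
  | zero => simp [pf]
  | add y z _ _ h1 h2 => rw [pf_add_right, h1, h2, add_zero]
  | smul c y _ h1 => rw [pf_smul_right, h1, mul_zero]

lemma exists_pf_ne {psi : Matrix (Fin n) (Fin n) K} (hu : IsUnit psi) {R : Set (Fin n → K)}
    (hspan : Submodule.span K R = ⊤) {x : Fin n → K} (hx : x ≠ 0) : ∃ y ∈ R, pf psi x y ≠ 0 := by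
  by_contra h
  push Not at h
  exact hx (pf_nondeg hu (span_pf hspan h))

/-- symmetric matrices are combinations of the `BB` -/
lemma sp_mem {psi : Matrix (Fin n) (Fin n) K} [CharZero K] (hpsi : psi.transpose = -psi)
    (hu : IsUnit psi) (a : Submodule K (Matrix (Fin n) (Fin n) K))
    (hB : ∀ u w, BB psi u w ∈ a) (A : Matrix (Fin n) (Fin n) K)
    (hA : A.transpose * psi + psi * A = 0) : A ∈ a := by
  have hdet : IsUnit psi.det := (Matrix.isUnit_iff_isUnit_det psi).mp hu
  set M : Matrix (Fin n) (Fin n) K := A * psi⁻¹ with hM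
  have hMA : M * psi = A := by
    rw [hM, Matrix.mul_assoc, Matrix.nonsing_inv_mul psi hdet, Matrix.mul_one]
  have hMs : M.transpose = M := by
    have h1 : A.transpose * psi = -(psi * A) := eq_neg_of_add_eq_zero_left hA
    have h2 : A.transpose = -(psi * A) * psi⁻¹ := by
      rw [← h1, Matrix.mul_assoc, Matrix.mul_nonsing_inv psi hdet, Matrix.mul_one]
    have h3 : (psi⁻¹).transpose = -psi⁻¹ := by
      rw [Matrix.transpose_nonsing_inv, hpsi]
      refine Matrix.inv_eq_left_inv ?_
      rw [neg_mul_neg, Matrix.nonsing_inv_mul psi hdet]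
    rw [hM, Matrix.transpose_mul, h3, h2, neg_mul, neg_mul, mul_neg, neg_neg,
      Matrix.mul_assoc psi A, ← Matrix.mul_assoc psi⁻¹, Matrix.nonsing_inv_mul psi hdet,
      Matrix.one_mul]
  have key : A = ∑ i, ∑ j, (-(M i j / 2)) • BB psi (Pi.single i 1) (Pi.single j 1) := by
    have h4 : ∀ i j : Fin n, BB psi (Pi.single i 1) (Pi.single j 1) =
        -((Matrix.single i j 1 + Matrix.single j i 1) * psi) := by
      intro i j
      unfold BB
      have h5 : ∀ i j : Fin n, vecMulVec (Pi.single i (1:K)) (psi *ᵥ (Pi.single j (1:K))) =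
          -(Matrix.single i j (1:K) * psi) := by
        intro i j
        have h6 : psi *ᵥ (Pi.single j (1:K)) = - (psi.transpose *ᵥ (Pi.single j (1:K))) := by
          rw [hpsi, neg_mulVec, neg_neg]
        rw [h6, mulVec_transpose]
        ext k l
        by_cases hk : k = i
        · subst hk
          simp [vecMulVec_apply]
        · simp [vecMulVec_apply, hk, Matrix.single_mul_apply_of_ne]
      rw [h5, h5, add_mul]
      abel
    simp only [h4]
    have h7 : ∀ i j : Fin n, (-(M i j / 2)) • -((Matrix.single i j (1:K) + Matrix.single j i 1) * psi)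
        = ((M i j / 2) • (Matrix.single i j (1:K) + Matrix.single j i 1)) * psi := by
      intro i j
      rw [neg_smul, smul_neg, neg_neg, Matrix.smul_mul]
    simp only [h7]
    rw [← hMA]
    simp only [← Finset.sum_mul]
    congr 1
    have h8 : ∀ i j : Fin n, (M i j / 2) • (Matrix.single i j (1:K) + Matrix.single j i 1) =
        Matrix.single i j (M i j / 2) + Matrix.single j i (M i j / 2) := by
      intro i j
      rw [smul_add, Matrix.smul_single, Matrix.smul_single, smul_eq_mul, mul_one]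
    simp only [h8, Finset.sum_add_distrib]
    have h9 : ∑ i, ∑ j, Matrix.single j i (M i j / 2) = ∑ i, ∑ j, Matrix.single i j (M i j / 2) := by
      rw [Finset.sum_comm]
      refine Finset.sum_congr rfl fun i _ => Finset.sum_congr rfl fun j _ => ?_
      have : M j i = M i j := by
        have := congrFun (congrFun hMs i) j
        rw [Matrix.transpose_apply] at this
        exact this
      rw [this]
    rw [h9]
    ext k l
    rw [Matrix.add_apply]
    have h10 : (∑ i, ∑ j, Matrix.single i j (M i j / 2)) k l = M k l / 2 := by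
      rw [Matrix.sum_apply, Finset.sum_eq_single k, Matrix.sum_apply, Finset.sum_eq_single l]
      · simp
      · intro j _ hj
        simp [hj]
      · intro h; exact absurd (Finset.mem_univ _) h
      · intro i _ hi
        rw [Matrix.sum_apply]
        exact Finset.sum_eq_zero fun j _ => by simp [hi]
      · intro h; exact absurd (Finset.mem_univ _) h
    rw [h10]
    ring
  rw [key]
  exact Submodule.sum_mem _ fun i _ => Submodule.sum_mem _ fun j _ => a.smul_mem _ (hB _ _)

lemma self_zero [CharZero K] {psi : Matrix (Fin n) (Fin n) K} (hpsi : psi.transpose = -psi)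
    (x : Fin n → K) : pf psi x x = 0 := by
  have h3 := pf_neg hpsi x x
  have h4 : (2 : K) * pf psi x x = 0 := by linear_combination h3
  rcases mul_eq_zero.mp h4 with h | h
  · exact absurd h two_ne_zero
  · exact h

/-- two nonzero elements of `R` are at distance at most two -/
lemma dist_two {psi N : Matrix (Fin n) (Fin n) K} (hpsi : psi.transpose = -psi)
    (hu : IsUnit psi) (a : Submodule K (Matrix (Fin n) (Fin n) K))
    (hbr : ∀ A ∈ a, ∀ B ∈ a, A * B - B * A ∈ a)
    (hN : N ∈ a) (hNpsi : N.transpose * psi + psi * N = 0) (h1 : N ^ n = 0)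
    (h2 : N ^ (n - 1) ≠ 0) {R : Set (Fin n → K)} (hR : R = {u | XX psi u ∈ a})
    (hspan : Submodule.span K R = ⊤)
    (hB1 : ∀ u ∈ R, ∀ w ∈ R, pf psi u w ≠ 0 → BB psi u w ∈ a)
    (hB2 : ∀ u ∈ R, ∀ w ∈ R, BB psi u w ∈ a → u + w ∈ R)
    (u0 : Fin n → K) (hu0R : u0 ∈ R) (hu0 : u0 ≠ 0) (v : Fin n → K) (hv : v ∈ R) (hv0 : v ≠ 0) :
    pf psi u0 v ≠ 0 ∨ ∃ w ∈ R, pf psi u0 w ≠ 0 ∧ pf psi w v ≠ 0 := by
  classical
  set S : Set (Fin n → K) := {x | x ∈ R ∧ (pf psi u0 x ≠ 0 ∨
    ∃ w ∈ R, pf psi u0 w ≠ 0 ∧ pf psi w x ≠ 0)} with hS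
  have hSedge : ∀ x ∈ S, ∀ y ∈ R, pf psi x y ≠ 0 → y ∈ S := by
    rintro x ⟨hxR, hx⟩ y hy hxy
    refine ⟨hy, ?_⟩
    by_cases hux : pf psi u0 x ≠ 0
    · exact Or.inr ⟨x, hxR, hux, hxy⟩
    rcases hx with hx | ⟨w, hw, huw, hwx⟩
    · exact absurd hx hux
    by_cases hwy : pf psi w y ≠ 0
    · exact Or.inr ⟨w, hw, huw, hwy⟩
    push Not at hux hwy
    refine Or.inr ⟨w + x, hB2 w hw x hxR (hB1 w hw x hxR hwx), ?_, ?_⟩
    · rw [pf_add_right, hux, add_zero]; exact huw
    · rw [pf_add_left, hwy, zero_add]; exact hxy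
  have hne : ∀ x y, pf psi x y ≠ 0 → pf psi y x ≠ 0 := by
    intro x y h
    rw [pf_neg hpsi]
    exact neg_ne_zero.mpr h
  have hu0S : u0 ∈ S := by
    refine ⟨hu0R, ?_⟩
    obtain ⟨y, hy, h⟩ := exists_pf_ne hu hspan hu0
    exact Or.inr ⟨y, hy, h, hne _ _ h⟩
  -- elements in different components
  have hBsep : ∀ x ∈ S, ∀ y ∈ R, y ∉ S → y ≠ 0 → BB psi x y ∉ a := by
    intro x hx y hy hyS hy0 h
    have hxy := hB2 x hx.1 y hy h
    have hx0 : x ≠ 0 := by
      rintro rfl
      rcases hx.2 with h | ⟨w, _, _, h⟩ <;> exact h (by simp [pf])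
    obtain ⟨w, hw, hxw⟩ := exists_pf_ne hu hspan hx0
    have hwS : w ∈ S := hSedge x hx w hw hxw
    have hwy : pf psi w y = 0 := by
      by_contra h'
      exact hyS (hSedge w hwS y hy h')
    have hxyS : x + y ∈ S := by
      refine hSedge w hwS _ hxy ?_
      rw [pf_add_right, hwy, add_zero]
      exact hne _ _ hxw
    obtain ⟨w', hw', hyw⟩ := exists_pf_ne hu hspan hy0
    have hw'S : w' ∉ S := fun h' => hyS (hSedge w' h' y hy (hne _ _ hyw))
    have hxw' : pf psi x w' = 0 := by
      by_contra h'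
      exact hw'S (hSedge x hx w' hw' h')
    exact hw'S (hSedge _ hxyS w' hw' (by rw [pf_add_left, hxw', zero_add]; exact hyw))
  have hNsep : ∀ x ∈ S, ∀ y ∈ R, y ∉ S → pf psi (N *ᵥ x) y = 0 := by
    intro x hx y hy hyS
    by_contra h
    have hy0 : y ≠ 0 := by
      rintro rfl
      exact h (by simp [pf])
    have hxy : pf psi y x = 0 := by
      by_contra h'
      exact hyS (hSedge x hx y hy (hne _ _ h'))
    have hxR : XX psi x ∈ a := by have := hx.1; rw [hR] at this; exact this
    have hyR : XX psi y ∈ a := by have := hy; rw [hR] at this; exact this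
    have h3 : BB psi x (N *ᵥ x) ∈ a := by
      rw [← bracket_XX_of hNpsi]
      exact hbr _ hN _ hxR
    have h4 := hbr _ hyR _ h3
    rw [bracket_XX_BB hpsi y x (N *ᵥ x) hxy] at h4
    have h5 := a.smul_mem (pf psi (N *ᵥ x) y)⁻¹ h4
    rw [smul_smul, inv_mul_cancel₀ h, one_smul, BB_comm] at h5
    exact hBsep x hx y hy hyS hy0 h5
  set V0 : Submodule K (Fin n → K) := Submodule.span K S with hV0
  set V1 : Submodule K (Fin n → K) := Submodule.span K (R \ S) with hV1
  have horth0 : ∀ x ∈ S, ∀ y ∈ V1, pf psi x y = 0 := by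
    intro x hx y hy
    induction hy using Submodule.span_induction with
    | mem y hy =>
      by_contra h
      exact hy.2 (hSedge x hx y hy.1 h)
    | zero => simp [pf]
    | add y z _ _ h1 h2 => rw [pf_add_right, h1, h2, add_zero]
    | smul c y _ h1 => rw [pf_smul_right, h1, mul_zero]
  have horth : ∀ x ∈ V0, ∀ y ∈ V1, pf psi x y = 0 := by
    intro x hx y hy
    induction hx using Submodule.span_induction with
    | mem x hx => exact horth0 x hx y hy
    | zero => simp [pf]
    | add x z _ _ h1 h2 => rw [pf_add_left, h1, h2, add_zero]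
    | smul c x _ h1 => rw [pf_smul_left, h1, mul_zero]
  have horth' : ∀ x ∈ V1, ∀ y ∈ V0, pf psi x y = 0 := by
    intro x hx y hy
    rw [pf_neg hpsi, horth y hy x hx, neg_zero]
  have hsum : V0 ⊔ V1 = ⊤ := by
    rw [hV0, hV1, ← Submodule.span_union]
    apply top_le_iff.mp
    rw [← hspan]
    apply Submodule.span_mono
    intro x hx
    by_cases h : x ∈ S
    · exact Or.inl h
    · exact Or.inr ⟨hx, h⟩
  have hzero : ∀ z, (∀ y ∈ V0, pf psi z y = 0) → (∀ y ∈ V1, pf psi z y = 0) → z = 0 := by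
    intro z hz0 hz1
    refine pf_nondeg hu fun y => ?_
    have hy : y ∈ V0 ⊔ V1 := by rw [hsum]; trivial
    obtain ⟨y0, hy0, y1, hy1, rfl⟩ := Submodule.mem_sup.mp hy
    rw [pf_add_right, hz0 y0 hy0, hz1 y1 hy1, add_zero]
  have hNx : ∀ x ∈ S, ∀ y ∈ V1, pf psi (N *ᵥ x) y = 0 := by
    intro x hx y hy
    induction hy using Submodule.span_induction with
    | mem y hy => exact hNsep x hx y hy.1 hy.2
    | zero => simp [pf]
    | add y z _ _ h1 h2 => rw [pf_add_right, h1, h2, add_zero]
    | smul c y _ h1 => rw [pf_smul_right, h1, mul_zero]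
  have hNx' : ∀ x ∈ V0, ∀ y ∈ V1, pf psi (N *ᵥ x) y = 0 := by
    intro x hx y hy
    induction hx using Submodule.span_induction with
    | mem x hx => exact hNx x hx y hy
    | zero => simp [pf]
    | add x z _ _ h1 h2 => rw [mulVec_add, pf_add_left, h1, h2, add_zero]
    | smul c x _ h1 => rw [mulVec_smul, pf_smul_left, h1, mul_zero]
  have hst0 : Stab N V0 := by
    intro x hx
    have hy : N *ᵥ x ∈ V0 ⊔ V1 := by rw [hsum]; trivial
    obtain ⟨z0, hz0, z1, hz1, hz⟩ := Submodule.mem_sup.mp hy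
    have h3 : z1 = 0 := by
      refine hzero z1 (fun y hy => horth' z1 hz1 y hy) fun y hy => ?_
      have h4 := hNx' x hx y hy
      rw [← hz, pf_add_left, horth z0 hz0 y hy, zero_add] at h4
      exact h4
    rw [← hz, h3, add_zero]
    exact hz0
  have hst1 : Stab N V1 := by
    intro x hx
    have hy : N *ᵥ x ∈ V0 ⊔ V1 := by rw [hsum]; trivial
    obtain ⟨z0, hz0, z1, hz1, hz⟩ := Submodule.mem_sup.mp hy
    have h3 : z0 = 0 := by
      refine hzero z0 (fun y hy => ?_) (fun y hy => horth z0 hz0 y hy)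
      have h4 : pf psi (N *ᵥ x) y = 0 := by
        rw [pf_sp hNpsi, pf_neg hpsi, hNx' y hy x hx, neg_zero, neg_zero]
      rw [← hz, pf_add_left, horth' z1 hz1 y hy, add_zero] at h4
      exact h4
    rw [← hz, h3, zero_add]
    exact hz1
  have hV0ne : u0 ∈ V0 := Submodule.subset_span hu0S
  have hle : V1 ≤ V0 := by
    by_cases h : Module.finrank K V0 ≤ Module.finrank K V1
    · exfalso
      have h3 := stab_chain h1 h2 hst0 hst1 h
      exact hu0 (hzero u0 (fun y hy => horth' u0 (h3 hV0ne) y hy)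
        (fun y hy => horth u0 hV0ne y hy))
    · exact stab_chain h1 h2 hst1 hst0 (by omega)
  by_contra hcon
  have hvS : v ∉ S := fun h => hcon h.2
  have hv1 : v ∈ V1 := Submodule.subset_span ⟨hv, hvS⟩
  exact hv0 (hzero v (fun y hy => horth' v hv1 y hy) (fun y hy => horth v (hle hv1) y hy))

/-- Criterion for the symplectic Lie algebra: `a` contains a regular nilpotent matrix and
sufficiently many nilpotent matrices of rank one. -/
theorem psr_odd [CharZero K] {psi N : Matrix (Fin n) (Fin n) K} (hpsi : psi.transpose = -psi)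
    (hu : IsUnit psi) (a : Submodule K (Matrix (Fin n) (Fin n) K))
    (hbr : ∀ A ∈ a, ∀ B ∈ a, A * B - B * A ∈ a)
    (hN : N ∈ a) (hNpsi : N.transpose * psi + psi * N = 0) (h1 : N ^ n = 0)
    (h2 : N ^ (n - 1) ≠ 0) (hspan : Submodule.span K {u | XX psi u ∈ a} = ⊤)
    (A : Matrix (Fin n) (Fin n) K) (hA : A.transpose * psi + psi * A = 0) : A ∈ a := by
  classical
  set R : Set (Fin n → K) := {u | XX psi u ∈ a} with hR
  -- elements of R with nonzero pairing
  have hB1 : ∀ u ∈ R, ∀ w ∈ R, pf psi u w ≠ 0 → BB psi u w ∈ a := by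
    intro u hu' w hw h
    have h3 := hbr _ hu' _ hw
    rw [bracket_XX hpsi] at h3
    have h4 : pf psi w u ≠ 0 := by
      rw [pf_neg hpsi]
      exact neg_ne_zero.mpr h
    have h5 := a.smul_mem (pf psi w u)⁻¹ h3
    rwa [smul_smul, inv_mul_cancel₀ h4, one_smul] at h5
  have hB2 : ∀ u ∈ R, ∀ w ∈ R, BB psi u w ∈ a → u + w ∈ R := by
    intro u hu' w hw h
    have h3 : XX psi (u + w) = XX psi u + (1:K) • BB psi u w + (1:K) ^ 2 • XX psi w := by
      conv_lhs => rw [← one_smul K w]
      exact XX_add 1 u w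
    change XX psi (u + w) ∈ a
    rw [h3]
    exact a.add_mem (a.add_mem hu' (a.smul_mem _ h)) (a.smul_mem _ hw)
  have hBR : ∀ u ∈ R, ∀ w ∈ R, BB psi u w ∈ a := by
    intro u hu' w hw
    by_cases hu0 : u = 0
    · subst hu0
      have : BB psi 0 w = 0 := by simp [BB]
      rw [this]; exact a.zero_mem
    by_cases hw0 : w = 0
    · subst hw0
      have : BB psi u 0 = 0 := by simp [BB]
      rw [this]; exact a.zero_mem
    by_cases huw : pf psi u w ≠ 0
    · exact hB1 u hu' w hw huw
    rcases dist_two hpsi hu a hbr hN hNpsi h1 h2 hR hspan hB1 hB2 u hu' hu0 w hw hw0 with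
      h | ⟨v, hv, huv, hvw⟩
    · exact absurd h huw
    push Not at huw
    have h3 := hB2 u hu' v hv (hB1 u hu' v hv huv)
    have h4 := hB1 (u + v) h3 w hw (by rw [pf_add_left, huw, zero_add]; exact hvw)
    have h5 := hB1 v hv w hw hvw
    rw [BB_add_left] at h4
    have h6 := a.sub_mem h4 h5
    rwa [add_sub_cancel_right] at h6
  have hB3 : ∀ u, ∀ w ∈ R, BB psi u w ∈ a := by
    intro u w hw
    have hy : u ∈ Submodule.span K R := by rw [hspan]; trivial
    induction hy using Submodule.span_induction with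
    | mem y hy => exact hBR y hy w hw
    | zero => simp [BB]
    | add y z _ _ h1 h2 => rw [BB_add_left]; exact a.add_mem h1 h2
    | smul c y _ h1 => rw [BB_smul_left]; exact a.smul_mem _ h1
  refine sp_mem hpsi hu a ?_ A hA
  intro u w
  rw [BB_comm]
  have hy : w ∈ Submodule.span K R := by rw [hspan]; trivial
  induction hy using Submodule.span_induction with
  | mem y hy => rw [BB_comm]; exact hB3 u y hy
  | zero => simp [BB]
  | add y z _ _ h1 h2 => rw [BB_add_left]; exact a.add_mem h1 h2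
  | smul c y _ h1 => rw [BB_smul_left]; exact a.smul_mem _ h1

/-! ## Reflections -/

/-- the reflection in `v` -/
def refl (psi : Matrix (Fin n) (Fin n) K) (v : Fin n → K) : Matrix (Fin n) (Fin n) K :=
  1 - (2 / pf psi v v) • vecMulVec v (psi *ᵥ v)

lemma WW_add {psi : Matrix (Fin n) (Fin n) K} (v u w : Fin n → K) :
    WW psi v (u + w) = WW psi v u + WW psi v w := by
  unfold WW
  ext i j
  simp only [Matrix.add_apply, Matrix.sub_apply, vecMulVec_apply, mulVec_add, Pi.add_apply]
  ring

lemma WW_smul {psi : Matrix (Fin n) (Fin n) K} (c : K) (v u : Fin n → K) :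
    WW psi v (c • u) = c • WW psi v u := by
  unfold WW
  ext i j
  simp only [Matrix.sub_apply, Matrix.smul_apply, vecMulVec_apply, mulVec_smul, Pi.smul_apply,
    smul_eq_mul]
  ring

lemma WW_self {psi : Matrix (Fin n) (Fin n) K} (v : Fin n → K) : WW psi v v = 0 := by
  unfold WW; rw [sub_self]

lemma WW_swap {psi : Matrix (Fin n) (Fin n) K} (v u : Fin n → K) :
    WW psi u v = - WW psi v u := by
  unfold WW; rw [neg_sub]

lemma sub_conj {psi X : Matrix (Fin n) (Fin n) K} (hpsi : psi.transpose = psi)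
    (hX : X.transpose * psi + psi * X = 0) [CharZero K] (v : Fin n → K) :
    X - refl psi v * X * refl psi v = (2 / pf psi v v) • WW psi v (X *ᵥ v) := by
  set c : K := 2 / pf psi v v with hc
  have h1 : X.transpose *ᵥ (psi *ᵥ v) = - (psi *ᵥ (X *ᵥ v)) := by
    rw [mulVec_mulVec, mulVec_mulVec, eq_neg_of_add_eq_zero_left hX, neg_mulVec]
  have h2 : pf psi (X *ᵥ v) v = 0 := by
    have h3 := pf_sp hX v v
    rw [pf_symm hpsi v (X *ᵥ v)] at h3
    have h4 : (2 : K) * pf psi (X *ᵥ v) v = 0 := by linear_combination h3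
    rcases mul_eq_zero.mp h4 with h | h
    · exact absurd h two_ne_zero
    · exact h
  have h5 : vecMulVec v (psi *ᵥ v) * X = - vecMulVec v (psi *ᵥ (X *ᵥ v)) := by
    rw [vecMulVec_mul', h1]
    ext i j
    simp [vecMulVec_apply]
  have h6 : X * vecMulVec v (psi *ᵥ v) = vecMulVec (X *ᵥ v) (psi *ᵥ v) := mul_vecMulVec' _ _ _
  have h7 : vecMulVec v (psi *ᵥ v) * X * vecMulVec v (psi *ᵥ v) = 0 := by
    rw [Matrix.mul_assoc, h6, vmv_mul_vmv, pf_eq, h2, zero_smul]
  unfold refl WW
  rw [← hc]
  have h8 : (1 - c • vecMulVec v (psi *ᵥ v)) * X * (1 - c • vecMulVec v (psi *ᵥ v)) =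
      X - c • (vecMulVec v (psi *ᵥ v) * X) - c • (X * vecMulVec v (psi *ᵥ v)) +
        (c * c) • (vecMulVec v (psi *ᵥ v) * X * vecMulVec v (psi *ᵥ v)) := by
    simp only [sub_mul, mul_sub, one_mul, mul_one, smul_mul_assoc, mul_smul_comm,
      Matrix.mul_assoc, smul_sub, ← smul_smul]
    abel
  rw [h8, h7, h5, h6, smul_zero]
  ext i j
  simp only [Matrix.add_apply, Matrix.sub_apply, Matrix.smul_apply, Matrix.neg_apply,
    vecMulVec_apply, smul_eq_mul, Matrix.zero_apply]
  ring

lemma bracket_WW {psi X : Matrix (Fin n) (Fin n) K}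
    (hX : X.transpose * psi + psi * X = 0) (v u : Fin n → K) :
    X * WW psi v u - WW psi v u * X = WW psi (X *ᵥ v) u + WW psi v (X *ᵥ u) := by
  unfold WW
  have h1 : ∀ v, X.transpose *ᵥ (psi *ᵥ v) = - (psi *ᵥ (X *ᵥ v)) := by
    intro v
    rw [mulVec_mulVec, mulVec_mulVec, eq_neg_of_add_eq_zero_left hX, neg_mulVec]
  rw [mul_sub, sub_mul, mul_vecMulVec', mul_vecMulVec', vecMulVec_mul', vecMulVec_mul', h1, h1]
  ext i j
  simp only [Matrix.add_apply, Matrix.sub_apply, vecMulVec_apply, Pi.neg_apply]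
  ring

lemma bracket_WW_WW {psi : Matrix (Fin n) (Fin n) K} (hpsi : psi.transpose = psi)
    (v p s : Fin n → K) (hp : pf psi v p = 0) (hs : pf psi v s = 0) :
    WW psi v p * WW psi v s - WW psi v s * WW psi v p = pf psi v v • WW psi p s := by
  unfold WW
  have hp' : pf psi p v = 0 := by rw [pf_symm hpsi]; exact hp
  have hs' : pf psi s v = 0 := by rw [pf_symm hpsi]; exact hs
  simp only [mul_sub, sub_mul, vmv_mul_vmv, pf_eq, hp, hs, hp', hs', pf_symm hpsi s p]
  ext i j
  simp only [Matrix.sub_apply, Matrix.smul_apply, vecMulVec_apply, smul_eq_mul]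
  ring

lemma so_mem {psi : Matrix (Fin n) (Fin n) K} [CharZero K] (hpsi : psi.transpose = psi)
    (hu : IsUnit psi) (a : Submodule K (Matrix (Fin n) (Fin n) K))
    (hB : ∀ u w, WW psi u w ∈ a) (A : Matrix (Fin n) (Fin n) K)
    (hA : A.transpose * psi + psi * A = 0) : A ∈ a := by
  have hdet : IsUnit psi.det := (Matrix.isUnit_iff_isUnit_det psi).mp hu
  set M : Matrix (Fin n) (Fin n) K := A * psi⁻¹ with hM
  have hMA : M * psi = A := by
    rw [hM, Matrix.mul_assoc, Matrix.nonsing_inv_mul psi hdet, Matrix.mul_one]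
  have hMs : M.transpose = -M := by
    have h1 : A.transpose * psi = -(psi * A) := eq_neg_of_add_eq_zero_left hA
    have h2 : A.transpose = -(psi * A) * psi⁻¹ := by
      rw [← h1, Matrix.mul_assoc, Matrix.mul_nonsing_inv psi hdet, Matrix.mul_one]
    have h3 : (psi⁻¹).transpose = psi⁻¹ := by
      rw [Matrix.transpose_nonsing_inv, hpsi]
    rw [hM, Matrix.transpose_mul, h3, h2, neg_mul, mul_neg,
      Matrix.mul_assoc psi A, ← Matrix.mul_assoc psi⁻¹, Matrix.nonsing_inv_mul psi hdet,
      Matrix.one_mul]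
  have key : A = ∑ i, ∑ j, (M i j / 2) • WW psi (Pi.single j 1) (Pi.single i 1) := by
    have h4 : ∀ i j : Fin n, WW psi (Pi.single j 1) (Pi.single i 1) =
        (Matrix.single i j 1 - Matrix.single j i 1) * psi := by
      intro i j
      unfold WW
      have h5 : ∀ i j : Fin n, vecMulVec (Pi.single i (1:K)) (psi *ᵥ (Pi.single j (1:K))) =
          Matrix.single i j (1:K) * psi := by
        intro i j
        have h6 : psi *ᵥ (Pi.single j (1:K)) = psi.transpose *ᵥ (Pi.single j (1:K)) := by
          rw [hpsi]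
        rw [h6, mulVec_transpose]
        ext k l
        by_cases hk : k = i
        · subst hk
          simp [vecMulVec_apply]
        · simp [vecMulVec_apply, hk, Matrix.single_mul_apply_of_ne]
      rw [h5, h5, sub_mul]
    simp only [h4]
    have h7 : ∀ i j : Fin n, (M i j / 2) • ((Matrix.single i j (1:K) - Matrix.single j i 1) * psi)
        = ((M i j / 2) • (Matrix.single i j (1:K) - Matrix.single j i 1)) * psi := by
      intro i j
      rw [Matrix.smul_mul]
    simp only [h7]
    rw [← hMA]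
    simp only [← Finset.sum_mul]
    congr 1
    have h8 : ∀ i j : Fin n, (M i j / 2) • (Matrix.single i j (1:K) - Matrix.single j i 1) =
        Matrix.single i j (M i j / 2) + Matrix.single j i (-(M i j / 2)) := by
      intro i j
      rw [smul_sub, Matrix.smul_single, Matrix.smul_single, smul_eq_mul, mul_one,
        sub_eq_add_neg, Matrix.single_neg]
    simp only [h8, Finset.sum_add_distrib]
    have h9 : ∑ i, ∑ j, Matrix.single j i (-(M i j / 2)) =
        ∑ i, ∑ j, Matrix.single i j (M i j / 2) := by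
      rw [Finset.sum_comm]
      refine Finset.sum_congr rfl fun i _ => Finset.sum_congr rfl fun j _ => ?_
      have : M j i = - M i j := by
        have := congrFun (congrFun hMs i) j
        rw [Matrix.transpose_apply, Matrix.neg_apply] at this
        exact this
      rw [this]
      congr 1
      ring
    rw [h9]
    ext k l
    rw [Matrix.add_apply]
    have h10 : (∑ i, ∑ j, Matrix.single i j (M i j / 2)) k l = M k l / 2 := by
      rw [Matrix.sum_apply, Finset.sum_eq_single k, Matrix.sum_apply, Finset.sum_eq_single l]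
      · simp
      · intro j _ hj
        simp [hj]
      · intro h; exact absurd (Finset.mem_univ _) h
      · intro i _ hi
        rw [Matrix.sum_apply]
        exact Finset.sum_eq_zero fun j _ => by simp [hi]
      · intro h; exact absurd (Finset.mem_univ _) h
    rw [h10]
    ring
  rw [key]
  exact Submodule.sum_mem _ fun i _ => Submodule.sum_mem _ fun j _ => a.smul_mem _ (hB _ _)

/-- Criterion for the orthogonal Lie algebra: `a` is irreducible and normalised by a
reflection. -/
theorem psr_even [CharZero K] {psi : Matrix (Fin n) (Fin n) K} (hpsi : psi.transpose = psi)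
    (hu : IsUnit psi) (a : Submodule K (Matrix (Fin n) (Fin n) K))
    (hbr : ∀ A ∈ a, ∀ B ∈ a, A * B - B * A ∈ a)
    (hso : ∀ A ∈ a, A.transpose * psi + psi * A = 0)
    (hirr : ∀ U : Submodule K (Fin n → K), (∀ A ∈ a, Stab A U) → U = ⊥ ∨ U = ⊤)
    (v : Fin n → K) (hv : pf psi v v ≠ 0) (hr : ∀ A ∈ a, refl psi v * A * refl psi v ∈ a)
    (A : Matrix (Fin n) (Fin n) K) (hA : A.transpose * psi + psi * A = 0) : A ∈ a := by
  have hXv : ∀ X ∈ a, WW psi v (X *ᵥ v) ∈ a := by
    intro X hX
    have h1 := a.sub_mem hX (hr X hX)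
    rw [sub_conj hpsi (hso X hX) v] at h1
    have h2 : (2 / pf psi v v) ≠ 0 := div_ne_zero two_ne_zero hv
    have h3 := a.smul_mem (2 / pf psi v v)⁻¹ h1
    rwa [smul_smul, inv_mul_cancel₀ h2, one_smul] at h3
  have hort : ∀ X ∈ a, pf psi v (X *ᵥ v) = 0 := by
    intro X hX
    have h3 := pf_sp (hso X hX) v v
    rw [pf_symm hpsi (X *ᵥ v) v] at h3
    have h4 : (2 : K) * pf psi v (X *ᵥ v) = 0 := by linear_combination h3
    rcases mul_eq_zero.mp h4 with h | h
    · exact absurd h two_ne_zero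
    · exact h
  -- decomposition along v
  have hdec : ∀ u, ∃ (c : K) (u' : Fin n → K), u = c • v + u' ∧ pf psi v u' = 0 := by
    intro u
    refine ⟨pf psi v u / pf psi v v, u - (pf psi v u / pf psi v v) • v, by abel, ?_⟩
    have h1 : u - (pf psi v u / pf psi v v) • v = u + (-(pf psi v u / pf psi v v)) • v := by
      rw [neg_smul, sub_eq_add_neg]
    rw [h1, pf_add_right, pf_smul_right]
    field_simp
    ring
  have hWdec : ∀ (c : K) (u' : Fin n → K), WW psi v (c • v + u') = WW psi v u' := by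
    intro c u'
    rw [WW_add, WW_smul, WW_self, smul_zero, zero_add]
  have hcross : ∀ p s, pf psi v p = 0 → pf psi v s = 0 → WW psi v p ∈ a → WW psi v s ∈ a →
      WW psi p s ∈ a := by
    intro p s hp hs hpa hsa
    have h1 := hbr _ hpa _ hsa
    rw [bracket_WW_WW hpsi v p s hp hs] at h1
    have h3 := a.smul_mem (pf psi v v)⁻¹ h1
    rwa [smul_smul, inv_mul_cancel₀ hv, one_smul] at h3
  let W : Submodule K (Fin n → K) :=
    { carrier := {u | WW psi v u ∈ a}
      add_mem' := by
        intro x y hx hy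
        change WW psi v (x + y) ∈ a
        rw [WW_add]
        exact a.add_mem hx hy
      zero_mem' := by
        change WW psi v 0 ∈ a
        have : WW psi v 0 = 0 := by simp [WW]
        rw [this]; exact a.zero_mem
      smul_mem' := by
        intro c x hx
        change WW psi v (c • x) ∈ a
        rw [WW_smul]
        exact a.smul_mem _ hx }
  have hWst : ∀ X ∈ a, Stab X W := by
    intro X hX u hu'
    change WW psi v (X *ᵥ u) ∈ a
    have hu'' : WW psi v u ∈ a := hu'
    obtain ⟨c, u', rfl, h1⟩ := hdec u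
    rw [hWdec] at hu''
    rw [mulVec_add, mulVec_smul, WW_add, WW_smul]
    refine a.add_mem (a.smul_mem _ (hXv X hX)) ?_
    have h2 := hbr _ hX _ hu''
    rw [bracket_WW (hso X hX)] at h2
    have h3 := hcross u' (X *ᵥ v) h1 (hort X hX) hu'' (hXv X hX)
    have h4 := a.add_mem h2 h3
    rw [WW_swap (X *ᵥ v) u'] at h4
    have h5 : WW psi (X *ᵥ v) u' + WW psi v (X *ᵥ u') + -WW psi (X *ᵥ v) u' =
        WW psi v (X *ᵥ u') := by abel
    rwa [h5] at h4
  have hWtop : ∀ u, WW psi v u ∈ a := by
    rcases hirr W hWst with h | h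
    · exfalso
      have h1 : v ∈ W := by
        change WW psi v v ∈ a
        rw [WW_self]; exact a.zero_mem
      rw [h, Submodule.mem_bot] at h1
      apply hv
      rw [h1]; simp [pf]
    · intro u
      have h1 : u ∈ W := by rw [h]; trivial
      exact h1
  refine so_mem hpsi hu a ?_ A hA
  intro p s
  obtain ⟨c, p', rfl, hp⟩ := hdec p
  obtain ⟨d, s', rfl, hs⟩ := hdec s
  have h1 := hcross p' s' hp hs (hWtop p') (hWtop s')
  rw [WW_add, WW_smul, WW_swap v (c • v + p'), hWdec, WW_swap s' (c • v + p'), WW_add, WW_smul,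
    WW_swap v s', WW_swap p' s']
  refine a.add_mem (a.smul_mem _ (a.neg_mem (hWtop p'))) (a.neg_mem ?_)
  exact a.add_mem (a.smul_mem _ (a.neg_mem (hWtop s'))) (a.neg_mem h1)

end MT.Psr
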