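import Mathlib
import Pool.Agent.Helper8.MT.PSR

/-!
# Pseudo-reflections which preserve a form
-/

set_option autoImplicit false

open Matrix

namespace MT.Psr

variable {K : Type*} [Field K] {n : ℕ}

lemma psi_mulVec_ne {psi : Matrix (Fin n) (Fin n) K} (hu : IsUnit psi) {v : Fin n → K}
    (hv : v ≠ 0) : psi *ᵥ v ≠ 0 := by
  intro h
  have h1 : Function.Injective (fun v : Fin n → K => psi *ᵥ v) := mulVec_injective_of_isUnit hu
  exact hv (h1 (by simp [h]))

/-- conjugation of a transvection generator by a similitude -/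
theorem XX_conj {psi g h : Matrix (Fin n) (Fin n) K} {μ : K} (hgh : g * h = 1)
    (hg : g.transpose * psi * g = μ • psi) (hμ : μ ≠ 0) (u : Fin n → K) :
    g * XX psi u * h = μ⁻¹ • XX psi (g *ᵥ u) := by
  have h1 : h.transpose *ᵥ (psi *ᵥ u) = μ⁻¹ • (psi *ᵥ (g *ᵥ u)) := by
    have h2 : psi *ᵥ u = μ⁻¹ • (g.transpose *ᵥ (psi *ᵥ (g *ᵥ u))) := by
      rw [mulVec_mulVec, mulVec_mulVec, hg, smul_mulVec, smul_smul, inv_mul_cancel₀ hμ,
        one_smul]
    rw [h2, mulVec_smul, mulVec_mulVec, ← Matrix.transpose_mul, hgh, Matrix.transpose_one,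
      one_mulVec]
  unfold XX
  rw [mul_vecMulVec', vecMulVec_mul', h1]
  ext i j
  simp only [vecMulVec_apply, Pi.smul_apply, Matrix.smul_apply, smul_eq_mul]
  ring

/-- an isometry `t` of an alternating form with `t - 1` of rank one is a transvection -/
theorem transvection_of [CharZero K] {psi : Matrix (Fin n) (Fin n) K}
    (hpsi : psi.transpose = -psi) (hu : IsUnit psi) {v w : Fin n → K} (hv : v ≠ 0) (hw : w ≠ 0)
    (ht : (1 + vecMulVec v w).transpose * psi * (1 + vecMulVec v w) = psi) :
    ∃ c : K, c ≠ 0 ∧ 1 + vecMulVec v w = 1 + c • XX psi v := by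
  set p : Fin n → K := psi *ᵥ v with hp
  have hp0 : p ≠ 0 := psi_mulVec_ne hu hv
  have hvp : v ᵥ* psi = -p := by
    rw [← mulVec_transpose, hpsi, neg_mulVec]
  have hvv : p ⬝ᵥ v = 0 := by
    rw [hp, pf_eq]; exact self_zero hpsi v
  have h1 : vecMulVec p w - vecMulVec w p = 0 := by
    have h2 : (1 + vecMulVec v w).transpose * psi * (1 + vecMulVec v w) =
        psi + (vecMulVec p w - vecMulVec w p) := by
      have h3 : (vecMulVec v w).transpose = vecMulVec w v := by
        ext i j; simp [vecMulVec_apply, mul_comm]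
      have h4 : vecMulVec w v * psi = - vecMulVec w p := by
        rw [vecMulVec_mul, hvp]; ext i j; simp [vecMulVec_apply]
      have h5 : psi * vecMulVec v w = vecMulVec p w := mul_vecMulVec' _ _ _
      rw [Matrix.transpose_add, Matrix.transpose_one, h3, add_mul, add_mul, mul_add, mul_add,
        one_mul, mul_one, mul_one, h4, h5, neg_mul, vmv_mul_vmv, hvv, zero_smul]
      abel
    rw [h2] at ht
    exact left_eq_add.mp ht.symm
  obtain ⟨i, hi⟩ := Function.ne_iff.mp hp0
  rw [Pi.zero_apply] at hi
  have h6 : ∀ j, w j = (w i / p i) * p j := by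
    intro j
    have h7 := congrFun (congrFun h1 i) j
    rw [Matrix.sub_apply, vecMulVec_apply, vecMulVec_apply, Matrix.zero_apply] at h7
    field_simp
    linear_combination h7
  refine ⟨w i / p i, ?_, ?_⟩
  · intro h0
    apply hw
    ext j
    rw [h6 j, h0, zero_mul, Pi.zero_apply]
  · congr 1
    ext k l
    rw [Matrix.smul_apply, vecMulVec_apply, h6 l]
    unfold XX
    rw [vecMulVec_apply, ← hp, smul_eq_mul]
    ring

/-- an isometry `t` of a symmetric form with `t - 1` of rank one is a reflection -/
theorem reflection_of [CharZero K] {psi : Matrix (Fin n) (Fin n) K}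
    (hpsi : psi.transpose = psi) (hu : IsUnit psi) {v w : Fin n → K} (hv : v ≠ 0) (hw : w ≠ 0)
    (ht : (1 + vecMulVec v w).transpose * psi * (1 + vecMulVec v w) = psi) :
    pf psi v v ≠ 0 ∧ 1 + vecMulVec v w = refl psi v := by
  set p : Fin n → K := psi *ᵥ v with hp
  have hp0 : p ≠ 0 := psi_mulVec_ne hu hv
  have hvp : v ᵥ* psi = p := by
    rw [← mulVec_transpose, hpsi]
  set q : K := pf psi v v with hq
  have hvv : p ⬝ᵥ v = q := by
    rw [hp, pf_eq]
  have h1 : vecMulVec p w + vecMulVec w p + q • vecMulVec w w = 0 := by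
    have h2 : (1 + vecMulVec v w).transpose * psi * (1 + vecMulVec v w) =
        psi + (vecMulVec p w + vecMulVec w p + q • vecMulVec w w) := by
      have h3 : (vecMulVec v w).transpose = vecMulVec w v := by
        ext i j; simp [vecMulVec_apply, mul_comm]
      have h4 : vecMulVec w v * psi = vecMulVec w p := by
        rw [vecMulVec_mul, hvp]
      have h5 : psi * vecMulVec v w = vecMulVec p w := mul_vecMulVec' _ _ _
      rw [Matrix.transpose_add, Matrix.transpose_one, h3, add_mul, add_mul, mul_add, mul_add,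
        one_mul, mul_one, mul_one, h4, h5, vmv_mul_vmv, hvv]
      abel
    rw [h2] at ht
    exact left_eq_add.mp ht.symm
  set z : Fin n → K := p + (q / 2) • w with hz
  have h8 : ∀ i j, w i * z j + z i * w j = 0 := by
    intro i j
    have h7 := congrFun (congrFun h1 i) j
    simp only [Matrix.add_apply, Matrix.smul_apply, vecMulVec_apply, Matrix.zero_apply,
      smul_eq_mul] at h7
    simp only [hz, Pi.add_apply, Pi.smul_apply, smul_eq_mul]
    linear_combination h7
  obtain ⟨i, hi⟩ := Function.ne_iff.mp hw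
  rw [Pi.zero_apply] at hi
  have hzi : z i = 0 := by
    have h9 := h8 i i
    have h10 : (2 * w i) * z i = 0 := by linear_combination h9
    rcases mul_eq_zero.mp h10 with h | h
    · exact absurd h (mul_ne_zero two_ne_zero hi)
    · exact h
  have hz0 : ∀ j, z j = 0 := by
    intro j
    have h9 := h8 i j
    rw [hzi, zero_mul, add_zero] at h9
    rcases mul_eq_zero.mp h9 with h | h
    · exact absurd h hi
    · exact h
  have hpw : ∀ j, p j = -(q / 2) * w j := by
    intro j
    have := hz0 j
    simp only [hz, Pi.add_apply, Pi.smul_apply, smul_eq_mul] at this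
    linear_combination this
  have hq0 : q ≠ 0 := by
    intro h0
    apply hp0
    ext j
    rw [hpw j, h0]
    simp
  refine ⟨hq0, ?_⟩
  unfold refl
  rw [← hq, ← hp]
  ext k l
  simp only [Matrix.add_apply, Matrix.sub_apply, Matrix.smul_apply, vecMulVec_apply, smul_eq_mul,
    hpw l]
  field_simp
  ring

end MT.Psr
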