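import Mathlib

/-!
# Matrices which normalise or centralise a regular nilpotent matrix
-/

set_option autoImplicit false

open Matrix Polynomial

namespace MT.Reg

variable {K : Type*} [Field K] {n : ℕ}

lemma pow_ge {Z : Matrix (Fin n) (Fin n) K} (h1 : Z ^ n = 0) {k : ℕ} (hk : n ≤ k) : Z ^ k = 0 := by
  obtain ⟨c, rfl⟩ := Nat.exists_eq_add_of_le hk
  rw [pow_add, h1, zero_mul]

/-- there is a cyclic vector -/
lemma exists_cyc {Z : Matrix (Fin n) (Fin n) K} (h2 : Z ^ (n - 1) ≠ 0) :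
    ∃ e : Fin n → K, Z ^ (n - 1) *ᵥ e ≠ 0 := by
  by_contra h
  push Not at h
  apply h2
  ext i j
  have := congrFun (h (Pi.single j 1)) i
  rw [mulVec_single_one] at this
  simpa using this

/-- the powers of `Z` applied to a cyclic vector are linearly independent -/
lemma indep {Z : Matrix (Fin n) (Fin n) K} (h1 : Z ^ n = 0) {e : Fin n → K}
    (he : Z ^ (n - 1) *ᵥ e ≠ 0) (c : ℕ → K)
    (h : ∑ i ∈ Finset.range n, c i • (Z ^ i *ᵥ e) = 0) : ∀ i < n, c i = 0 := by
  intro j
  induction j using Nat.strong_induction_on with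
  | _ j ih =>
    intro hj
    have h3 := congrArg (fun v => Z ^ (n - 1 - j) *ᵥ v) h
    simp only [mulVec_zero] at h3
    rw [mulVec_sum, Finset.sum_eq_single_of_mem j (Finset.mem_range.mpr hj)] at h3
    · rw [mulVec_smul, mulVec_mulVec, ← pow_add, Nat.sub_add_cancel (by omega)] at h3
      exact (smul_eq_zero.mp h3).resolve_right he
    · intro i hi hij
      rw [mulVec_smul, mulVec_mulVec, ← pow_add]
      rcases lt_or_gt_of_ne hij with h4 | h4
      · rw [ih i h4 (Finset.mem_range.mp hi), zero_smul]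
      · rw [pow_ge h1 (by omega), zero_mulVec, smul_zero]

/-- the matrix of the basis `Z ^ j e` -/
def cycMat (Z : Matrix (Fin n) (Fin n) K) (e : Fin n → K) : Matrix (Fin n) (Fin n) K :=
  Matrix.of fun i j => (Z ^ (j : ℕ) *ᵥ e) i

lemma cycMat_mulVec (Z : Matrix (Fin n) (Fin n) K) (e : Fin n → K) (c : Fin n → K) :
    cycMat Z e *ᵥ c = ∑ j : Fin n, c j • (Z ^ (j : ℕ) *ᵥ e) := by
  ext i
  simp only [mulVec, dotProduct, cycMat, of_apply, Finset.sum_apply, Pi.smul_apply, smul_eq_mul]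
  exact Finset.sum_congr rfl fun j _ => mul_comm _ _

lemma isUnit_cycMat {Z : Matrix (Fin n) (Fin n) K} (h1 : Z ^ n = 0) {e : Fin n → K}
    (he : Z ^ (n - 1) *ᵥ e ≠ 0) : IsUnit (cycMat Z e) := by
  rw [← mulVec_injective_iff_isUnit]
  intro c d hcd
  have h3 : cycMat Z e *ᵥ (c - d) = 0 := by
    rw [mulVec_sub]
    exact sub_eq_zero.mpr hcd
  rw [cycMat_mulVec] at h3
  let f : ℕ → K := fun i => if h : i < n then (c - d) ⟨i, h⟩ else 0
  have h4 : ∑ i ∈ Finset.range n, f i • (Z ^ i *ᵥ e) = 0 := by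
    rw [← h3, ← Fin.sum_univ_eq_sum_range (fun i => f i • (Z ^ i *ᵥ e)) n]
    refine Finset.sum_congr rfl fun j _ => ?_
    simp only [f, j.isLt, dite_true]
  have h5 := indep h1 he f h4
  ext j
  have h6 := h5 j j.isLt
  simp only [f, j.isLt, dite_true] at h6
  exact sub_eq_zero.mp h6

/-- every vector is a combination of the `Z ^ i e` -/
lemma exists_coeff {Z : Matrix (Fin n) (Fin n) K} (h1 : Z ^ n = 0) {e : Fin n → K}
    (he : Z ^ (n - 1) *ᵥ e ≠ 0) (v : Fin n → K) :
    ∃ t : ℕ → K, v = ∑ i ∈ Finset.range n, t i • (Z ^ i *ᵥ e) := by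
  have hu := isUnit_cycMat h1 he
  have hdet : IsUnit (cycMat Z e).det := (Matrix.isUnit_iff_isUnit_det _).mp hu
  set c : Fin n → K := (cycMat Z e)⁻¹ *ᵥ v with hc
  refine ⟨fun i => if h : i < n then c ⟨i, h⟩ else 0, ?_⟩
  rw [← Fin.sum_univ_eq_sum_range
    (fun i => (if h : i < n then c ⟨i, h⟩ else 0) • (Z ^ i *ᵥ e)) n]
  have h3 : v = cycMat Z e *ᵥ c := by
    rw [hc, mulVec_mulVec, Matrix.mul_nonsing_inv _ hdet, one_mulVec]
  rw [cycMat_mulVec] at h3
  rw [h3]
  refine Finset.sum_congr rfl fun j _ => ?_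
  simp only [j.isLt, dite_true]

/-- two matrices which agree on all `Z ^ k e` are equal -/
lemma ext_cyc {Z : Matrix (Fin n) (Fin n) K} (h1 : Z ^ n = 0) {e : Fin n → K}
    (he : Z ^ (n - 1) *ᵥ e ≠ 0) {A B : Matrix (Fin n) (Fin n) K}
    (h : ∀ k < n, A *ᵥ (Z ^ k *ᵥ e) = B *ᵥ (Z ^ k *ᵥ e)) : A = B := by
  have hu := isUnit_cycMat h1 he
  have hdet : IsUnit (cycMat Z e).det := (Matrix.isUnit_iff_isUnit_det _).mp hu
  have h3 : A * cycMat Z e = B * cycMat Z e := by
    ext i j
    have := congrFun (h j j.isLt) i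
    simpa [Matrix.mul_apply, mulVec, dotProduct, cycMat] using this
  have h4 := congrArg (fun M => M * (cycMat Z e)⁻¹) h3
  simpa only [Matrix.mul_assoc, Matrix.mul_nonsing_inv _ hdet, Matrix.mul_one] using h4

/-- the characteristic polynomial of a matrix which shifts the powers of `Z` -/
theorem charpoly_shift {Z T : Matrix (Fin n) (Fin n) K} (h1 : Z ^ n = 0)
    (h2 : Z ^ (n - 1) ≠ 0) (lam mu : ℕ → K)
    (hT : ∀ k, T * Z ^ k = Z ^ k * (lam k • T + mu k • 1)) :
    ∃ t : K, T.charpoly = ∏ j : Fin n, (X - C (lam j * t + mu j)) := by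
  obtain ⟨e, he⟩ := exists_cyc h2
  obtain ⟨t, ht⟩ := exists_coeff h1 he (T *ᵥ e)
  have hu := isUnit_cycMat h1 he
  set L : Matrix (Fin n) (Fin n) K := Matrix.of fun j k =>
    if k ≤ j then lam k * t ((j : ℕ) - k) + (if j = k then mu k else 0) else 0 with hL
  have key : T * cycMat Z e = cycMat Z e * L := by
    ext i k
    have e1 : (T * cycMat Z e) i k = (T *ᵥ (Z ^ (k : ℕ) *ᵥ e)) i := by
      simp [Matrix.mul_apply, mulVec, dotProduct, cycMat]
    have e2 : (cycMat Z e * L) i k = ∑ j : Fin n, L j k * (Z ^ (j : ℕ) *ᵥ e) i := by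
      rw [Matrix.mul_apply]
      exact Finset.sum_congr rfl fun j _ => by rw [mul_comm]; rfl
    have e3 : T *ᵥ (Z ^ (k : ℕ) *ᵥ e) = (∑ i ∈ Finset.range n,
        (lam k * t i) • (Z ^ ((k : ℕ) + i) *ᵥ e)) + mu k • (Z ^ (k : ℕ) *ᵥ e) := by
      rw [mulVec_mulVec, hT, ← mulVec_mulVec, add_mulVec, smul_mulVec, smul_mulVec, one_mulVec, ht,
        mulVec_add, mulVec_smul, mulVec_smul, mulVec_sum, Finset.smul_sum]
      congr 1
      refine Finset.sum_congr rfl fun j _ => ?_
      rw [mulVec_smul, mulVec_mulVec, ← pow_add, smul_smul]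
    have e4 : (∑ i ∈ Finset.range n, (lam k * t i) • (Z ^ ((k : ℕ) + i) *ᵥ e)) =
        ∑ j ∈ Finset.range n, (if (k : ℕ) ≤ j then lam k * t (j - k) else 0) •
          (Z ^ j *ᵥ e) := by
      have e5 : (∑ i ∈ Finset.range n, (lam k * t i) • (Z ^ ((k : ℕ) + i) *ᵥ e)) =
          ∑ i ∈ Finset.range (n - k), (lam k * t i) • (Z ^ ((k : ℕ) + i) *ᵥ e) := by
        symm
        refine Finset.sum_subset (Finset.range_subset_range.mpr (Nat.sub_le _ _)) ?_
        intro i _ hi
        rw [Finset.mem_range] at hi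
        have hk := k.isLt
        rw [pow_ge h1 (by omega), zero_mulVec, smul_zero]
      have e6 : ∑ j ∈ Finset.range n, (if (k : ℕ) ≤ j then lam k * t (j - k) else 0) •
          (Z ^ j *ᵥ e) = ∑ j ∈ Finset.Ico (k : ℕ) n, (lam k * t (j - k)) • (Z ^ j *ᵥ e) := by
        symm
        refine (Finset.sum_congr rfl fun j hj => ?_).trans
          (Finset.sum_subset (s₁ := Finset.Ico (k : ℕ) n) (s₂ := Finset.range n)
            (f := fun j => (if (k : ℕ) ≤ j then lam k * t (j - k) else 0) • (Z ^ j *ᵥ e)) ?_ ?_)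
        · rw [if_pos (Finset.mem_Ico.mp hj).1]
        · intro j hj
          exact Finset.mem_range.mpr (Finset.mem_Ico.mp hj).2
        · intro j hj hj'
          rw [Finset.mem_range] at hj
          rw [Finset.mem_Ico] at hj'
          rw [if_neg (by omega), zero_smul]
      rw [e5, e6, Finset.sum_Ico_eq_sum_range]
      refine Finset.sum_congr rfl fun i _ => ?_
      rw [Nat.add_sub_cancel_left]
    rw [e1, e3, e4, e2, Pi.add_apply, Finset.sum_apply]
    have e7 : ∀ j : Fin n, L j k * (Z ^ (j : ℕ) *ᵥ e) i =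
        (((if (k : ℕ) ≤ j then lam k * t (j - k) else 0) • (Z ^ (j : ℕ) *ᵥ e)) i +
          (if j = k then mu k * (Z ^ (j : ℕ) *ᵥ e) i else 0)) := by
      intro j
      simp only [hL, of_apply, Pi.smul_apply, smul_eq_mul, Fin.le_def]
      by_cases hjk : (k : ℕ) ≤ j
      · rw [if_pos hjk, if_pos hjk]
        split_ifs with h
        · ring
        · ring
      · rw [if_neg hjk, if_neg hjk, if_neg (by rintro rfl; exact hjk le_rfl)]
        ring
    rw [Finset.sum_congr rfl fun j _ => e7 j, Finset.sum_add_distrib,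
      Finset.sum_ite_eq' Finset.univ k, if_pos (Finset.mem_univ _),
      Fin.sum_univ_eq_sum_range (fun j => ((if (k : ℕ) ≤ j then lam k * t (j - k) else 0) •
        (Z ^ j *ᵥ e)) i) n, Pi.smul_apply, smul_eq_mul]
  have hLt : L.transpose.charpoly = ∏ j : Fin n, (X - C (lam j * t 0 + mu j)) := by
    rw [charpoly_of_isUpperTriangular]
    · refine Finset.prod_congr rfl fun j _ => ?_
      simp [hL]
    · intro i j hij
      simp only [id_eq] at hij
      simp only [hL, transpose_apply, of_apply]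
      rw [if_neg (not_le.mpr hij)]
  refine ⟨t 0, ?_⟩
  rw [← hLt, charpoly_transpose]
  have hdet : IsUnit (cycMat Z e).det := (Matrix.isUnit_iff_isUnit_det _).mp hu
  obtain ⟨P, hP⟩ := hu
  rw [← charpoly_units_conj P L, hP, ← key, Matrix.mul_assoc, Matrix.mul_nonsing_inv _ hdet,
    Matrix.mul_one]

/-- the centraliser of `Z` consists of polynomials in `Z` -/
theorem centraliser {Z T : Matrix (Fin n) (Fin n) K} (h1 : Z ^ n = 0)
    (h2 : Z ^ (n - 1) ≠ 0) (hT : T * Z = Z * T) :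
    ∃ t : ℕ → K, T = ∑ i ∈ Finset.range n, t i • Z ^ i := by
  obtain ⟨e, he⟩ := exists_cyc h2
  obtain ⟨t, ht⟩ := exists_coeff h1 he (T *ᵥ e)
  refine ⟨t, ext_cyc h1 he fun k _ => ?_⟩
  have hc : T * Z ^ k = Z ^ k * T := (Commute.pow_right (show Commute T Z from hT) k).eq
  rw [mulVec_mulVec, hc, ← mulVec_mulVec, ht, mulVec_sum, Matrix.sum_mulVec]
  refine Finset.sum_congr rfl fun i _ => ?_
  rw [mulVec_smul, smul_mulVec, mulVec_mulVec, mulVec_mulVec, ← pow_add, ← pow_add, add_comm]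

lemma indep_pow {Z : Matrix (Fin n) (Fin n) K} (h1 : Z ^ n = 0) (h2 : Z ^ (n - 1) ≠ 0)
    (c : ℕ → K) (h : ∑ i ∈ Finset.range n, c i • Z ^ i = 0) : ∀ i < n, c i = 0 := by
  obtain ⟨e, he⟩ := exists_cyc h2
  refine indep h1 he c ?_
  have := congrArg (fun M => M *ᵥ e) h
  simp only [Matrix.sum_mulVec, zero_mulVec, smul_mulVec] at this
  exact this

lemma bracket_pow {Z H : Matrix (Fin n) (Fin n) K} {m : K} (hH : H * Z - Z * H = m • Z) (k : ℕ) :
    H * Z ^ k - Z ^ k * H = ((k : K) * m) • Z ^ k := by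
  induction k with
  | zero => simp
  | succ k ih =>
    have h3 : H * Z ^ (k + 1) - Z ^ (k + 1) * H =
        (H * Z ^ k - Z ^ k * H) * Z + Z ^ k * (H * Z - Z * H) := by
      rw [pow_succ]
      noncomm_ring
    rw [h3, ih, hH, smul_mul_assoc, ← pow_succ, mul_smul_comm, ← pow_succ, ← add_smul]
    congr 1
    push_cast
    ring

/-- a matrix `Z` with `[H, Z] = m Z`, `m ≠ 0`, is nilpotent -/
theorem nilp [CharZero K] {Z H : Matrix (Fin n) (Fin n) K} {m : K} (hm : m ≠ 0)
    (hH : H * Z - Z * H = m • Z) : Z ^ n = 0 := by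
  classical
  have h3 : ∃ k, Z ^ k = 0 := by
    by_contra h
    push Not at h
    let f : Module.End K (Matrix (Fin n) (Fin n) K) :=
      LinearMap.mulLeft K H - LinearMap.mulRight K H
    have h4 : ∀ k : ℕ, ((k : K) * m) ∈ {μ | f.HasEigenvalue μ} := by
      intro k
      refine Module.End.hasEigenvalue_of_hasEigenvector (x := Z ^ k) ⟨?_, h k⟩
      rw [Module.End.mem_eigenspace_iff]
      simp only [f, LinearMap.sub_apply, LinearMap.mulLeft_apply, LinearMap.mulRight_apply]
      exact bracket_pow hH k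
    have h5 : Function.Injective (fun k : ℕ => (k : K) * m) := by
      intro a b hab
      exact Nat.cast_injective (mul_right_cancel₀ hm hab)
    exact (Set.infinite_of_injective_forall_mem h5 h4) f.finite_hasEigenvalue
  obtain ⟨k, hk⟩ := h3
  have h6 : IsNilpotent (Matrix.toLin' Z) := ⟨k, by rw [← Matrix.toLin'_pow, hk, map_zero]⟩
  have h7 := h6.charpoly_eq_X_pow_finrank
  have h8 := LinearMap.aeval_self_charpoly (Matrix.toLin' Z)
  rw [h7, map_pow, aeval_X, Module.finrank_fin_fun, ← Matrix.toLin'_pow] at h8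
  exact Matrix.toLin'.injective (by rw [h8, map_zero])

/-- the unipotent case -/
theorem unip [CharZero K] {Z H g : Matrix (Fin n) (Fin n) K} (hn : 2 ≤ n) (h1 : Z ^ n = 0)
    (h2 : Z ^ (n - 1) ≠ 0) (hH : H * Z - Z * H = (2 : K) • Z) (hg : g * Z = Z * g) {c : K}
    (hgH : g * H = H * g + c • (Z * g)) (hu : (g - 1) ^ (n - 1) = 0) : g = 1 := by
  obtain ⟨m, rfl⟩ : ∃ m, n = m + 2 := ⟨n - 2, by omega⟩
  set M := g - 1 with hM
  have hgM : g = 1 + M := by rw [hM]; abel
  have hMZ : M * Z = Z * M := by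
    rw [hM, sub_mul, mul_sub, hg, one_mul, mul_one]
  have hcM : Commute M Z := hMZ
  have hn1 : m + 2 - 1 = m + 1 := by omega
  rw [hn1] at h2 hu
  obtain ⟨s, hs⟩ := centraliser h1 (by rw [hn1]; exact h2) hMZ
  have hs0 : M = s 0 • 1 + Z * ∑ i ∈ Finset.range (m + 1), s (i + 1) • Z ^ i := by
    rw [hs, Finset.sum_range_succ', pow_zero, add_comm (∑ k ∈ Finset.range (m + 1), _),
      Finset.mul_sum]
    congr 1
    refine Finset.sum_congr rfl fun i _ => ?_
    rw [mul_smul_comm, ← pow_succ']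
  have htop : Z ^ (m + 1) * Z = 0 := by
    rw [← pow_succ, ← h1]
  have ha : Z ^ (m + 1) * M = s 0 • Z ^ (m + 1) := by
    rw [hs0, mul_add, ← Matrix.mul_assoc, htop, zero_mul, add_zero, mul_smul_comm, mul_one]
  have hb : ∀ k : ℕ, Z ^ (m + 1) * M ^ k = s 0 ^ k • Z ^ (m + 1) := by
    intro k
    induction k with
    | zero => simp
    | succ k ih =>
      rw [pow_succ M k, ← Matrix.mul_assoc, ih, smul_mul_assoc, ha, smul_smul, pow_succ (s 0) k]
  have h0 : s 0 = 0 := by
    have h3 := hb (m + 1)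
    rw [hu, mul_zero] at h3
    rcases smul_eq_zero.mp h3.symm with h | h
    · exact pow_eq_zero_iff (Nat.succ_ne_zero m) |>.mp h
    · exact absurd h h2
  -- now the coefficient of `Z`
  set R : Matrix (Fin (m + 2)) (Fin (m + 2)) K := ∑ i ∈ Finset.range m, s (i + 2) • Z ^ i with hR
  have hQ : ∑ i ∈ Finset.range (m + 1), s (i + 1) • Z ^ i = s 1 • 1 + Z * R := by
    rw [Finset.sum_range_succ', pow_zero, add_comm (∑ k ∈ Finset.range m, _), hR, Finset.mul_sum]
    congr 1
    refine Finset.sum_congr rfl fun i _ => ?_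
    rw [mul_smul_comm, ← pow_succ']
  have hM1 : M = Z * (s 1 • 1 + Z * R) := by
    rw [hs0, h0, zero_smul, zero_add, hQ]
  have hcR : Commute Z R := by
    rw [hR]
    refine Commute.sum_right _ _ _ fun i _ => ?_
    exact ((Commute.refl Z).pow_right i).smul_right _
  have hcQ : Commute Z (s 1 • 1 + Z * R) :=
    ((Commute.one_right Z).smul_right _).add_right ((Commute.refl Z).mul_right hcR)
  have hd : ∀ k : ℕ, Z ^ (m + 1) * (s 1 • 1 + Z * R) ^ k = s 1 ^ k • Z ^ (m + 1) := by
    intro k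
    induction k with
    | zero => simp
    | succ k ih =>
      rw [pow_succ (s 1 • 1 + Z * R) k, ← Matrix.mul_assoc, ih, smul_mul_assoc, mul_add,
        ← Matrix.mul_assoc, htop, zero_mul, add_zero, mul_smul_comm, mul_one, smul_smul,
        pow_succ (s 1) k]
  have h10 : s 1 = 0 := by
    have h3 := hu
    rw [hM1, hcQ.mul_pow, hd] at h3
    rcases smul_eq_zero.mp h3 with h | h
    · exact pow_eq_zero_iff (Nat.succ_ne_zero m) |>.mp h
    · exact absurd h h2
  have hM2 : M = Z * (Z * R) := by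
    rw [hM1, h10, zero_smul, zero_add]
  have hMH : M * H = H * M + c • (Z * g) := by
    rw [hM, sub_mul, hgH, mul_sub]
    simp only [one_mul, mul_one]
    abel
  have hzM : Z ^ m * M = 0 := by
    rw [hM2, ← Matrix.mul_assoc, ← pow_succ, ← Matrix.mul_assoc, htop, zero_mul]
  have hc0 : c = 0 := by
    have h3 := congrArg (fun A => Z ^ m * A) hMH
    simp only [mul_add] at h3
    have h4 : Z ^ m * (H * M) = 0 := by
      have h5 := bracket_pow hH m
      have h6 : Z ^ m * H = H * Z ^ m - ((m : K) * 2) • Z ^ m := by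
        rw [← h5]
        abel
      rw [← Matrix.mul_assoc, h6, sub_mul, Matrix.mul_assoc, hzM, smul_mul_assoc, hzM]
      simp
    rw [← Matrix.mul_assoc, hzM, zero_mul, h4, zero_add, hgM, mul_smul_comm, ← Matrix.mul_assoc,
      ← pow_succ, mul_add, mul_one, ha, h0, zero_smul, add_zero] at h3
    exact (smul_eq_zero.mp h3.symm).resolve_right h2
  rw [hc0, zero_smul, add_zero] at hMH
  have h11 : ∑ i ∈ Finset.range (m + 2), (((i : K) * 2) * s i) • Z ^ i = 0 := by
    have h12 : H * M - M * H = 0 := by rw [hMH, sub_self]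
    rw [hs, Finset.mul_sum, Finset.sum_mul, ← Finset.sum_sub_distrib] at h12
    rw [← h12]
    refine Finset.sum_congr rfl fun i _ => ?_
    rw [mul_smul_comm, smul_mul_assoc, ← smul_sub, bracket_pow hH, smul_smul, mul_comm]
  have h13 := indep_pow h1 (by rw [hn1]; exact h2) _ h11
  have hM0 : M = 0 := by
    rw [hs]
    refine Finset.sum_eq_zero fun i hi => ?_
    have h14 := h13 i (Finset.mem_range.mp hi)
    rcases Nat.eq_zero_or_pos i with rfl | hpos
    · rw [h0, zero_smul]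
    · have h15 : ((i : K) * 2) ≠ 0 :=
        mul_ne_zero (Nat.cast_ne_zero.mpr hpos.ne') two_ne_zero
      rw [(mul_eq_zero.mp h14).resolve_left h15, zero_smul]
  rw [hgM, hM0, add_zero]

end MT.Reg
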