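import Mathlib

/-!
# The three dimensional simple Lie algebra and its automorphisms

Coordinates `(x 0, x 1, x 2)` are with respect to `F, H, E` with `[H, F] = -2 F`, `[H, E] = 2 E`,
`[E, F] = H`.
-/

set_option autoImplicit false

namespace MT.Slt

variable {K : Type*} [Field K]

/-- the bracket -/
def br (x y : Fin 3 → K) : Fin 3 → K :=
  ![2 * (x 0 * y 1 - x 1 * y 0), x 2 * y 0 - x 0 * y 2, 2 * (x 1 * y 2 - x 2 * y 1)]

/-- the invariant quadratic form -/
def qf (x : Fin 3 → K) : K := x 1 ^ 2 + x 0 * x 2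

lemma br_zero (x y : Fin 3 → K) : br x y 0 = 2 * (x 0 * y 1 - x 1 * y 0) := rfl
lemma br_one (x y : Fin 3 → K) : br x y 1 = x 2 * y 0 - x 0 * y 2 := rfl
lemma br_two (x y : Fin 3 → K) : br x y 2 = 2 * (x 1 * y 2 - x 2 * y 1) := rfl

omit [Field K] in
lemma ext3 {x y : Fin 3 → K} (h0 : x 0 = y 0) (h1 : x 1 = y 1) (h2 : x 2 = y 2) : x = y := by
  ext i
  fin_cases i
  · exact h0
  · exact h1
  · exact h2

lemma br_three (x v : Fin 3 → K) : br x (br x (br x v)) = (4 * qf x) • br x v := by
  apply ext3 <;> simp only [br_zero, br_one, br_two, qf, Pi.smul_apply, smul_eq_mul] <;> ring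

lemma br_jacobi (x u v : Fin 3 → K) : br x (br u v) = br (br x u) v + br u (br x v) := by
  apply ext3 <;> simp only [br_zero, br_one, br_two, Pi.add_apply] <;> ring

lemma br_smul_left (c : K) (x v : Fin 3 → K) : br (c • x) v = c • br x v := by
  apply ext3 <;> simp only [br_zero, br_one, br_two, Pi.smul_apply, smul_eq_mul] <;> ring

lemma br_smul_right (c : K) (x v : Fin 3 → K) : br x (c • v) = c • br x v := by
  apply ext3 <;> simp only [br_zero, br_one, br_two, Pi.smul_apply, smul_eq_mul] <;> ring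

lemma br_add_left (x y v : Fin 3 → K) : br (x + y) v = br x v + br y v := by
  apply ext3 <;> simp only [br_zero, br_one, br_two, Pi.add_apply] <;> ring

lemma br_add_right (x u v : Fin 3 → K) : br x (u + v) = br x u + br x v := by
  apply ext3 <;> simp only [br_zero, br_one, br_two, Pi.add_apply] <;> ring

lemma br_zero_right (x : Fin 3 → K) : br x 0 = 0 := by
  apply ext3 <;> simp [br_zero, br_one, br_two]

lemma ne_three {z : Fin 3 → K} (hz : z ≠ 0) : z 0 ≠ 0 ∨ z 1 ≠ 0 ∨ z 2 ≠ 0 := by
  by_contra h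
  push Not at h
  exact hz (ext3 h.1 h.2.1 h.2.2)

lemma parallel [CharZero K] {w z : Fin 3 → K} (h : br w z = 0) (hz : z ≠ 0) :
    ∃ c : K, w = c • z := by
  have h0 : w 0 * z 1 - w 1 * z 0 = 0 := by
    have := congrFun h 0
    rw [br_zero, Pi.zero_apply] at this
    exact (mul_eq_zero.mp this).resolve_left two_ne_zero
  have h1 : w 2 * z 0 - w 0 * z 2 = 0 := by
    have := congrFun h 1
    rwa [br_one, Pi.zero_apply] at this
  have h2 : w 1 * z 2 - w 2 * z 1 = 0 := by
    have := congrFun h 2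
    rw [br_two, Pi.zero_apply] at this
    exact (mul_eq_zero.mp this).resolve_left two_ne_zero
  rcases ne_three hz with hz | hz | hz
  · refine ⟨w 0 / z 0, ext3 ?_ ?_ ?_⟩ <;> simp only [Pi.smul_apply, smul_eq_mul] <;> field_simp
    · linear_combination -h0
    · linear_combination h1
  · refine ⟨w 1 / z 1, ext3 ?_ ?_ ?_⟩ <;> simp only [Pi.smul_apply, smul_eq_mul] <;> field_simp
    · linear_combination h0
    · linear_combination -h2
  · refine ⟨w 2 / z 2, ext3 ?_ ?_ ?_⟩ <;> simp only [Pi.smul_apply, smul_eq_mul] <;> field_simp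
    · linear_combination -h1
    · linear_combination h2

lemma exists_br_ne [CharZero K] {x : Fin 3 → K} (hx : x ≠ 0) : ∃ v, br x v ≠ 0 := by
  by_contra h
  push Not at h
  have h0 := h ![1, 0, 0]
  have h1 := h ![0, 1, 0]
  apply hx
  have a0 := congrFun h0 0
  have a1 := congrFun h0 1
  have b0 := congrFun h1 0
  rw [br_zero] at a0
  rw [br_one] at a1
  rw [br_zero] at b0
  simp only [Matrix.cons_val_zero, Matrix.cons_val_one, Matrix.cons_val, mul_zero, mul_one,
    zero_sub, sub_zero, Pi.zero_apply, mul_neg, neg_eq_zero, mul_eq_zero, OfNat.ofNat_ne_zero,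
    false_or] at a0 a1 b0
  exact ext3 b0 a0 a1

/-- eigenvectors of `ad x` -/
lemma exists_eig [CharZero K] (x : Fin 3 → K) (y : K) (hy : y ^ 2 = qf x) (hx : x ≠ 0) :
    ∃ z : Fin 3 → K, z ≠ 0 ∧ qf z = 0 ∧ br x z = (2 * y) • z := by
  have hy' : y ^ 2 = x 1 ^ 2 + x 0 * x 2 := hy
  by_cases h2 : x 2 = 0
  · -- then `(y - x 1) (y + x 1) = 0`
    by_cases h1 : y + x 1 = 0 ∧ x 0 = 0
    · -- `u = (p, r) = (0, 1)`
      have hx1 : x 1 ≠ 0 := by
        intro h
        exact hx (ext3 h1.2 h h2)
      refine ⟨![-1, 0, 0], ?_, ?_, ?_⟩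
      · intro h
        have := congrFun h 0
        simp at this
      · simp [qf]
      · apply ext3 <;> simp only [br_zero, br_one, br_two, Pi.smul_apply, smul_eq_mul, h2, h1.2,
          Matrix.cons_val_zero, Matrix.cons_val_one, Matrix.cons_val]
        · linear_combination 2 * h1.1
        · ring
        · ring
    · -- `u = (y + x 1, x 0)`
      refine ⟨![-(x 0) ^ 2, -(y + x 1) * x 0, (y + x 1) ^ 2], ?_, ?_, ?_⟩
      · intro h
        apply h1
        have a0 := congrFun h 0
        have a2 := congrFun h 2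
        simp only [Matrix.cons_val_zero, Matrix.cons_val, Pi.zero_apply, neg_eq_zero,
          ne_eq, OfNat.ofNat_ne_zero, not_false_eq_true, pow_eq_zero_iff] at a0 a2
        exact ⟨a2, a0⟩
      · simp only [qf, Matrix.cons_val_zero, Matrix.cons_val_one, Matrix.cons_val]
        ring
      · apply ext3 <;> simp only [br_zero, br_one, br_two, Pi.smul_apply, smul_eq_mul,
          Matrix.cons_val_zero, Matrix.cons_val_one, Matrix.cons_val]
        · ring
        · linear_combination (x 0) * hy'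
        · linear_combination (-2 * y - 2 * x 1) * hy'
  · -- `u = (x 2, y - x 1)`
    refine ⟨![-(y - x 1) ^ 2, -(x 2) * (y - x 1), (x 2) ^ 2], ?_, ?_, ?_⟩
    · intro h
      apply h2
      have a2 := congrFun h 2
      simpa using a2
    · simp only [qf, Matrix.cons_val_zero, Matrix.cons_val_one, Matrix.cons_val]
      ring
    · apply ext3 <;> simp only [br_zero, br_one, br_two, Pi.smul_apply, smul_eq_mul,
        Matrix.cons_val_zero, Matrix.cons_val_one, Matrix.cons_val]
      · linear_combination (2 * y - 2 * x 1) * hy'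
      · linear_combination (x 2) * hy'
      · ring

/-- an eigenvector of `ad x` to the eigenvalue `2 y ≠ 0` is unique up to scalars -/
lemma eig_unique [CharZero K] {x z w : Fin 3 → K} {y : K} (hy : y ^ 2 = qf x) (hy0 : y ≠ 0)
    (hz : z ≠ 0) (h1 : br x z = (2 * y) • z) (h2 : br x w = (2 * y) • w) :
    ∃ c : K, w = c • z := by
  refine parallel ?_ hz
  have h3 : br x (br w z) = (4 * y) • br w z := by
    rw [br_jacobi, h1, h2, br_smul_left, br_smul_right, ← add_smul]
    congr 1
    ring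
  have h4 := br_three x (br w z)
  rw [h3, br_smul_right, br_smul_right, h3, smul_smul, ← hy] at h4
  rw [br_smul_right, h3, smul_smul, smul_smul] at h4
  have h5 : (48 * y ^ 3) • br w z = 0 := by
    have h6 : (48 * y ^ 3) • br w z = (4 * y * (4 * y) * (4 * y)) • br w z -
        (4 * y ^ 2 * (4 * y)) • br w z := by
      rw [← sub_smul]
      congr 1
      ring
    rw [h6, h4, sub_self]
  rcases smul_eq_zero.mp h5 with h | h
  · exact absurd h (mul_ne_zero (by norm_num) (pow_ne_zero 3 hy0))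
  · exact h

/-- automorphisms preserve the form -/
lemma qf_auto [CharZero K] (θ : (Fin 3 → K) →ₗ[K] (Fin 3 → K)) (hinj : Function.Injective θ)
    (hθ : ∀ x y, θ (br x y) = br (θ x) (θ y)) (x : Fin 3 → K) : qf (θ x) = qf x := by
  have hsurj : Function.Surjective θ := LinearMap.injective_iff_surjective.mp hinj
  by_cases hx : x = 0
  · subst hx
    rw [map_zero]
  have hx' : θ x ≠ 0 := by
    intro h
    exact hx (hinj (by rw [h, map_zero]))
  obtain ⟨v, hv⟩ := exists_br_ne hx'
  obtain ⟨v, rfl⟩ := hsurj v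
  have h1 := congrArg θ (br_three x v)
  rw [hθ, hθ, map_smul, hθ, br_three (θ x) (θ v)] at h1
  have h2 : (4 * (qf (θ x) - qf x)) • br (θ x) (θ v) = 0 := by
    rw [mul_sub, sub_smul, h1, sub_self]
  rcases smul_eq_zero.mp h2 with h | h
  · have h3 : (4 : K) ≠ 0 := by norm_num
    exact sub_eq_zero.mp ((mul_eq_zero.mp h).resolve_left h3)
  · exact absurd h hv

/-- an automorphism with a fixed vector has an isotropic eigenvector -/
lemma iso_of_fixed [CharZero K] [IsAlgClosed K] (θ : (Fin 3 → K) →ₗ[K] (Fin 3 → K))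
    (hθ : ∀ x y, θ (br x y) = br (θ x) (θ y)) {x : Fin 3 → K} (hx : x ≠ 0) (hfix : θ x = x) :
    ∃ z : Fin 3 → K, z ≠ 0 ∧ qf z = 0 ∧ ∃ c : K, θ z = c • z := by
  by_cases hq : qf x = 0
  · exact ⟨x, hx, hq, 1, by rw [hfix, one_smul]⟩
  obtain ⟨y, hy⟩ := IsAlgClosed.exists_pow_nat_eq (qf x) (n := 2) two_pos
  have hy0 : y ≠ 0 := by
    rintro rfl
    apply hq
    rw [← hy]
    ring
  obtain ⟨z, hz, hqz, hxz⟩ := exists_eig x y hy hx
  refine ⟨z, hz, hqz, eig_unique hy hy0 hz hxz ?_⟩
  have h1 := congrArg θ hxz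
  rwa [hθ, hfix, map_smul] at h1

/-- an automorphism over an algebraically closed field has an isotropic eigenvector -/
theorem exists_iso [CharZero K] [IsAlgClosed K] (θ : (Fin 3 → K) →ₗ[K] (Fin 3 → K))
    (hinj : Function.Injective θ) (hθ : ∀ x y, θ (br x y) = br (θ x) (θ y)) :
    ∃ z : Fin 3 → K, z ≠ 0 ∧ qf z = 0 ∧ ∃ c : K, θ z = c • z := by
  obtain ⟨l, hl⟩ := Module.End.exists_eigenvalue θ
  obtain ⟨x, hxe, hx⟩ := hl.exists_hasEigenvector
  have hx1 : θ x = l • x := Module.End.mem_eigenspace_iff.mp hxe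
  by_cases hq : qf x = 0
  · exact ⟨x, hx, hq, l, hx1⟩
  have hl2 : l ^ 2 = 1 := by
    have h1 := qf_auto θ hinj hθ x
    rw [hx1] at h1
    have h2 : qf (l • x) = l ^ 2 * qf x := by
      simp only [qf, Pi.smul_apply, smul_eq_mul]
      ring
    rw [h2] at h1
    have h3 : (l ^ 2 - 1) * qf x = 0 := by linear_combination h1
    exact sub_eq_zero.mp ((mul_eq_zero.mp h3).resolve_right hq)
  have hl3 : l = 1 ∨ l = -1 := sq_eq_one_iff.mp hl2
  rcases hl3 with rfl | rfl
  · exact iso_of_fixed θ hθ hx (by rw [hx1, one_smul])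
  obtain ⟨y, hy⟩ := IsAlgClosed.exists_pow_nat_eq (qf x) (n := 2) two_pos
  have hy0 : y ≠ 0 := by
    rintro rfl
    apply hq
    rw [← hy]
    ring
  obtain ⟨z, hz, hqz, hxz⟩ := exists_eig x y hy hx
  have h1 := congrArg θ hxz
  rw [hθ, hx1, map_smul, br_smul_left] at h1
  have hw : br x (θ z) = (-(2 * y)) • θ z := by
    have h2 := congrArg (fun v => (-1 : K) • v) h1
    simp only [smul_smul] at h2
    rw [neg_mul_neg, one_mul, one_smul, neg_one_mul] at h2
    exact h2
  have h2 := congrArg θ hw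
  rw [hθ, hx1, map_smul, br_smul_left] at h2
  have hw2 : br x (θ (θ z)) = (2 * y) • θ (θ z) := by
    have h3 := congrArg (fun v => (-1 : K) • v) h2
    simp only [smul_smul] at h3
    rw [neg_mul_neg, one_mul, one_smul, neg_mul_neg, one_mul] at h3
    exact h3
  obtain ⟨k, hk⟩ := eig_unique hy hy0 hz hxz hw2
  have hθz : θ z ≠ 0 := by
    intro h
    exact hz (hinj (by rw [h, map_zero]))
  obtain ⟨s, hs⟩ := IsAlgClosed.exists_pow_nat_eq k (n := 2) two_pos
  have hk0 : k ≠ 0 := by
    rintro rfl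
    rw [zero_smul] at hk
    exact hθz (hinj (by rw [hk, map_zero]))
  have key : ∀ s : K, s ^ 2 = k → s • z + θ z ≠ 0 ∧ θ (s • z + θ z) = s • (s • z + θ z) := by
    intro s hs
    constructor
    · intro h
      have h3 := congrArg (br x) h
      rw [br_add_right, br_smul_right, hxz, hw, br_zero_right] at h3
      have h4 : (4 * y) • θ z = 0 := by
        have h5 : (4 * y) • θ z = (2 * y) • (s • z + θ z) -
            (s • (2 * y) • z + -(2 * y) • θ z) := by
          rw [smul_add, smul_comm s (2 * y) z, neg_smul, add_sub_add_left_eq_sub, sub_neg_eq_add,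
            ← add_smul]
          congr 1
          ring
        rw [h5, h, h3, smul_zero, sub_zero]
      rcases smul_eq_zero.mp h4 with h | h
      · exact (mul_ne_zero (by norm_num) hy0) h
      · exact hθz h
    · rw [map_add, map_smul, hk, smul_add, smul_smul, ← sq, hs, add_comm]
  obtain ⟨hx', hx1'⟩ := key s hs
  by_cases hq' : qf (s • z + θ z) = 0
  · exact ⟨_, hx', hq', s, hx1'⟩
  have hs1 : s ^ 2 = 1 := by
    have h1 := qf_auto θ hinj hθ (s • z + θ z)
    rw [hx1'] at h1
    have h2 : qf (s • (s • z + θ z)) = s ^ 2 * qf (s • z + θ z) := by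
      simp only [qf, Pi.smul_apply, smul_eq_mul]
      ring
    rw [h2] at h1
    have h3 : (s ^ 2 - 1) * qf (s • z + θ z) = 0 := by linear_combination h1
    exact sub_eq_zero.mp ((mul_eq_zero.mp h3).resolve_right hq')
  obtain ⟨hx'', hx1''⟩ := key 1 (by rw [← hs, hs1]; ring)
  exact iso_of_fixed θ hθ hx'' (by rw [hx1'', one_smul])

end MT.Slt
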