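import Mathlib
import Pool.Agent.Helper8.MT.SLT
import Pool.Agent.Helper8.MT.REG

/-!
# The normaliser of the principal `sl_2`
-/

set_option autoImplicit false

open Matrix Polynomial

namespace MT.Pri

open MT.Slt MT.Reg

variable {K : Type*} [Field K]

def FF (K : Type*) [Field K] (n : ℕ) : Matrix (Fin n) (Fin n) K :=
  Matrix.of fun i j : Fin n => if (i : ℕ) = (j : ℕ) + 1 then 1 else 0

def HH (K : Type*) [Field K] (n : ℕ) : Matrix (Fin n) (Fin n) K :=
  Matrix.diagonal fun i : Fin n => (n : K) - 1 - 2 * ((i : ℕ) : K)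

def EE (K : Type*) [Field K] (n : ℕ) : Matrix (Fin n) (Fin n) K :=
  Matrix.of fun i j : Fin n => if (i : ℕ) + 1 = (j : ℕ) then
      ((j : ℕ) : K) * ((n : K) - ((j : ℕ) : K)) else 0

lemma br_HF (n : ℕ) : HH K n * FF K n = FF K n * HH K n - (2 : K) • FF K n := by
  ext i j
  simp only [HH, FF, diagonal_mul, mul_diagonal, Matrix.sub_apply, Matrix.smul_apply, of_apply,
    smul_eq_mul]
  split_ifs with h
  · rw [h]
    push_cast
    ring
  · ring

lemma br_HE (n : ℕ) : HH K n * EE K n = EE K n * HH K n + (2 : K) • EE K n := by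
  ext i j
  simp only [HH, EE, diagonal_mul, mul_diagonal, Matrix.add_apply, Matrix.smul_apply, of_apply,
    smul_eq_mul]
  split_ifs with h
  · rw [← h]
    push_cast
    ring
  · ring

lemma EF_apply (n : ℕ) (i j : Fin n) : (EE K n * FF K n) i j =
    if i = j then ((i : ℕ) + 1 : K) * ((n : K) - ((i : ℕ) + 1)) else 0 := by
  rw [Matrix.mul_apply]
  simp only [EE, FF, of_apply]
  by_cases hij : i = j
  · subst hij
    rw [if_pos rfl]
    by_cases hi : (i : ℕ) + 1 < n
    · rw [Finset.sum_eq_single ⟨(i : ℕ) + 1, hi⟩]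
      · simp
      · intro k _ hk
        rw [if_neg, zero_mul]
        intro h
        exact hk (Fin.ext h.symm)
      · intro h
        exact absurd (Finset.mem_univ _) h
    · have hn : n = (i : ℕ) + 1 := by have := i.isLt; omega
      rw [Finset.sum_eq_zero]
      · have h2 : (n : K) = ((i : ℕ) : K) + 1 := by exact_mod_cast congrArg (Nat.cast (R := K)) hn
        rw [h2, sub_self, mul_zero]
      · intro k _
        rw [if_neg, zero_mul]
        have := k.isLt
        omega
  · rw [if_neg hij]
    refine Finset.sum_eq_zero fun k _ => ?_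
    by_cases h1 : (i : ℕ) + 1 = (k : ℕ)
    · rw [if_neg (c := (k : ℕ) = (j : ℕ) + 1), mul_zero]
      intro h2
      exact hij (Fin.ext (by omega))
    · rw [if_neg h1, zero_mul]

lemma FE_apply (n : ℕ) (i j : Fin n) : (FF K n * EE K n) i j =
    if i = j then ((i : ℕ) : K) * ((n : K) - (i : ℕ)) else 0 := by
  rw [Matrix.mul_apply]
  simp only [EE, FF, of_apply]
  by_cases hij : i = j
  · subst hij
    rw [if_pos rfl]
    by_cases hi : (i : ℕ) = 0
    · rw [Finset.sum_eq_zero]
      · rw [hi]; simp
      · intro k _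
        rw [if_neg, zero_mul]
        omega
    · have hi' : (i : ℕ) - 1 < n := by have := i.isLt; omega
      rw [Finset.sum_eq_single ⟨(i : ℕ) - 1, hi'⟩]
      · rw [if_pos, if_pos, one_mul]
        · change (i : ℕ) - 1 + 1 = i
          omega
        · change (i : ℕ) = (i : ℕ) - 1 + 1
          omega
      · intro k _ hk
        rw [if_neg, zero_mul]
        intro h
        exact hk (Fin.ext (by change (k : ℕ) = (i : ℕ) - 1; omega))
      · intro h
        exact absurd (Finset.mem_univ _) h
  · rw [if_neg hij]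
    refine Finset.sum_eq_zero fun k _ => ?_
    by_cases h1 : (i : ℕ) = (k : ℕ) + 1
    · rw [if_neg (c := (k : ℕ) + 1 = (j : ℕ)), mul_zero]
      intro h2
      exact hij (Fin.ext (by omega))
    · rw [if_neg h1, zero_mul]

lemma br_EF (n : ℕ) : EE K n * FF K n = FF K n * EE K n + HH K n := by
  ext i j
  rw [EF_apply, Matrix.add_apply, FE_apply, HH, diagonal_apply]
  split_ifs
  · ring
  · ring

/-- the principal embedding -/
def phi (n : ℕ) (x : Fin 3 → K) : Matrix (Fin n) (Fin n) K :=
  x 0 • FF K n + x 1 • HH K n + x 2 • EE K n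

lemma phi_br (n : ℕ) (x y : Fin 3 → K) : phi n x * phi n y - phi n y * phi n x = phi n (br x y) := by
  unfold phi
  simp only [mul_add, add_mul, smul_mul_assoc, mul_smul_comm, br_HF, br_HE, br_EF, smul_sub,
    smul_add, br_zero, br_one, br_two]
  module

lemma phi_add (n : ℕ) (x y : Fin 3 → K) : phi n (x + y) = phi n x + phi n y := by
  unfold phi
  simp only [Pi.add_apply]
  module

lemma phi_smul (n : ℕ) (c : K) (x : Fin 3 → K) : phi n (c • x) = c • phi n x := by
  unfold phi
  simp only [Pi.smul_apply, smul_eq_mul]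
  module

lemma phi_apply (n : ℕ) (x : Fin 3 → K) (i j : Fin n) : phi n x i j =
    x 0 * (if (i : ℕ) = (j : ℕ) + 1 then 1 else 0) +
    x 1 * (if i = j then (n : K) - 1 - 2 * ((i : ℕ) : K) else 0) +
    x 2 * (if (i : ℕ) + 1 = (j : ℕ) then ((j : ℕ) : K) * ((n : K) - ((j : ℕ) : K)) else 0) := by
  simp only [phi, FF, HH, EE, Matrix.add_apply, Matrix.smul_apply, of_apply, smul_eq_mul,
    diagonal_apply]

lemma phi_inj [CharZero K] (n : ℕ) (hn : 2 ≤ n) {x y : Fin 3 → K} (h : phi n x = phi n y) :
    x = y := by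
  have hn1 : (n : K) - 1 ≠ 0 := by
    have : ((n : K) - 1) = ((n - 1 : ℕ) : K) := by
      rw [Nat.cast_sub (by omega), Nat.cast_one]
    rw [this]
    exact Nat.cast_ne_zero.mpr (by omega)
  have h10 := congrFun (congrFun h ⟨1, by omega⟩) ⟨0, by omega⟩
  have h00 := congrFun (congrFun h ⟨0, by omega⟩) ⟨0, by omega⟩
  have h01 := congrFun (congrFun h ⟨0, by omega⟩) ⟨1, by omega⟩
  rw [phi_apply, phi_apply] at h10 h00 h01
  simp at h10 h00 h01
  refine ext3 h10 ?_ ?_
  · rcases h00 with h | h
    · exact h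
    · exact absurd h hn1
  · rcases h01 with h | h
    · exact h
    · exact absurd h hn1

/-- a matrix with zeros below the first subdiagonal and non-zero entries on it -/
lemma pow_ne_of_low {n : ℕ} (hn : 1 ≤ n) {Z : Matrix (Fin n) (Fin n) K}
    (h0 : ∀ i j : Fin n, (j : ℕ) + 1 < i → Z i j = 0)
    (h1 : ∀ i j : Fin n, (i : ℕ) = j + 1 → Z i j ≠ 0) : Z ^ (n - 1) ≠ 0 := by
  have key : ∀ k : ℕ, ∀ hk : k < n, (∀ i : Fin n, k < (i : ℕ) → (Z ^ k) i ⟨0, by omega⟩ = 0) ∧
      (Z ^ k) ⟨k, hk⟩ ⟨0, by omega⟩ ≠ 0 := by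
    intro k
    induction k with
    | zero =>
      intro hk
      refine ⟨fun i hi => ?_, ?_⟩
      · rw [pow_zero, Matrix.one_apply_ne]
        intro h
        rw [h] at hi
        exact absurd hi (lt_irrefl _)
      · rw [pow_zero]
        simp
    | succ k ih =>
      intro hk
      obtain ⟨ih1, ih2⟩ := ih (by omega)
      refine ⟨fun i hi => ?_, ?_⟩
      · rw [pow_succ', Matrix.mul_apply]
        refine Finset.sum_eq_zero fun l _ => ?_
        by_cases hl : k < (l : ℕ)
        · rw [ih1 l hl, mul_zero]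
        · rw [h0 i l (by omega), zero_mul]
      · rw [pow_succ', Matrix.mul_apply, Finset.sum_eq_single ⟨k, by omega⟩]
        · exact mul_ne_zero (h1 _ _ rfl) ih2
        · intro l _ hl
          have hl' : (l : ℕ) ≠ k := fun h => hl (Fin.ext h)
          rcases lt_or_gt_of_ne hl' with h | h
          · rw [h0 _ l (by change (l : ℕ) + 1 < k + 1; omega), zero_mul]
          · rw [ih1 l h, mul_zero]
        · intro h
          exact absurd (Finset.mem_univ _) h
  intro h
  exact (key (n - 1) (by omega)).2 (by rw [h]; rfl)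

/-- a non-zero isotropic element of the principal `sl_2` is regular nilpotent -/
lemma phi_pow_ne [CharZero K] {n : ℕ} (hn : 1 ≤ n) {z : Fin 3 → K} (hz : z ≠ 0)
    (hq : qf z = 0) : phi n z ^ (n - 1) ≠ 0 := by
  by_cases h0 : z 0 = 0
  · have h1 : z 1 = 0 := by
      simp only [qf, h0, zero_mul, add_zero] at hq
      exact pow_eq_zero_iff two_ne_zero |>.mp hq
    have h2 : z 2 ≠ 0 := fun h2 => hz (ext3 h0 h1 h2)
    intro h
    have h3 : (phi n z).transpose ^ (n - 1) = 0 := by
      rw [← Matrix.transpose_pow, h, Matrix.transpose_zero]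
    refine pow_ne_of_low hn ?_ ?_ h3
    · intro i j hij
      rw [Matrix.transpose_apply, phi_apply, if_neg (by intro h; first | omega | (subst h; omega)), if_neg (by intro h; first | omega | (subst h; omega)),
        if_neg (by intro h; first | omega | (subst h; omega))]
      ring
    · intro i j hij
      rw [Matrix.transpose_apply, phi_apply, h0, h1, if_pos hij.symm, hij]
      have hj : ((n : K) - ((j : ℕ) + 1 : ℕ)) ≠ 0 := by
        have hi := i.isLt
        rw [← Nat.cast_sub (by omega)]
        exact Nat.cast_ne_zero.mpr (by omega)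
      rw [zero_mul, zero_mul, zero_add, zero_add]
      exact mul_ne_zero h2 (mul_ne_zero (Nat.cast_ne_zero.mpr (Nat.succ_ne_zero _)) hj)
  · refine pow_ne_of_low hn ?_ ?_
    · intro i j hij
      rw [phi_apply, if_neg (by intro h; first | omega | (subst h; omega)), if_neg (by intro h; first | omega | (subst h; omega)), if_neg (by intro h; first | omega | (subst h; omega))]
      ring
    · intro i j hij
      rw [phi_apply, if_pos hij, if_neg (by intro h; first | omega | (subst h; omega)), if_neg (by intro h; first | omega | (subst h; omega))]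
      simpa using h0

lemma exists_h [CharZero K] {z : Fin 3 → K} (hz : z ≠ 0) (hq : qf z = 0) :
    ∃ h : Fin 3 → K, br h z = (2 : K) • z := by
  have hq' : z 1 ^ 2 + z 0 * z 2 = 0 := hq
  by_cases h2 : z 2 = 0
  · have h1 : z 1 = 0 := by
      rw [h2, mul_zero, add_zero] at hq'
      exact pow_eq_zero_iff two_ne_zero |>.mp hq'
    refine ⟨![0, -1, 0], ext3 ?_ ?_ ?_⟩ <;>
      simp [br_zero, br_one, br_two, h2, h1]
  · refine ⟨![-2 * z 1 / z 2, 1, 0], ext3 ?_ ?_ ?_⟩ <;>
      simp only [br_zero, br_one, br_two, Pi.smul_apply, smul_eq_mul,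
        Matrix.cons_val_zero, Matrix.cons_val_one, Matrix.cons_val] <;> field_simp
    · linear_combination (-2 : K) * hq'
    · ring
    · ring

/-- the trace of an element of the principal `sl_2` vanishes -/
lemma trace_phi [CharZero K] (n : ℕ) (x : Fin 3 → K) : (phi n x).trace = 0 := by
  have hH : (HH K n).trace = 0 := by
    have h := congrArg Matrix.trace (br_EF (K := K) n)
    rw [Matrix.trace_add, Matrix.trace_mul_comm] at h
    exact left_eq_add.mp h
  have hF : (FF K n).trace = 0 := by
    have h := congrArg Matrix.trace (br_HF (K := K) n)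
    rw [Matrix.trace_sub, Matrix.trace_mul_comm, Matrix.trace_smul] at h
    have h2 := sub_eq_self.mp h.symm
    exact (smul_eq_zero.mp h2).resolve_left two_ne_zero
  have hE : (EE K n).trace = 0 := by
    have h := congrArg Matrix.trace (br_HE (K := K) n)
    rw [Matrix.trace_add, Matrix.trace_mul_comm, Matrix.trace_smul] at h
    have h2 := left_eq_add.mp h
    exact (smul_eq_zero.mp h2).resolve_left two_ne_zero
  unfold phi
  rw [Matrix.trace_add, Matrix.trace_add, Matrix.trace_smul, Matrix.trace_smul, Matrix.trace_smul,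
    hH, hF, hE]
  simp

/-- elements of `gl_2` -/
lemma mem_span_iff (n : ℕ) (A : Matrix (Fin n) (Fin n) K) :
    A ∈ Submodule.span K {1, FF K n, HH K n, EE K n} ↔
      ∃ (a : K) (x : Fin 3 → K), A = a • 1 + phi n x := by
  constructor
  · intro h
    rw [Submodule.mem_span_insert] at h
    obtain ⟨a, B, hB, rfl⟩ := h
    rw [Submodule.mem_span_insert] at hB
    obtain ⟨b, B, hB, rfl⟩ := hB
    rw [Submodule.mem_span_pair] at hB
    obtain ⟨c, d, rfl⟩ := hB
    refine ⟨a, ![b, c, d], ?_⟩
    simp only [phi, Matrix.cons_val_zero, Matrix.cons_val_one, Matrix.cons_val]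
    abel
  · rintro ⟨a, x, rfl⟩
    unfold phi
    have hs : ∀ B ∈ ({1, FF K n, HH K n, EE K n} : Set (Matrix (Fin n) (Fin n) K)),
        B ∈ Submodule.span K {1, FF K n, HH K n, EE K n} := fun B hB => Submodule.subset_span hB
    exact Submodule.add_mem _ (Submodule.smul_mem _ _ (hs _ (by simp)))
      (Submodule.add_mem _ (Submodule.add_mem _ (Submodule.smul_mem _ _ (hs _ (by simp)))
        (Submodule.smul_mem _ _ (hs _ (by simp)))) (Submodule.smul_mem _ _ (hs _ (by simp))))

/-- the normaliser of the principal `gl_2` over an algebraically closed field -/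
theorem norm_aux [CharZero K] [IsAlgClosed K] {n : ℕ} (hn : 2 ≤ n)
    {g g' : Matrix (Fin n) (Fin n) K} (hgg : g * g' = 1) (hg'g : g' * g = 1)
    (hg : ∀ A ∈ Submodule.span K {1, FF K n, HH K n, EE K n},
      g * A * g' ∈ Submodule.span K {1, FF K n, HH K n, EE K n}) :
    (∃ c r : K, g.charpoly = ∏ j : Fin n, (X - C (c * r ^ (j : ℕ)))) ∧
      ((g - 1) ^ (n - 1) = 0 → g = 1) := by
  have hn0 : (n : K) ≠ 0 := Nat.cast_ne_zero.mpr (by omega)
  -- the automorphism
  have h1 : ∀ x : Fin 3 → K, ∃ y : Fin 3 → K, g * phi n x * g' = phi n y := by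
    intro x
    have h2 := hg (phi n x) ((mem_span_iff n _).mpr ⟨0, x, by rw [zero_smul, zero_add]⟩)
    obtain ⟨a, y, hy⟩ := (mem_span_iff n _).mp h2
    have h3 := congrArg Matrix.trace hy
    rw [Matrix.trace_mul_cycle, hg'g, Matrix.one_mul, trace_phi, Matrix.trace_add,
      Matrix.trace_smul, Matrix.trace_one, trace_phi, add_zero, Fintype.card_fin,
      smul_eq_mul] at h3
    have h4 : a = 0 := (mul_eq_zero.mp h3.symm).resolve_right hn0
    exact ⟨y, by rw [hy, h4, zero_smul, zero_add]⟩
  choose f hf using h1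
  have hfa : ∀ x y, f (x + y) = f x + f y := by
    intro x y
    apply phi_inj n hn
    rw [← hf, phi_add, phi_add, mul_add, add_mul, hf, hf]
  have hfs : ∀ (c : K) x, f (c • x) = c • f x := by
    intro c x
    apply phi_inj n hn
    rw [← hf, phi_smul, phi_smul, mul_smul_comm, smul_mul_assoc, hf]
  let θ : (Fin 3 → K) →ₗ[K] (Fin 3 → K) :=
    { toFun := f, map_add' := hfa, map_smul' := hfs }
  have hθ : ∀ x, g * phi n x * g' = phi n (θ x) := hf
  have hinj : Function.Injective θ := by
    intro x y hxy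
    apply phi_inj n hn
    have h2 : g * phi n x * g' = g * phi n y * g' := by rw [hθ, hθ, hxy]
    have h3 := congrArg (fun A => g' * A * g) h2
    have h4 : ∀ A : Matrix (Fin n) (Fin n) K, g' * (g * A * g') * g = A := by
      intro A
      rw [← Matrix.mul_assoc, ← Matrix.mul_assoc, hg'g, Matrix.one_mul, Matrix.mul_assoc, hg'g,
        Matrix.mul_one]
    simpa only [h4] using h3
  have hbr : ∀ x y, θ (br x y) = br (θ x) (θ y) := by
    intro x y
    apply phi_inj n hn
    rw [← hθ, ← phi_br, ← phi_br, ← hθ, ← hθ]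
    have h4 : ∀ A B : Matrix (Fin n) (Fin n) K, g * A * g' * (g * B * g') = g * (A * B) * g' := by
      intro A B
      calc g * A * g' * (g * B * g') = g * A * (g' * g) * B * g' := by noncomm_ring
        _ = g * (A * B) * g' := by rw [hg'g]; noncomm_ring
    rw [h4, h4]
    noncomm_ring
  obtain ⟨z, hz, hqz, k, hk⟩ := exists_iso θ hinj hbr
  obtain ⟨h, hh⟩ := exists_h hz hqz
  set Z := phi n z with hZ
  set H := phi n h with hH
  have hHZ : H * Z - Z * H = (2 : K) • Z := by rw [hH, hZ, phi_br, hh, phi_smul]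
  have hZn : Z ^ n = 0 := nilp two_ne_zero hHZ
  have hZn1 : Z ^ (n - 1) ≠ 0 := phi_pow_ne (by omega) hz hqz
  have hgZ : g * Z = k • (Z * g) := by
    have h2 : g * Z * g' = k • Z := by rw [hZ, hθ, hk, phi_smul]
    have h3 := congrArg (fun A => A * g) h2
    simp only [Matrix.mul_assoc, hg'g, Matrix.mul_one] at h3
    rw [h3, smul_mul_assoc]
  have hgZk : ∀ m : ℕ, g * Z ^ m = Z ^ m * ((k ^ m) • g + (0 : K) • 1) := by
    intro m
    rw [zero_smul, add_zero]
    induction m with
    | zero => simp
    | succ m ih =>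
      rw [pow_succ, ← Matrix.mul_assoc, ih, mul_smul_comm, smul_mul_assoc, Matrix.mul_assoc, hgZ,
        mul_smul_comm, smul_smul, mul_smul_comm, ← Matrix.mul_assoc, ← pow_succ, ← pow_succ]
  obtain ⟨t, ht⟩ := charpoly_shift hZn hZn1 (fun m => k ^ m) (fun _ => 0) hgZk
  simp only [add_zero] at ht
  refine ⟨⟨t, k, by rw [ht]; exact Finset.prod_congr rfl fun j _ => by rw [mul_comm]⟩, ?_⟩
  intro hu
  have hroot : ∀ j : Fin n, k ^ (j : ℕ) * t = 1 := by
    intro j
    have h2 : g.charpoly.eval (k ^ (j : ℕ) * t) = 0 := by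
      rw [ht, Polynomial.eval_prod]
      exact Finset.prod_eq_zero (Finset.mem_univ j) (by simp)
    rw [Matrix.eval_charpoly, ← Matrix.exists_mulVec_eq_zero_iff] at h2
    obtain ⟨v, hv, hgv⟩ := h2
    set m := k ^ (j : ℕ) * t with hm
    have h3 : g *ᵥ v = m • v := by
      rw [sub_mulVec, sub_eq_zero] at hgv
      rw [← hgv]
      ext i
      simp [Matrix.scalar_apply, mulVec_diagonal]
    have h4 : ∀ l : ℕ, (g - 1) ^ l *ᵥ v = (m - 1) ^ l • v := by
      intro l
      induction l with
      | zero => simp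
      | succ l ih =>
        rw [pow_succ, ← mulVec_mulVec, sub_mulVec, one_mulVec, h3, pow_succ]
        have : m • v - v = (m - 1) • v := by rw [sub_smul, one_smul]
        rw [this, mulVec_smul, ih, smul_smul, mul_comm]
    have h5 := h4 (n - 1)
    rw [hu, zero_mulVec] at h5
    rcases smul_eq_zero.mp h5.symm with h | h
    · exact sub_eq_zero.mp (pow_eq_zero_iff (by omega) |>.mp h)
    · exact absurd h hv
  have ht1 : t = 1 := by
    have := hroot ⟨0, by omega⟩
    simpa using this
  have hk1 : k = 1 := by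
    have := hroot ⟨1, by omega⟩
    simpa [ht1] using this
  rw [hk1, one_smul] at hgZ hk
  -- the grading element
  have hc : ∃ c : K, θ h - h = c • z := by
    refine parallel ?_ hz
    have h2 := congrArg θ hh
    rw [hbr, map_smul, hk] at h2
    have h3 : br (θ h - h) z = br (θ h) z - br h z := by
      have := br_add_left (θ h - h) h z
      rw [sub_add_cancel] at this
      rw [this, add_sub_cancel_right]
    rw [h3, h2, hh, sub_self]
  obtain ⟨c, hc⟩ := hc
  have hgH : g * H = H * g + c • (Z * g) := by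
    have h2 : g * H * g' = H + c • Z := by
      rw [hH, hθ, hZ, ← phi_smul, ← hc, ← phi_add, add_sub_cancel]
    have h3 := congrArg (fun A => A * g) h2
    simp only [Matrix.mul_assoc, hg'g, Matrix.mul_one] at h3
    rw [h3, add_mul, smul_mul_assoc]
  exact unip hn hZn hZn1 hHZ hgZ hgH hu

end MT.Pri
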