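import Pool.Agent.Helper43.MT.LIES
import Pool.Agent.Helper8.MT.PRI

/-!
# NRM: the normaliser of the principal `gl_2`
-/

set_option autoImplicit false

open Matrix Polynomial

namespace MT

theorem st_NRM : NRM := by
  intro C _ _ _ n hn g hg
  have hgg : (g : Matrix (Fin n) (Fin n) C) *
      ((g⁻¹ : Matrix.GeneralLinearGroup (Fin n) C) : Matrix (Fin n) (Fin n) C) = 1 := by
    rw [← Units.val_mul, mul_inv_cancel, Units.val_one]
  have hgg' : ((g⁻¹ : Matrix.GeneralLinearGroup (Fin n) C) : Matrix (Fin n) (Fin n) C) *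
      (g : Matrix (Fin n) (Fin n) C) = 1 := by
    rw [← Units.val_mul, inv_mul_cancel, Units.val_one]
  by_cases h2 : 2 ≤ n
  · exact Pri.norm_aux h2 hgg hgg' hg
  · have h3 : n = 1 := by omega
    subst h3
    refine ⟨⟨(g : Matrix (Fin 1) (Fin 1) C) 0 0, 1, ?_⟩, ?_⟩
    · rw [Matrix.charpoly_of_isUpperTriangular]
      · refine Finset.prod_congr rfl fun j _ => ?_
        rw [one_pow, mul_one, Subsingleton.elim j 0]
      · intro i j hij
        exact absurd hij (by rw [Subsingleton.elim i j]; exact lt_irrefl _)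
    · intro h
      rw [pow_zero] at h
      exact absurd h one_ne_zero

end MT
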