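import Mathlib
import Pool.Agent.Helper8.MT.PSG

/-!
# Pseudo-reflections which normalise a Lie algebra
-/

set_option autoImplicit false

open Matrix

namespace MT.Psr

variable {K : Type*} [Field K] {n : ℕ}

/-- matrices of rank one -/
lemma exists_vmv {A : Matrix (Fin n) (Fin n) K} (h : A.rank = 1) :
    ∃ v w : Fin n → K, v ≠ 0 ∧ w ≠ 0 ∧ A = vecMulVec v w := by
  have h1 : Module.finrank K (LinearMap.range A.mulVecLin) = 1 := h
  obtain ⟨v, hv, hs⟩ := finrank_eq_one_iff'.mp h1
  have h2 : ∀ j : Fin n, ∃ c : K, c • (v : Fin n → K) = A *ᵥ Pi.single j 1 := by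
    intro j
    obtain ⟨c, hc⟩ := hs ⟨A *ᵥ Pi.single j 1, ⟨Pi.single j 1, rfl⟩⟩
    exact ⟨c, by rw [← Submodule.coe_smul, hc]⟩
  choose w hw using h2
  have h3 : A = vecMulVec (v : Fin n → K) w := by
    ext i j
    have := congrFun (hw j) i
    rw [mulVec_single_one] at this
    rw [vecMulVec_apply]
    simp only [Pi.smul_apply, smul_eq_mul, col_apply] at this
    rw [← this, mul_comm]
  refine ⟨v, w, fun h => hv (Subtype.ext h), ?_, h3⟩
  rintro rfl
  have h4 : A = 0 := by
    rw [h3]
    ext i j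
    simp [vecMulVec_apply]
  rw [h4, Matrix.rank_zero] at h
  exact absurd h (by norm_num)

/-- a similitude with a fixed hyperplane is an isometry -/
lemma isom_of_rank_one {psi : Matrix (Fin n) (Fin n) K} (hn : 3 ≤ n) (hu : IsUnit psi)
    {v w : Fin n → K} {c : K}
    (h : (1 + vecMulVec v w).transpose * psi * (1 + vecMulVec v w) = c • psi) :
    (1 + vecMulVec v w).transpose * psi * (1 + vecMulVec v w) = psi := by
  by_cases hc : c = 1
  · rw [h, hc, one_smul]
  exfalso
  have h3 : (vecMulVec v w).transpose = vecMulVec w v := by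
    ext i j; simp [vecMulVec_apply, mul_comm]
  have h1 : (c - 1) • psi = vecMulVec w (v ᵥ* psi + (v ⬝ᵥ (psi *ᵥ v)) • w) +
      vecMulVec (psi *ᵥ v) w := by
    have h4 : (c - 1) • psi = (1 + vecMulVec v w).transpose * psi * (1 + vecMulVec v w) - psi := by
      rw [h, sub_smul, one_smul]
    rw [h4, Matrix.transpose_add, Matrix.transpose_one, h3, add_mul, add_mul, mul_add, mul_add,
      one_mul, mul_one, mul_one, vecMulVec_mul, mul_vecMulVec', vmv_mul_vmv]
    have h5 : (v ᵥ* psi) ⬝ᵥ v = v ⬝ᵥ (psi *ᵥ v) := (dotProduct_mulVec v psi v).symm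
    rw [h5]
    ext i j
    simp only [Matrix.add_apply, Matrix.sub_apply, Matrix.smul_apply, vecMulVec_apply,
      Pi.add_apply, Pi.smul_apply, smul_eq_mul]
    ring
  set u : Fin n → K := v ᵥ* psi + (v ⬝ᵥ (psi *ᵥ v)) • w with hu'
  have h2 : ∃ x : Fin n → K, x ≠ 0 ∧ u ⬝ᵥ x = 0 ∧ w ⬝ᵥ x = 0 := by
    let f : (Fin n → K) →ₗ[K] (Fin 2 → K) := (Matrix.of ![u, w]).mulVecLin
    have h6 : LinearMap.ker f ≠ ⊥ := by
      apply LinearMap.ker_ne_bot_of_finrank_lt
      rw [Module.finrank_fin_fun, Module.finrank_fin_fun]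
      omega
    obtain ⟨x, hx, hx0⟩ := (Submodule.ne_bot_iff _).mp h6
    refine ⟨x, hx0, ?_, ?_⟩
    · have := congrFun (LinearMap.mem_ker.mp hx) 0
      simpa [f, mulVecLin_apply, mulVec] using this
    · have := congrFun (LinearMap.mem_ker.mp hx) 1
      simpa [f, mulVecLin_apply, mulVec] using this
  obtain ⟨x, hx0, hx1, hx2⟩ := h2
  have h7 : (c - 1) • (psi *ᵥ x) = 0 := by
    rw [← smul_mulVec, h1, add_mulVec, vecMulVec_mulVec, vecMulVec_mulVec, hx1, hx2]
    simp
  rcases smul_eq_zero.mp h7 with h8 | h8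
  · exact hc (sub_eq_zero.mp h8)
  · exact psi_mulVec_ne hu hx0 h8

lemma XX_sp {psi : Matrix (Fin n) (Fin n) K} (hpsi : psi.transpose = -psi) (u : Fin n → K) :
    (XX psi u).transpose * psi + psi * XX psi u = 0 := by
  have h3 : (XX psi u).transpose = vecMulVec (psi *ᵥ u) u := by
    ext i j; simp [XX, vecMulVec_apply, mul_comm]
  have hvp : u ᵥ* psi = -(psi *ᵥ u) := by
    rw [← mulVec_transpose, hpsi, neg_mulVec]
  rw [h3, vecMulVec_mul, hvp, XX, mul_vecMulVec']
  ext i j
  simp [vecMulVec_apply]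

lemma XX_sq [CharZero K] {psi : Matrix (Fin n) (Fin n) K} (hpsi : psi.transpose = -psi)
    (u : Fin n → K) : XX psi u * XX psi u = 0 := by
  unfold XX
  rw [vmv_mul_vmv, pf_eq, self_zero hpsi, zero_smul]

lemma BB_self (psi : Matrix (Fin n) (Fin n) K) (u : Fin n → K) :
    BB psi u u = (2 : K) • XX psi u := by
  unfold BB XX
  rw [two_smul]

/-- an ideal of the symplectic Lie algebra which contains a regular nilpotent matrix -/
lemma sp_ideal [CharZero K] {psi N : Matrix (Fin n) (Fin n) K} (hpsi : psi.transpose = -psi)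
    (hu : IsUnit psi) (a : Submodule K (Matrix (Fin n) (Fin n) K))
    (hbr : ∀ A ∈ a, ∀ B ∈ a, A * B - B * A ∈ a)
    (hid : ∀ B : Matrix (Fin n) (Fin n) K, B.transpose * psi + psi * B = 0 → ∀ A ∈ a,
      B * A - A * B ∈ a)
    (hN : N ∈ a) (hNpsi : N.transpose * psi + psi * N = 0) (h1 : N ^ n = 0)
    (h2 : N ^ (n - 1) ≠ 0) (A : Matrix (Fin n) (Fin n) K)
    (hA : A.transpose * psi + psi * A = 0) : A ∈ a := by
  classical
  -- squares
  have hXa : ∀ u, pf psi u (N *ᵥ u) ≠ 0 → XX psi u ∈ a := by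
    intro u hq
    have h3 := hid _ (XX_sp hpsi u) _ hN
    have h4 : BB psi u (N *ᵥ u) ∈ a := by
      rw [← bracket_XX_of hNpsi u]
      have h5 := a.neg_mem h3
      rwa [neg_sub] at h5
    have h6 := hid _ (XX_sp hpsi u) _ h4
    rw [bracket_XX_BB hpsi u u (N *ᵥ u) (self_zero hpsi u), BB_self, smul_smul] at h6
    have h7 : pf psi (N *ᵥ u) u * 2 ≠ 0 := by
      rw [pf_neg hpsi]
      exact mul_ne_zero (neg_ne_zero.mpr hq) two_ne_zero
    have h8 := a.smul_mem (pf psi (N *ᵥ u) u * 2)⁻¹ h6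
    rwa [smul_smul, inv_mul_cancel₀ h7, one_smul] at h8
  -- the form `pf x (N y)` is symmetric and not zero
  have hsym : ∀ x y, pf psi x (N *ᵥ y) = pf psi y (N *ᵥ x) := by
    intro x y
    rw [← neg_neg (pf psi x (N *ᵥ y)), ← pf_sp hNpsi, pf_neg hpsi, neg_neg]
  by_cases hex : ∃ u, pf psi u (N *ᵥ u) ≠ 0
  · obtain ⟨u0, hu0⟩ := hex
    refine psr_odd hpsi hu a hbr hN hNpsi h1 h2 ?_ A hA
    rw [eq_top_iff]
    intro v _
    have h5 : ∃ c : K, c ≠ 0 ∧ pf psi (u0 + c • v) (N *ᵥ (u0 + c • v)) ≠ 0 := by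
      by_contra hno
      push Not at hno
      have e : ∀ c : K, pf psi (u0 + c • v) (N *ᵥ (u0 + c • v)) = pf psi u0 (N *ᵥ u0) +
          c * (2 * pf psi u0 (N *ᵥ v)) + c ^ 2 * pf psi v (N *ᵥ v) := by
        intro c
        rw [mulVec_add, mulVec_smul, pf_add_left, pf_add_right, pf_add_right, pf_smul_left,
          pf_smul_left, pf_smul_right, pf_smul_right, hsym v u0]
        ring
      have e1 := hno 1 one_ne_zero
      have e2 := hno 2 two_ne_zero
      have e3 := hno 3 three_ne_zero
      rw [e] at e1 e2 e3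
      apply hu0
      linear_combination 3 * e1 - 3 * e2 + e3
    obtain ⟨c, hc, hcq⟩ := h5
    have h6 : v = c⁻¹ • ((u0 + c • v) - u0) := by
      rw [add_sub_cancel_left, smul_smul, inv_mul_cancel₀ hc, one_smul]
    rw [h6]
    exact Submodule.smul_mem _ _ (Submodule.sub_mem _ (Submodule.subset_span (hXa _ hcq))
      (Submodule.subset_span (hXa _ hu0)))
  · push Not at hex
    have h3 : ∀ x y, pf psi x (N *ᵥ y) = 0 := by
      intro x y
      have h4 := hex (x + y)
      rw [mulVec_add, pf_add_left, pf_add_right, pf_add_right, hex, hex, hsym y x, zero_add,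
        add_zero, ← two_mul] at h4
      exact (mul_eq_zero.mp h4).resolve_left two_ne_zero
    have h4 : N = 0 := by
      have h5 : ∀ y, N *ᵥ y = 0 := by
        intro y
        refine pf_nondeg hu fun x => ?_
        rw [pf_neg hpsi, h3, neg_zero]
      ext i j
      have := congrFun (h5 (Pi.single j 1)) i
      rw [mulVec_single_one] at this
      simpa using this
    have h5 : n - 1 = 0 := by
      by_contra h6
      exact h2 (by rw [h4, zero_pow h6])
    rcases Nat.lt_or_ge n 1 with h6 | h6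
    · have h7 : n = 0 := by omega
      subst h7
      rw [Subsingleton.elim A 0]
      exact a.zero_mem
    · have h7 : n = 1 := by omega
      subst h7
      exfalso
      have h8 : psi = 0 := by
        ext i j
        have h9 := congrFun (congrFun hpsi i) j
        rw [transpose_apply, Subsingleton.elim j i, Matrix.neg_apply] at h9
        rw [Subsingleton.elim j i, Matrix.zero_apply]
        exact self_eq_neg.mp h9
      rw [h8] at hu
      exact not_isUnit_zero hu

/-- the symplectic case: a Lie algebra which contains a regular nilpotent matrix and is normalised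
by many transvections -/
lemma core_odd [CharZero K] {psi N : Matrix (Fin n) (Fin n) K} (hpsi : psi.transpose = -psi)
    (hu : IsUnit psi) (a : Submodule K (Matrix (Fin n) (Fin n) K))
    (hbr : ∀ A ∈ a, ∀ B ∈ a, A * B - B * A ∈ a)
    (hN : N ∈ a) (hNpsi : N.transpose * psi + psi * N = 0) (h1 : N ^ n = 0)
    (h2 : N ^ (n - 1) ≠ 0) (S : Set (Fin n → K)) (hS : Submodule.span K S = ⊤)
    (hc : ∀ u ∈ S, ∃ c : K, c ≠ 0 ∧ (∀ A ∈ a, (1 + c • XX psi u) * A * (1 - c • XX psi u) ∈ a) ∧
      ∀ A ∈ a, (1 - c • XX psi u) * A * (1 + c • XX psi u) ∈ a)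
    (A : Matrix (Fin n) (Fin n) K) (hA : A.transpose * psi + psi * A = 0) : A ∈ a := by
  let b : Submodule K (Matrix (Fin n) (Fin n) K) :=
    { carrier := {B | B.transpose * psi + psi * B = 0 ∧ ∀ A ∈ a, B * A - A * B ∈ a}
      add_mem' := by
        rintro B B' ⟨hB, hB'⟩ ⟨hC, hC'⟩
        refine ⟨?_, fun A hA => ?_⟩
        · have : (B + B').transpose * psi + psi * (B + B') =
              (B.transpose * psi + psi * B) + (B'.transpose * psi + psi * B') := by
            rw [Matrix.transpose_add, add_mul, mul_add]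
            abel
          rw [this, hB, hC, add_zero]
        · have : (B + B') * A - A * (B + B') = (B * A - A * B) + (B' * A - A * B') := by
            rw [add_mul, mul_add]
            abel
          rw [this]
          exact a.add_mem (hB' A hA) (hC' A hA)
      zero_mem' := by
        refine ⟨?_, fun A hA => ?_⟩
        · simp
        · rw [zero_mul, mul_zero, sub_zero]
          exact a.zero_mem
      smul_mem' := by
        rintro c B ⟨hB, hB'⟩
        refine ⟨?_, fun A hA => ?_⟩
        · rw [Matrix.transpose_smul, smul_mul_assoc, mul_smul_comm, ← smul_add, hB, smul_zero]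
        · rw [smul_mul_assoc, mul_smul_comm, ← smul_sub]
          exact a.smul_mem _ (hB' A hA) }
  have hb : ∀ B, B ∈ b ↔ (B.transpose * psi + psi * B = 0 ∧ ∀ A ∈ a, B * A - A * B ∈ a) :=
    fun B => Iff.rfl
  have hbb : ∀ A ∈ b, ∀ B ∈ b, A * B - B * A ∈ b := by
    intro A hA B hB
    rw [hb] at hA hB ⊢
    refine ⟨?_, fun C hC => ?_⟩
    · have h3 : A.transpose * psi = -(psi * A) := eq_neg_of_add_eq_zero_left hA.1
      have h4 : B.transpose * psi = -(psi * B) := eq_neg_of_add_eq_zero_left hB.1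
      rw [Matrix.transpose_sub, Matrix.transpose_mul, Matrix.transpose_mul, sub_mul,
        Matrix.mul_assoc, Matrix.mul_assoc, h3, h4, mul_neg, mul_neg, ← Matrix.mul_assoc,
        ← Matrix.mul_assoc, h3, h4]
      noncomm_ring
    · have h5 : (A * B - B * A) * C - C * (A * B - B * A) =
          (A * (B * C - C * B) - (B * C - C * B) * A) -
            (B * (A * C - C * A) - (A * C - C * A) * B) := by noncomm_ring
      rw [h5]
      exact a.sub_mem (hA.2 _ (hB.2 C hC)) (hB.2 _ (hA.2 C hC))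
  have hNb : N ∈ b := by
    rw [hb]
    exact ⟨hNpsi, fun A hA => hbr N hN A hA⟩
  have hXb : ∀ u ∈ S, XX psi u ∈ b := by
    intro u huS
    rw [hb]
    refine ⟨XX_sp hpsi u, fun A hA => ?_⟩
    obtain ⟨c, hc0, hc1, hc2⟩ := hc u huS
    have h3 := a.sub_mem (hc1 A hA) (hc2 A hA)
    have h4 : (1 + c • XX psi u) * A * (1 - c • XX psi u) -
        (1 - c • XX psi u) * A * (1 + c • XX psi u) = (2 * c) • (XX psi u * A - A * XX psi u) := by
      simp only [add_mul, sub_mul, mul_add, mul_sub, one_mul, mul_one, smul_mul_assoc,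
        mul_smul_comm]
      module
    rw [h4] at h3
    have h5 := a.smul_mem (2 * c)⁻¹ h3
    rwa [smul_smul, inv_mul_cancel₀ (mul_ne_zero two_ne_zero hc0), one_smul] at h5
  have hfull : ∀ B : Matrix (Fin n) (Fin n) K, B.transpose * psi + psi * B = 0 → B ∈ b := by
    intro B hB
    refine psr_odd hpsi hu b hbb hNb hNpsi h1 h2 ?_ B hB
    rw [eq_top_iff, ← hS]
    exact Submodule.span_mono hXb
  exact sp_ideal hpsi hu a hbr (fun B hB => ((hb B).mp (hfull B hB)).2) hN hNpsi h1 h2 A hA

lemma refl_mul_self [CharZero K] {psi : Matrix (Fin n) (Fin n) K} {v : Fin n → K}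
    (hv : pf psi v v ≠ 0) : refl psi v * refl psi v = 1 := by
  unfold refl
  simp only [sub_mul, mul_sub, one_mul, mul_one, smul_mul_assoc, mul_smul_comm, vmv_mul_vmv,
    pf_eq, smul_smul]
  have h : 2 / pf psi v v * pf psi v v = 2 := by
    field_simp
  rw [h]
  module

end MT.Psr
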