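import Pool.Agent.Helper43.MT.LIES
import Pool.Agent.Helper92.MT.APS
import Pool.Agent.Helper8.MT.NRM
import Pool.Agent.Helper8.MT.RK1

/-!
# CORE: the Lie algebra of the closure is symplectic or orthogonal
-/

set_option autoImplicit false

open Matrix

namespace MT

variable {K : Type} [Field K] {n : ℕ}

/-- the isometries in a space of similitudes -/
def iso0 (a : Submodule K (Matrix (Fin n) (Fin n) K)) (psi : Matrix (Fin n) (Fin n) K) :
    Submodule K (Matrix (Fin n) (Fin n) K) where
  carrier := {A | A ∈ a ∧ A.transpose * psi + psi * A = 0}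
  add_mem' := by
    rintro A B ⟨hA, hA'⟩ ⟨hB, hB'⟩
    refine ⟨a.add_mem hA hB, ?_⟩
    have : (A + B).transpose * psi + psi * (A + B) =
        (A.transpose * psi + psi * A) + (B.transpose * psi + psi * B) := by
      rw [Matrix.transpose_add, add_mul, mul_add]
      abel
    rw [this, hA', hB', add_zero]
  zero_mem' := ⟨a.zero_mem, by simp⟩
  smul_mem' := by
    rintro c A ⟨hA, hA'⟩
    refine ⟨a.smul_mem c hA, ?_⟩
    rw [Matrix.transpose_smul, smul_mul_assoc, mul_smul_comm, ← smul_add, hA', smul_zero]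

lemma mem_iso0 (a : Submodule K (Matrix (Fin n) (Fin n) K)) (psi A : Matrix (Fin n) (Fin n) K) :
    A ∈ iso0 a psi ↔ A ∈ a ∧ A.transpose * psi + psi * A = 0 := Iff.rfl

lemma iso0_br {a : Submodule K (Matrix (Fin n) (Fin n) K)} (psi : Matrix (Fin n) (Fin n) K)
    (hbr : ∀ A ∈ a, ∀ B ∈ a, A * B - B * A ∈ a) :
    ∀ A ∈ iso0 a psi, ∀ B ∈ iso0 a psi, A * B - B * A ∈ iso0 a psi := by
  intro A hA B hB
  rw [mem_iso0] at hA hB ⊢
  refine ⟨hbr A hA.1 B hB.1, ?_⟩
  have h3 : A.transpose * psi = -(psi * A) := eq_neg_of_add_eq_zero_left hA.2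
  have h4 : B.transpose * psi = -(psi * B) := eq_neg_of_add_eq_zero_left hB.2
  rw [Matrix.transpose_sub, Matrix.transpose_mul, Matrix.transpose_mul, sub_mul,
    Matrix.mul_assoc, Matrix.mul_assoc, h3, h4, mul_neg, mul_neg, ← Matrix.mul_assoc,
    ← Matrix.mul_assoc, h3, h4]
  noncomm_ring

lemma iso0_conj {a : Submodule K (Matrix (Fin n) (Fin n) K)} {psi g g' : Matrix (Fin n) (Fin n) K}
    (hgg : g * g' = 1) {c : K} (hg : g.transpose * psi * g = c • psi)
    (ha : ∀ A ∈ a, g * A * g' ∈ a) : ∀ A ∈ iso0 a psi, g * A * g' ∈ iso0 a psi := by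
  intro A hA
  rw [mem_iso0] at hA ⊢
  refine ⟨ha A hA.1, ?_⟩
  have h1 : g'.transpose * g.transpose = 1 := by
    rw [← Matrix.transpose_mul, hgg, Matrix.transpose_one]
  have e1 : (g * A * g').transpose * psi = g'.transpose * (A.transpose * (c • psi)) * g' := by
    rw [← hg, Matrix.transpose_mul, Matrix.transpose_mul]
    calc g'.transpose * (A.transpose * g.transpose) * psi
        = g'.transpose * (A.transpose * g.transpose) * psi * (g * g') := by
          rw [hgg, Matrix.mul_one]
      _ = g'.transpose * (A.transpose * (g.transpose * psi * g)) * g' := by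
          simp only [Matrix.mul_assoc]
  have e2 : psi * (g * A * g') = g'.transpose * ((c • psi) * A) * g' := by
    rw [← hg]
    calc psi * (g * A * g') = (g'.transpose * g.transpose) * (psi * (g * A * g')) := by
          rw [h1, Matrix.one_mul]
      _ = g'.transpose * (g.transpose * psi * g * A) * g' := by simp only [Matrix.mul_assoc]
  rw [e1, e2, ← add_mul, ← mul_add, mul_smul_comm, smul_mul_assoc, ← smul_add, hA.2, smul_zero,
    mul_zero, zero_mul]

/-- a nilpotent similitude is an isometry -/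
lemma nil_isom [CharZero K] {psi N : Matrix (Fin n) (Fin n) K} (hdet : psi.det ≠ 0)
    (hN : N ^ n = 0) {c : K} (h : N.transpose * psi + psi * N = c • psi) :
    N.transpose * psi + psi * N = 0 := by
  rcases Nat.eq_zero_or_pos n with h0 | h0
  · subst h0
    exact Subsingleton.elim _ _
  have htr : N.trace = 0 := (Matrix.isNilpotent_trace_of_isNilpotent ⟨n, hN⟩).eq_zero
  have hu : IsUnit psi.det := isUnit_iff_ne_zero.mpr hdet
  have h1 : N.transpose + psi * N * psi⁻¹ = c • 1 := by
    have h2 := congrArg (fun A => A * psi⁻¹) h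
    simp only [add_mul, smul_mul_assoc, Matrix.mul_assoc, Matrix.mul_nonsing_inv psi hu,
      Matrix.mul_one] at h2
    rw [← h2, Matrix.mul_assoc]
  have h2 := congrArg Matrix.trace h1
  rw [Matrix.trace_add, Matrix.trace_transpose, Matrix.trace_mul_cycle,
    Matrix.nonsing_inv_mul psi hu, Matrix.one_mul, htr, Matrix.trace_smul, Matrix.trace_one,
    Fintype.card_fin, smul_eq_mul, zero_add] at h2
  have h3 : c = 0 := by
    rcases mul_eq_zero.mp h2.symm with h | h
    · exact h
    · exact absurd h (Nat.cast_ne_zero.mpr h0.ne')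
  rw [h, h3, zero_smul]

theorem st_CORE : ST_CORE := by
  classical
  intro K _ _ n psi N D a G hdet hpsi hbr hsim hN hN1 hN2 hD hDN hG hGa hirr h7 hcrit A hA
  have hu : IsUnit psi := (Matrix.isUnit_iff_isUnit_det psi).mpr (isUnit_iff_ne_zero.mpr hdet)
  let ρ : G →* Matrix (Fin n) (Fin n) K := (Units.coeHom _).comp G.subtype
  have hirrG : ∀ U : Submodule K (Fin n → K), (∀ g : G, Psr.Stab (ρ g) U) → U = ⊥ ∨ U = ⊤ := by
    intro U hU
    exact hirr U fun g hg v hv => hU ⟨g, hg⟩ v hv
  have hira : ∀ b : Submodule K (Matrix (Fin n) (Fin n) K), N ∈ b →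
      (∀ g ∈ G, ∀ A ∈ b, (g : Matrix (Fin n) (Fin n) K) * A *
        ((g⁻¹ : Matrix.GeneralLinearGroup (Fin n) K) : Matrix (Fin n) (Fin n) K) ∈ b) →
      ∀ W : Submodule K (Fin n → K), (∀ A ∈ b, ∀ v ∈ W, A.mulVec v ∈ W) → W = ⊥ ∨ W = ⊤ := by
    intro b hNb hb W hW
    exact Psr.irrl ρ b hN1 hN2 hNb (fun g A hA => hb g g.2 A hA) hirrG W hW
  by_cases hR : 4 ≤ n ∧ ∃ g ∈ G, ((g : Matrix (Fin n) (Fin n) K) - 1).rank = 1
  · obtain ⟨hn4, g, hg, hr⟩ := hR
    obtain ⟨v, w, hv, hw, hvw⟩ := Psr.exists_vmv hr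
    have hg1 : (g : Matrix (Fin n) (Fin n) K) = 1 + vecMulVec v w := by
      rw [← hvw]
      abel
    obtain ⟨c, hc⟩ := hG g hg
    have hiso : (1 + vecMulVec v w).transpose * psi * (1 + vecMulVec v w) = psi := by
      rw [hg1] at hc
      exact Psr.isom_of_rank_one (by omega) hu hc
    have hN0 : N.transpose * psi + psi * N = 0 := by
      obtain ⟨c, hc⟩ := hsim N hN
      exact nil_isom hdet hN1 hc
    have hgg : ∀ g : Matrix.GeneralLinearGroup (Fin n) K, (g : Matrix (Fin n) (Fin n) K) *
        ((g⁻¹ : Matrix.GeneralLinearGroup (Fin n) K) : Matrix (Fin n) (Fin n) K) = 1 := by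
      intro g
      rw [← Units.val_mul, mul_inv_cancel, Units.val_one]
    have ha0 : ∀ g ∈ G, ∀ A ∈ iso0 a psi, (g : Matrix (Fin n) (Fin n) K) * A *
        ((g⁻¹ : Matrix.GeneralLinearGroup (Fin n) K) : Matrix (Fin n) (Fin n) K) ∈
          iso0 a psi := by
      intro g hg
      obtain ⟨c, hc⟩ := hG g hg
      exact iso0_conj (hgg g) hc (hGa g hg)
    have hN00 : N ∈ iso0 a psi := (mem_iso0 _ _ _).mpr ⟨hN, hN0⟩
    have hfin : A ∈ iso0 a psi := by
      rcases hpsi with hpsi | hpsi
      · obtain ⟨c, hc0, hcX⟩ := Psr.transvection_of hpsi hu hv hw hiso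
        refine Psr.core_odd hpsi hu (iso0 a psi) (iso0_br psi hbr) hN00 hN0 hN1 hN2
          {u | ∃ g' ∈ G, u = (g' : Matrix (Fin n) (Fin n) K) *ᵥ v} ?_ ?_ A hA
        · rcases hirr (Submodule.span K
            {u | ∃ g' ∈ G, u = (g' : Matrix (Fin n) (Fin n) K) *ᵥ v}) (by
              intro g' hg' x hx
              induction hx using Submodule.span_induction with
              | mem x hx =>
                obtain ⟨g'', hg'', rfl⟩ := hx
                refine Submodule.subset_span ⟨g' * g'', G.mul_mem hg' hg'', ?_⟩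
                rw [mulVec_mulVec, Units.val_mul]
              | zero => rw [mulVec_zero]; exact Submodule.zero_mem _
              | add x y _ _ hx hy => rw [mulVec_add]; exact Submodule.add_mem _ hx hy
              | smul c x _ hx => rw [mulVec_smul]; exact Submodule.smul_mem _ _ hx) with h | h
          · exfalso
            have h1 : v ∈ Submodule.span K
                {u | ∃ g' ∈ G, u = (g' : Matrix (Fin n) (Fin n) K) *ᵥ v} :=
              Submodule.subset_span ⟨1, G.one_mem, by rw [Units.val_one, one_mulVec]⟩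
            rw [h, Submodule.mem_bot] at h1
            exact hv h1
          · exact h
        · rintro u ⟨g', hg', rfl⟩
          obtain ⟨m, hm⟩ := hG g' hg'
          have hm0 : m ≠ 0 := by
            rintro rfl
            rw [zero_smul] at hm
            have h1 := congrArg Matrix.det hm
            rw [Matrix.det_mul, Matrix.det_mul, Matrix.det_transpose] at h1
            have hgd : (g' : Matrix (Fin n) (Fin n) K).det ≠ 0 :=
              isUnit_iff_ne_zero.mp ((Matrix.isUnit_iff_isUnit_det _).mp g'.isUnit)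
            haveI : Nonempty (Fin n) := ⟨⟨0, by omega⟩⟩
            rw [Matrix.det_zero] at h1
            exact mul_ne_zero (mul_ne_zero hgd hdet) hgd h1
          have h1 := Psr.XX_conj (hgg g') hm hm0 v
          have ht : ((g' * g * g'⁻¹ : Matrix.GeneralLinearGroup (Fin n) K) :
              Matrix (Fin n) (Fin n) K) =
              1 + (c * m⁻¹) • Psr.XX psi ((g' : Matrix (Fin n) (Fin n) K) *ᵥ v) := by
            rw [Units.val_mul, Units.val_mul, hg1, hcX, mul_add, mul_one, add_mul, hgg,
              mul_smul_comm, smul_mul_assoc, h1, smul_smul]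
          have hX2 := Psr.XX_sq hpsi ((g' : Matrix (Fin n) (Fin n) K) *ᵥ v)
          have ht' : (((g' * g * g'⁻¹)⁻¹ : Matrix.GeneralLinearGroup (Fin n) K) :
              Matrix (Fin n) (Fin n) K) =
              1 - (c * m⁻¹) • Psr.XX psi ((g' : Matrix (Fin n) (Fin n) K) *ᵥ v) := by
            apply Units.inv_eq_of_mul_eq_one_right
            rw [ht]
            simp only [add_mul, mul_sub, one_mul, mul_one, smul_mul_assoc, mul_smul_comm, hX2,
              smul_zero]
            abel
          have htG : g' * g * g'⁻¹ ∈ G := G.mul_mem (G.mul_mem hg' hg) (G.inv_mem hg')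
          refine ⟨c * m⁻¹, mul_ne_zero hc0 (inv_ne_zero hm0), ?_, ?_⟩
          · intro B hB
            have h2 := ha0 _ htG B hB
            rwa [ht, ht'] at h2
          · intro B hB
            have h2 := ha0 _ (G.inv_mem htG) B hB
            rwa [inv_inv, ht, ht'] at h2
      · obtain ⟨hvv, hrf⟩ := Psr.reflection_of hpsi hu hv hw hiso
        refine Psr.psr_even hpsi hu (iso0 a psi) (iso0_br psi hbr) (fun B hB => hB.2)
          (hira (iso0 a psi) hN00 ha0) v hvv ?_ A hA
        intro B hB
        have ht : (g : Matrix (Fin n) (Fin n) K) = Psr.refl psi v := by rw [hg1, hrf]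
        have ht' : ((g⁻¹ : Matrix.GeneralLinearGroup (Fin n) K) : Matrix (Fin n) (Fin n) K) =
            Psr.refl psi v := by
          apply Units.inv_eq_of_mul_eq_one_right
          rw [ht]
          exact Psr.refl_mul_self hvv
        have h2 := ha0 g hg B hB
        rwa [ht', ht] at h2
    exact hfin.1
  · have hn7 : n ≠ 7 := by
      rcases h7 with h | h
      · exact h
      · intro h'
        exact hR ⟨by omega, h⟩
    rcases lie_strong K n psi N D a hn7 hdet hbr hsim hN hN1 hN2 hD hDN (hira a hN hGa) with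
      h | ⟨h4, P, hP1, hP2⟩
    · exact h A hA
    · exfalso
      rcases hcrit with h | ⟨g, hg, hg1, hg2⟩ | ⟨g, hg, hr⟩ | ⟨g, hg, hcp⟩ |
        ⟨C, _, _, _, T, hT, hcd⟩
      · omega
      · exact hg1 ((nrm_K st_NRM K n (by omega) a P hP1 hP2 g (hGa g hg)).2 hg2)
      · exact hR ⟨h4, g, hg, hr⟩
      · obtain ⟨c, r, h⟩ := (nrm_K st_NRM K n (by omega) a P hP1 hP2 g (hGa g hg)).1
        exact hcp _ c r h
      · haveI : CharZero C := charZero_of_injective_algebraMap (algebraMap K C).injective
        obtain ⟨c, d, h⟩ := Gen.ap_span a P hP1 T hT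
        exact hcd c d h

end MT
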